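import Mathlib

/-!
Algebraic input: in a number field all of whose primes above `p` are ramified, `p` is up to a unit
at `p` a product of two elements which are nilpotent modulo `p`.
-/

set_option autoImplicit false

namespace Pool.Agent.H323R2

open NumberField Polynomial UniqueFactorizationMonoid

lemma exists_int_mem (K : Type) [Field K] [NumberField K] (p : ℕ) (hp : p.Prime)
    (A : Ideal (𝓞 K)) (hA : A ⊔ Ideal.span {(p : 𝓞 K)} = ⊤) :
    ∃ N : ℤ, ¬ (p : ℤ) ∣ N ∧ (N : 𝓞 K) ∈ A := by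
  by_contra hcon
  push Not at hcon
  have hpr : Prime (p : ℤ) := Nat.prime_iff_prime_int.1 hp
  have hP : (Ideal.span {(p : ℤ)}).IsPrime := (Ideal.span_singleton_prime hpr.ne_zero).2 hpr
  have hle : A.comap (algebraMap ℤ (𝓞 K)) ≤ Ideal.span {(p : ℤ)} := by
    intro N hN
    rw [Ideal.mem_comap] at hN
    rw [Ideal.mem_span_singleton]
    by_contra h
    exact hcon N h (by simpa using hN)
  obtain ⟨Q, hQA, hQP, hQ⟩ := Ideal.exists_ideal_over_prime_of_isIntegral
    (Ideal.span {(p : ℤ)}) A hle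
  have hpQ : (p : 𝓞 K) ∈ Q := by
    have : (p : ℤ) ∈ Q.comap (algebraMap ℤ (𝓞 K)) := by
      rw [hQ]; exact Ideal.mem_span_singleton_self _
    rw [Ideal.mem_comap] at this
    simpa using this
  apply hQP.ne_top
  rw [eq_top_iff, ← hA]
  exact sup_le hQA ((Ideal.span_singleton_le_iff_mem _).2 hpQ)

lemma exists_yu (K : Type) [Field K] [NumberField K] (p : ℕ) (hp : p.Prime)
    (h : ∀ P : Ideal (𝓞 K), P.IsPrime → (p : 𝓞 K) ∈ P → (p : 𝓞 K) ∈ P ^ 2) :
    ∃ (y u : 𝓞 K) (N : ℤ) (n : ℕ), 1 ≤ n ∧ ¬ (p : ℤ) ∣ N ∧ y * u = N * p ∧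
      (p : 𝓞 K) ∣ y ^ n ∧ (p : 𝓞 K) ∣ u ^ n := by
  classical
  set I : Ideal (𝓞 K) := Ideal.span {(p : 𝓞 K)} with hI
  have hp0 : (p : 𝓞 K) ≠ 0 := by exact_mod_cast hp.ne_zero
  have hI0 : I ≠ 0 := by
    rw [hI, Ne, Ideal.zero_eq_bot, Ideal.span_singleton_eq_bot]
    exact hp0
  set J := I.radical with hJ
  -- `I ≤ J ^ 2`
  have hIJ2 : I ≤ J ^ 2 := by
    set S := (normalizedFactors I).toFinset with hS
    have hSp : ∀ P ∈ S, P.IsPrime ∧ (p : 𝓞 K) ∈ P := by
      intro P hP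
      rw [hS, Multiset.mem_toFinset] at hP
      have h1 := prime_of_normalized_factor P hP
      refine ⟨Ideal.isPrime_of_prime h1, ?_⟩
      have h2 : P ∣ I := dvd_of_mem_normalizedFactors hP
      rw [Ideal.dvd_iff_le] at h2
      exact h2 (Ideal.mem_span_singleton_self _)
    have h1 : ∏ P ∈ S, P ^ 2 ∣ I := by
      apply Finset.prod_dvd_of_coprime
      · intro P hP Q hQ hPQ
        have hP' := hSp P hP
        have hQ' := hSp Q hQ
        have hPm : P.IsMaximal := hP'.1.isMaximal (by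
          rintro rfl; exact hp0 (by simpa using hP'.2))
        have hQm : Q.IsMaximal := hQ'.1.isMaximal (by
          rintro rfl; exact hp0 (by simpa using hQ'.2))
        have := Ideal.isCoprime_of_isMaximal (I := P) (J := Q) hPQ
        exact this.pow
      · intro P hP
        rw [Ideal.dvd_iff_le, hI, Ideal.span_singleton_le_iff_mem]
        exact h P (hSp P hP).1 (hSp P hP).2
    rw [Finset.prod_pow, Ideal.dvd_iff_le] at h1
    have h2 : ∏ P ∈ S, P ≤ J := by
      rw [hJ, Ideal.radical_eq_sInf]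
      apply le_sInf
      intro Q hQ
      have hQ0 : Q ≠ ⊥ := by
        rintro rfl
        exact hI0 (le_bot_iff.1 hQ.1)
      have h3 : Prime Q := Ideal.prime_of_isPrime hQ0 hQ.2
      have h4 : Q ∣ I := Ideal.dvd_iff_le.2 hQ.1
      obtain ⟨Q', hQ', hassoc⟩ := exists_mem_normalizedFactors_of_dvd hI0 h3.irreducible h4
      rw [associated_iff_eq] at hassoc
      have h5 : Q ∈ S := by rw [hS, Multiset.mem_toFinset, hassoc]; exact hQ'
      exact Ideal.dvd_iff_le.1 (Finset.dvd_prod_of_mem _ h5)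
    exact h1.trans (Ideal.pow_right_mono h2 2)
  have hIJ : I ≤ J := Ideal.le_radical
  have hJ0 : J ≠ 0 := fun h0 => hI0 (by
    rw [Ideal.zero_eq_bot] at h0 ⊢
    rw [h0] at hIJ; exact le_bot_iff.1 hIJ)
  obtain ⟨n, hn⟩ := I.exists_radical_pow_le_of_fg (IsNoetherian.noetherian _)
  rw [← hJ] at hn
  have hn1 : J ^ (n + 1) ≤ I := (Ideal.pow_le_pow_right (Nat.le_succ n)).trans hn
  obtain ⟨y, hy⟩ := IsDedekindDomain.exists_sup_span_eq hIJ hI0
  have hyJ : Ideal.span {y} ≤ J := by rw [← hy]; exact le_sup_right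
  obtain ⟨A, hA⟩ := Ideal.dvd_iff_le.2 hyJ
  have hcop : J ⊔ A = ⊤ := by
    have h1 : J * (J ⊔ A) = J * 1 := by
      rw [mul_one]
      apply le_antisymm Ideal.mul_le_left
      rw [Ideal.mul_sup, ← hA, ← pow_two]
      conv_lhs => rw [← hy]
      exact sup_le_sup_right hIJ2 _
    have := mul_left_cancel₀ hJ0 h1
    rw [this, Ideal.one_eq_top]
  have hcop2 : A ⊔ I = ⊤ := by
    have h1 : A ⊔ J ^ (n + 1) = ⊤ := by
      apply Ideal.sup_pow_eq_top
      rw [sup_comm]; exact hcop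
    rw [eq_top_iff, ← h1]
    exact sup_le_sup_left hn1 _
  obtain ⟨N, hN, hNA⟩ := exists_int_mem K p hp A hcop2
  have hmem : (N : 𝓞 K) * p ∈ J * Ideal.span {y} := by
    rw [hA, ← mul_assoc, ← pow_two, mul_comm]
    exact Ideal.mul_mem_mul hNA (hIJ2 (Ideal.mem_span_singleton_self _))
  rw [Ideal.mem_mul_span_singleton] at hmem
  obtain ⟨u, huJ, hu⟩ := hmem
  refine ⟨y, u, N, n + 1, Nat.le_add_left 1 n, hN, ?_, ?_, ?_⟩
  · rw [mul_comm]; exact hu
  · rw [← Ideal.mem_span_singleton]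
    exact hn1 (Ideal.pow_mem_pow (hyJ (Ideal.mem_span_singleton_self _)) _)
  · rw [← Ideal.mem_span_singleton]
    exact hn1 (Ideal.pow_mem_pow huJ _)

/-- a prime of a number field above `p` which is not unramified contains `p` to the second power -/
lemma mem_sq_of_not_unramified (K : Type) [Field K] [NumberField K] (p : ℕ) (hp : p.Prime)
    (P : Ideal (𝓞 K)) (hP : P.IsPrime) (hpP : (p : 𝓞 K) ∈ P)
    (h : ¬ Algebra.IsUnramifiedAt ℤ P) : (p : 𝓞 K) ∈ P ^ 2 := by
  have hpr : Prime (p : ℤ) := Nat.prime_iff_prime_int.1 hp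
  have hPp : (Ideal.span {(p : ℤ)}).IsPrime := (Ideal.span_singleton_prime hpr.ne_zero).2 hpr
  have hlo : P.LiesOver (Ideal.span {(p : ℤ)}) :=
    (Ideal.liesOver_span_iff hP.ne_top hpr).mpr (by simpa using hpP)
  by_contra hcon
  apply h
  rw [← Ideal.ramificationIdx_eq_one_iff, ← Ideal.ramificationIdx'_eq_ramificationIdx
    (Ideal.span {(p : ℤ)}) P]
  · have hmap : Ideal.map (algebraMap ℤ (𝓞 K)) (Ideal.span {(p : ℤ)}) = Ideal.span {(p : 𝓞 K)} := by
      rw [Ideal.map_span]; simp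
    by_contra h1
    rw [← ne_eq, Ideal.ramificationIdx'_ne_one_iff, hmap, Ideal.span_singleton_le_iff_mem] at h1
    · exact hcon h1
    · rw [hmap, Ideal.span_singleton_le_iff_mem]; exact hpP
  · rw [Ne, Ideal.span_singleton_eq_bot]
    exact hpr.ne_zero

end Pool.Agent.H323R2
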