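import Mathlib

/-! Counting pairs at geometric distances: among `n` points at most `2 n log₂ n` pairs. -/

namespace Pool.Agent.H323R2.Ball

open Finset

/-- number of points in a ball -/
def cc (Y : Finset ℤ) (D : ℕ → ℤ) (k : ℕ) (x : ℤ) : ℕ :=
  (Y.filter (fun z => 4 * |z - x| ≤ D k)).card

theorem doubling_count {Y : Finset ℤ} {D : ℕ → ℤ} (hD0 : ∀ k, 0 < D k)
    (hD : ∀ k, 6 * D k ≤ D (k + 1)) {x : ℤ} (hx : x ∈ Y) (K : ℕ) :
    2 ^ ((Finset.range K).filter (fun k => 2 * cc Y D k x ≤ cc Y D (k + 1) x)).card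
      ≤ cc Y D K x := by
  induction K with
  | zero =>
    simp only [Finset.range_zero, Finset.filter_empty, Finset.card_empty, pow_zero]
    unfold cc
    rw [Nat.one_le_iff_ne_zero, Finset.card_ne_zero]
    exact ⟨x, Finset.mem_filter.2 ⟨hx, by simpa using (hD0 0).le⟩⟩
  | succ K ih =>
    rw [Finset.range_add_one, Finset.filter_insert]
    split_ifs with h
    · rw [Finset.card_insert_of_notMem (by simp), pow_succ]
      calc 2 ^ _ * 2 ≤ cc Y D K x * 2 := Nat.mul_le_mul_right _ ih
        _ = 2 * cc Y D K x := mul_comm _ _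
        _ ≤ _ := h
    · refine ih.trans ?_
      unfold cc
      refine Finset.card_le_card ?_
      intro z hz
      rw [Finset.mem_filter] at hz ⊢
      refine ⟨hz.1, hz.2.trans ?_⟩
      have h1 := hD K
      have h2 := hD0 K
      linarith

theorem edge_doubling {Y : Finset ℤ} {D : ℕ → ℤ} (hD0 : ∀ k, 0 < D k)
    (hD : ∀ k, 6 * D k ≤ D (k + 1)) {k : ℕ} {y y' e : ℤ} (he : 20 * e ≤ D k)
    (h : |y' - y - D k| ≤ e) :
    cc Y D k y + cc Y D k y' ≤ cc Y D (k + 1) y ∧ cc Y D k y + cc Y D k y' ≤ cc Y D (k + 1) y' := by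
  have h0 := hD0 k
  have h1 := hD k
  rw [abs_le] at h
  have hdis : Disjoint (Y.filter (fun z => 4 * |z - y| ≤ D k))
      (Y.filter (fun z => 4 * |z - y'| ≤ D k)) := by
    rw [Finset.disjoint_left]
    intro z hz hz'
    rw [Finset.mem_filter] at hz hz'
    have a1 := hz.2
    have a2 := hz'.2
    have a3 := le_abs_self (z - y)
    have a4 := neg_abs_le (z - y')
    linarith
  have hun : cc Y D k y + cc Y D k y'
      = (Y.filter (fun z => 4 * |z - y| ≤ D k) ∪ Y.filter (fun z => 4 * |z - y'| ≤ D k)).card := by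
    rw [Finset.card_union_of_disjoint hdis]; rfl
  rw [hun]
  unfold cc
  constructor
  · refine Finset.card_le_card ?_
    intro z hz
    rw [Finset.mem_union, Finset.mem_filter, Finset.mem_filter] at hz
    rw [Finset.mem_filter]
    rcases hz with ⟨hz, hz2⟩ | ⟨hz, hz2⟩
    · exact ⟨hz, by linarith⟩
    · refine ⟨hz, ?_⟩
      have a1 : |z - y| ≤ |z - y'| + |y' - y| := abs_sub_le _ _ _
      have a2 : |y' - y| ≤ D k + e := by rw [abs_le]; constructor <;> linarith
      linarith
  · refine Finset.card_le_card ?_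
    intro z hz
    rw [Finset.mem_union, Finset.mem_filter, Finset.mem_filter] at hz
    rw [Finset.mem_filter]
    rcases hz with ⟨hz, hz2⟩ | ⟨hz, hz2⟩
    · refine ⟨hz, ?_⟩
      have a1 : |z - y'| ≤ |z - y| + |y - y'| := abs_sub_le _ _ _
      have a2 : |y - y'| ≤ D k + e := by rw [abs_le]; constructor <;> linarith
      linarith
    · exact ⟨hz, by linarith⟩

theorem ball_count (Y : Finset ℤ) (Yk : ℕ → Finset ℤ) (hY : ∀ k, Yk k ⊆ Y) (K : ℕ)
    (D E : ℕ → ℤ) (hD0 : ∀ k, 0 < D k) (hD : ∀ k, 6 * D k ≤ D (k + 1))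
    (hE : ∀ k, 0 ≤ E k ∧ 20 * E k ≤ D k)
    (hsep : ∀ k, ∀ y ∈ Yk k, ∀ z ∈ Yk k, y < z → 2 * E k < z - y) :
    ∑ k ∈ Finset.range K,
      (((Yk k) ×ˢ (Yk k)).filter (fun p => |p.2 - p.1 - D k| ≤ E k)).card
      ≤ 2 * Y.card * Nat.log 2 Y.card := by
  classical
  have hstep : ∀ k, (((Yk k) ×ˢ (Yk k)).filter (fun p => |p.2 - p.1 - D k| ≤ E k)).card
      ≤ 2 * (Y.filter (fun x => 2 * cc Y D k x ≤ cc Y D (k + 1) x)).card := by
    intro k
    set T := Y.filter (fun x => 2 * cc Y D k x ≤ cc Y D (k + 1) x) with hT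
    have h2 : 2 * T.card = (T ×ˢ (Finset.univ : Finset Bool)).card := by
      rw [Finset.card_product]; simp [mul_comm]
    rw [h2]
    refine Finset.card_le_card_of_injOn
      (fun p => if cc Y D k p.1 ≤ cc Y D k p.2 then (p.1, true) else (p.2, false)) ?_ ?_
    · intro p hp
      rw [Finset.mem_coe, Finset.mem_filter, Finset.mem_product] at hp
      obtain ⟨⟨h1, h3⟩, h4⟩ := hp
      obtain ⟨h5, h6⟩ := edge_doubling (Y := Y) hD0 hD (hE k).2 h4
      rw [Finset.mem_coe, Finset.mem_product]
      simp only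
      split_ifs with hc
      · refine ⟨Finset.mem_filter.2 ⟨hY k h1, ?_⟩, Finset.mem_univ _⟩
        simp only
        omega
      · refine ⟨Finset.mem_filter.2 ⟨hY k h3, ?_⟩, Finset.mem_univ _⟩
        simp only
        omega
    · intro p hp q hq hpq
      rw [Finset.mem_coe, Finset.mem_filter, Finset.mem_product] at hp hq
      obtain ⟨⟨h1, h3⟩, h4⟩ := hp
      obtain ⟨⟨g1, g3⟩, g4⟩ := hq
      rw [abs_le] at h4 g4
      simp only at hpq
      split_ifs at hpq with c1 c2 c2
      · rw [Prod.mk.injEq] at hpq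
        have e1 := hpq.1
        have e2 : p.2 = q.2 := by
          rcases lt_trichotomy p.2 q.2 with h | h | h
          · have := hsep k _ h3 _ g3 h
            rw [e1] at h4
            linarith
          · exact h
          · have := hsep k _ g3 _ h3 h
            rw [e1] at h4
            linarith
        exact Prod.ext e1 e2
      · rw [Prod.mk.injEq] at hpq
        exact absurd hpq.2 (by decide)
      · rw [Prod.mk.injEq] at hpq
        exact absurd hpq.2 (by decide)
      · rw [Prod.mk.injEq] at hpq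
        have e1 := hpq.1
        have e2 : p.1 = q.1 := by
          rcases lt_trichotomy p.1 q.1 with h | h | h
          · have := hsep k _ h1 _ g1 h
            rw [e1] at h4
            linarith
          · exact h
          · have := hsep k _ g1 _ h1 h
            rw [e1] at h4
            linarith
        exact Prod.ext e2 e1
  calc ∑ k ∈ Finset.range K,
      (((Yk k) ×ˢ (Yk k)).filter (fun p => |p.2 - p.1 - D k| ≤ E k)).card
      ≤ ∑ k ∈ Finset.range K, 2 * (Y.filter (fun x => 2 * cc Y D k x ≤ cc Y D (k + 1) x)).card :=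
        Finset.sum_le_sum (fun k _ => hstep k)
    _ = 2 * ∑ k ∈ Finset.range K, (Y.filter (fun x => 2 * cc Y D k x ≤ cc Y D (k + 1) x)).card := by
        rw [Finset.mul_sum]
    _ = 2 * ∑ x ∈ Y, ((Finset.range K).filter
          (fun k => 2 * cc Y D k x ≤ cc Y D (k + 1) x)).card := by
        congr 1
        simp only [Finset.card_filter]
        rw [Finset.sum_comm]
    _ ≤ 2 * ∑ x ∈ Y, Nat.log 2 Y.card := by
        refine Nat.mul_le_mul_left _ (Finset.sum_le_sum (fun x hx => ?_))
        refine Nat.le_log_of_pow_le (by norm_num) ?_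
        refine (doubling_count hD0 hD hx K).trans ?_
        unfold cc
        exact Finset.card_filter_le _ _
    _ = 2 * Y.card * Nat.log 2 Y.card := by
        rw [Finset.sum_const, smul_eq_mul]; ring

end Pool.Agent.H323R2.Ball
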