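import Pool.Agent.H323R2.Gen7
import Pool.Agent.H393R2.DC.Main

/-!
Asymptotic lower bound for the number of nonzero increments, general algebraic integers.
-/

set_option autoImplicit false

namespace Pool.Agent.H323R2.Gen

open Finset Filter Topology
open Pool.Agent.H393R2.DC (S Pol dlt V Dn)

lemma ev_conditions (κ c0 : ℝ) (hκ : 0 < κ) (hc0 : 0 < c0) (A B : ℝ) : ∃ X : ℝ, ∀ x : ℝ, X ≤ x →
    x ^ 3 ≤ Real.exp (x / κ) ∧ A * (1 + x ^ 2) ≤ x ^ 3 ∧ 1 ≤ Real.log x ∧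
      B ≤ x / (c0 * Real.log x) ∧ 10 ≤ Real.exp (x / κ) ∧ 1 ≤ x := by
  have h1 : ∀ᶠ x : ℝ in atTop, x ^ 3 ≤ Real.exp (x / κ) := by
    have h := Real.tendsto_pow_mul_exp_neg_atTop_nhds_zero 3
    have h2 : Tendsto (fun x : ℝ => x / κ) atTop atTop := tendsto_id.atTop_div_const hκ
    have h3 := h.comp h2
    have h4 := h3.eventually_le_const (show (0 : ℝ) < 1 / κ ^ 3 by positivity)
    filter_upwards [h4] with x hx
    simp only [Function.comp] at hx
    have he : 0 < Real.exp (x / κ) := Real.exp_pos _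
    rw [Real.exp_neg, ← div_eq_mul_inv, div_le_iff₀ he] at hx
    have : x ^ 3 = κ ^ 3 * (x / κ) ^ 3 := by field_simp
    rw [this]
    calc κ ^ 3 * (x / κ) ^ 3 ≤ κ ^ 3 * (1 / κ ^ 3 * Real.exp (x / κ)) :=
          mul_le_mul_of_nonneg_left hx (by positivity)
      _ = Real.exp (x / κ) := by field_simp
  have h2 : ∀ᶠ x : ℝ in atTop, A * (1 + x ^ 2) ≤ x ^ 3 := by
    filter_upwards [eventually_ge_atTop (1 : ℝ), eventually_ge_atTop (2 * |A|)] with x hx1 hx2
    have hA := le_abs_self A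
    have h3 : A * (1 + x ^ 2) ≤ |A| * (1 + x ^ 2) := mul_le_mul_of_nonneg_right hA (by positivity)
    have h4 : 1 + x ^ 2 ≤ 2 * x ^ 2 := by nlinarith
    have h5 : |A| * (1 + x ^ 2) ≤ |A| * (2 * x ^ 2) := mul_le_mul_of_nonneg_left h4 (abs_nonneg _)
    have h6 : |A| * (2 * x ^ 2) ≤ x * x ^ 2 := by nlinarith [sq_nonneg x]
    calc A * (1 + x ^ 2) ≤ x * x ^ 2 := by linarith
      _ = x ^ 3 := by ring
  have h3 : ∀ᶠ x : ℝ in atTop, 1 ≤ Real.log x := Real.tendsto_log_atTop.eventually_ge_atTop 1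
  have h4 : ∀ᶠ x : ℝ in atTop, B ≤ x / (c0 * Real.log x) := by
    have h1 : Tendsto (fun x : ℝ => Real.log x / x) atTop (𝓝 0) :=
      Real.isLittleO_log_id_atTop.tendsto_div_nhds_zero
    have h5 := h1.eventually_le_const (show (0 : ℝ) < 1 / (c0 * (|B| + 1)) by positivity)
    filter_upwards [h5, eventually_gt_atTop (1 : ℝ), h3] with x hx hx1 hx3
    have hx0 : 0 < x := by linarith
    rw [div_le_div_iff₀ hx0 (by positivity)] at hx
    rw [le_div_iff₀ (by positivity)]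
    have hB := le_abs_self B
    have hl : 0 ≤ c0 * Real.log x := by positivity
    nlinarith
  have h5 : ∀ᶠ x : ℝ in atTop, 10 ≤ Real.exp (x / κ) := by
    have h2 : Tendsto (fun x : ℝ => x / κ) atTop atTop := tendsto_id.atTop_div_const hκ
    exact (Real.tendsto_exp_atTop.comp h2).eventually_ge_atTop 10
  have h6 : ∀ᶠ x : ℝ in atTop, (1 : ℝ) ≤ x := eventually_ge_atTop 1
  obtain ⟨X, hX⟩ := eventually_atTop.1 (h1.and (h2.and (h3.and (h4.and (h5.and h6)))))
  exact ⟨X, fun x hx => hX x hx⟩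

open Classical in
/-- the primes used -/
noncomputable def NR (f : Polynomial ℤ) (b Q : ℕ) : Finset ℕ :=
  (range (Q + 1)).filter (fun q => q.Prime ∧ (b : ZMod q) ≠ 0 ∧
    ∀ a : ZMod q, (f.map (Int.castRingHom (ZMod q))).eval a ≠ 0)

/-- size conditions -/
lemma sizes (d : ℕ) (y : ℝ) (hy : 10 ≤ y) (N K Q Z e : ℕ) (he : (e : ℝ) ≤ y)
    (hQK : (Q : ℝ) ^ K ≤ y) (hN : (N : ℝ) = y ^ (40 * (d + 1))) (hZ1 : (Z : ℝ) ≤ y ^ 10)
    (hZ2 : y ^ 10 < Z + 1) :
    (e + (d + 1) * (2 + 2 * (Z + e)) ^ (d + 1) + 1) * Q ^ K ≤ N + 1 ∧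
      2 * (e * Q ^ K + 1) * Q ^ K ≤ Z := by
  have hy1 : 1 ≤ y := by linarith
  have hy0 : 0 ≤ y := by linarith
  constructor
  · have h1 : ((d : ℝ) + 1) ≤ y ^ (d + 1) := by
      have h2 : ((d + 1 : ℕ) : ℝ) ≤ 2 ^ (d + 1) := by
        have : d + 1 ≤ 2 ^ (d + 1) := Nat.lt_two_pow_self.le
        exact_mod_cast this
      push_cast at h2
      exact h2.trans (pow_le_pow_left₀ (by norm_num) (by linarith) _)
    have h2 : (2 : ℝ) + 2 * (Z + e) ≤ y ^ 11 := by
      have h3 : y ≤ y ^ 10 := by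
        calc y = y ^ 1 := (pow_one y).symm
          _ ≤ y ^ 10 := pow_le_pow_right₀ hy1 (by norm_num)
      have h4 : (1 : ℝ) ≤ y ^ 10 := one_le_pow₀ hy1
      calc (2 : ℝ) + 2 * (Z + e) ≤ 10 * y ^ 10 := by linarith
        _ ≤ y * y ^ 10 := mul_le_mul_of_nonneg_right hy (by positivity)
        _ = y ^ 11 := by ring
    have h3 : ((d : ℝ) + 1) * (2 + 2 * (Z + e)) ^ (d + 1) ≤ y ^ (12 * (d + 1)) := by
      calc ((d : ℝ) + 1) * (2 + 2 * (Z + e)) ^ (d + 1) ≤ y ^ (d + 1) * (y ^ 11) ^ (d + 1) := by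
            gcongr
        _ = y ^ (12 * (d + 1)) := by rw [← pow_mul, ← pow_add]; congr 1; ring
    have h4 : y ≤ y ^ (12 * (d + 1)) := by
      calc y = y ^ 1 := (pow_one y).symm
        _ ≤ _ := pow_le_pow_right₀ hy1 (by omega)
    have h5 : (1 : ℝ) ≤ y ^ (12 * (d + 1)) := one_le_pow₀ hy1
    have h6 : ((e : ℝ) + (d + 1) * (2 + 2 * (Z + e)) ^ (d + 1) + 1) * (Q : ℝ) ^ K ≤ N + 1 := by
      calc ((e : ℝ) + (d + 1) * (2 + 2 * (Z + e)) ^ (d + 1) + 1) * (Q : ℝ) ^ K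
          ≤ (3 * y ^ (12 * (d + 1))) * y := by
            apply mul_le_mul _ hQK (by positivity) (by positivity)
            linarith
        _ ≤ (y * y ^ (12 * (d + 1))) * y := by
            apply mul_le_mul_of_nonneg_right _ hy0
            exact mul_le_mul_of_nonneg_right (by linarith) (by positivity)
        _ = y ^ (12 * (d + 1) + 2) := by rw [pow_add]; ring
        _ ≤ y ^ (40 * (d + 1)) := pow_le_pow_right₀ hy1 (by omega)
        _ ≤ N + 1 := by rw [hN]; linarith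
    exact_mod_cast h6
  · have h1 : (2 : ℝ) * (e * (Q : ℝ) ^ K + 1) * (Q : ℝ) ^ K ≤ 2 * (y * y + 1) * y := by
      gcongr
    have h2 : 2 * (y * y + 1) * y + 1 ≤ y ^ 10 := by
      have h3 : y ^ 10 = y ^ 6 * y ^ 4 := by ring
      have h4 : y ^ 4 = y * y * (y * y) := by ring
      have h5 : 1 ≤ y * y := by nlinarith
      have h6 : 10 ≤ y ^ 6 := by
        calc (10 : ℝ) ≤ y := hy
          _ = y ^ 1 := (pow_one y).symm
          _ ≤ y ^ 6 := pow_le_pow_right₀ hy1 (by norm_num)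
      have h7 : y * y * y ≤ y ^ 4 := by
        calc y * y * y = y ^ 3 := by ring
          _ ≤ y ^ 4 := pow_le_pow_right₀ hy1 (by norm_num)
      have h8 : y ≤ y ^ 4 := by
        calc y = y ^ 1 := (pow_one y).symm
          _ ≤ y ^ 4 := pow_le_pow_right₀ hy1 (by norm_num)
      have h9 : 1 ≤ y ^ 4 := one_le_pow₀ hy1
      rw [h3]
      nlinarith
    have h3 : (2 : ℝ) * (e * (Q : ℝ) ^ K + 1) * (Q : ℝ) ^ K < Z := by linarith
    have h4 : 2 * (e * Q ^ K + 1) * Q ^ K < Z := by exact_mod_cast h3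
    exact h4.le

open Polynomial in
theorem main_gen (f : ℤ[X]) (hf : f.Monic) (d : ℕ) (hd : f.natDegree = d) (hd2 : 2 ≤ d)
    (b : ℕ) (hb : 2 ≤ b) (t C0 : ℝ) (ht : (f.map (Int.castRingHom ℝ)).eval t = 0)
    (U : ℕ → ℤ) (hU : ∀ K, |(U K : ℝ) - (b : ℝ) ^ K * t| ≤ C0)
    (hsup : ∃ c : ℝ, 0 < c ∧ ∃ Q0 : ℕ, ∀ Q : ℕ, Q0 ≤ Q →
      c * Q / Real.log Q ≤ ((NR f b Q).card : ℝ)) :
    ∃ c : ℝ, 0 < c ∧ ∃ N0 : ℕ, ∀ N : ℕ, N0 ≤ N →
      c * (Real.log N) ^ 2 / (Real.log (Real.log N)) ^ 3 ≤ ((Dn b U N).card : ℝ) := by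
  classical
  obtain ⟨C, hC1, hC⟩ := badG_card f hf d hd (by omega) b hb t C0 ht U hU
  obtain ⟨c1, hc1, Q0, hQ0⟩ := hsup
  have hC0 : 0 ≤ C0 := (abs_nonneg _).trans (hU 0)
  have hb0 : (0 : ℝ) ≤ b := Nat.cast_nonneg _
  have hdR : (2 : ℝ) ≤ d := by exact_mod_cast hd2
  set C2 : ℝ := 1 + |(U 0 : ℝ)| + (1 + b) * C0 with hC2
  have hC21 : 1 ≤ C2 := by
    have : 0 ≤ (1 + (b : ℝ)) * C0 := by positivity
    have := abs_nonneg (U 0 : ℝ)
    linarith
  set κ : ℝ := 40 * ((d : ℝ) + 1) with hκ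
  have hκ0 : 0 < κ := by positivity
  set c0 : ℝ := 3 * d * κ with hc0
  have hc00 : 0 < c0 := by positivity
  obtain ⟨X, hX⟩ := ev_conditions κ c0 hκ0 hc00 (C * C2) (Q0 + 3)
  obtain ⟨N1, hN1⟩ := eventually_atTop.1
    ((Real.tendsto_log_atTop.comp (tendsto_natCast_atTop_atTop (R := ℝ))).eventually_ge_atTop X)
  set c2 : ℝ := min (c1 / (2 * c0)) (1 / (2 * d * κ)) with hc2
  have hc20 : 0 < c2 := lt_min (by positivity) (by positivity)
  refine ⟨min 1 (c2 / (4 * d * κ)), lt_min one_pos (by positivity), max N1 1, fun N hN => ?_⟩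
  have hNX : X ≤ Real.log N := hN1 N (le_trans (le_max_left _ _) hN)
  have hNpos : 1 ≤ N := le_trans (le_max_right _ _) hN
  obtain ⟨e1, e2, e3, e4, e5, e6⟩ := hX _ hNX
  set x : ℝ := Real.log N with hx
  set lam : ℝ := Real.log x with hlam
  set y : ℝ := Real.exp (x / κ) with hy
  set m : ℕ := (Dn b U N).card with hm
  have hx0 : 0 < x := by linarith
  have hlam0 : 0 < lam := by linarith
  have hexp : Real.exp lam = x := Real.exp_log hx0
  have hlam3 : 1 ≤ lam ^ 3 := one_le_pow₀ e3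
  by_cases hcase : x ^ 2 ≤ (m : ℝ)
  · rw [div_le_iff₀ (by positivity)]
    calc min 1 (c2 / (4 * d * κ)) * x ^ 2 ≤ 1 * x ^ 2 :=
          mul_le_mul_of_nonneg_right (min_le_left _ _) (by positivity)
      _ ≤ (m : ℝ) := by linarith
      _ ≤ (m : ℝ) * lam ^ 3 := le_mul_of_one_le_right (Nat.cast_nonneg _) hlam3
  push Not at hcase
  set Q : ℕ := ⌊x / (c0 * lam)⌋₊ with hQ
  set K : ℕ := ⌊x / (κ * lam)⌋₊ with hK
  set Z : ℕ := ⌊y ^ 10⌋₊ with hZ
  set e : ℕ := ⌊y⌋₊ with he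
  set L : ℕ := (K + 1) / d with hL
  have hQle : (Q : ℝ) ≤ x / (c0 * lam) := Nat.floor_le (by positivity)
  have hQgt : x / (c0 * lam) < Q + 1 := Nat.lt_floor_add_one _
  have hKle : (K : ℝ) ≤ x / (κ * lam) := Nat.floor_le (by positivity)
  have hKgt : x / (κ * lam) < K + 1 := Nat.lt_floor_add_one _
  have hQQ0 : Q0 + 3 ≤ Q := by
    rw [hQ]
    apply Nat.le_floor
    push_cast
    exact e4
  have hκ1 : 1 ≤ κ := by rw [hκ]; linarith
  have hc01 : 1 ≤ c0 := by
    rw [hc0]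
    nlinarith
  have hQx : (Q : ℝ) ≤ x := by
    refine hQle.trans ?_
    apply div_le_self hx0.le
    nlinarith
  have hQ1 : (1 : ℝ) ≤ Q := by exact_mod_cast (by omega : 1 ≤ Q)
  have hey : (e : ℝ) ≤ y := Nat.floor_le (by linarith)
  -- bound for the exceptional sets
  have hbase : C * (1 + (V b U N : ℝ)) ≤ x ^ 3 := by
    have h1 := Pool.Agent.H393R2.DC.V_le_Dn b t C0 U hU N
    have h2 : 1 + ((Dn b U N).card : ℝ) ≤ 1 + x ^ 2 := by
      have := hcase.le
      linarith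
    calc C * (1 + (V b U N : ℝ)) ≤ C * (C2 * (1 + ((Dn b U N).card : ℝ))) :=
          mul_le_mul_of_nonneg_left h1 (by linarith)
      _ ≤ C * (C2 * (1 + x ^ 2)) := by gcongr
      _ = C * C2 * (1 + x ^ 2) := by ring
      _ ≤ x ^ 3 := e2
  have hVnn : 0 ≤ C * (1 + (V b U N : ℝ)) := by
    have : (0 : ℝ) ≤ (V b U N : ℝ) := by exact_mod_cast Pool.Agent.H393R2.DC.V_nonneg b U N
    have : 0 ≤ C := by linarith
    positivity
  have hx31 : 1 ≤ x ^ 3 := one_le_pow₀ e6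
  have hpowQ : (x ^ 3) ^ (d * Q) ≤ y := by
    have h1 : (x ^ 3) ^ (d * Q) = Real.exp (lam * ((3 * (d * Q) : ℕ) : ℝ)) := by
      rw [← pow_mul, ← hexp, ← Real.exp_nat_mul]
      congr 1
      ring
    rw [h1, hy]
    apply Real.exp_le_exp.2
    push_cast
    have h2 : lam * (3 * (d * (Q : ℝ))) ≤ lam * (3 * (d * (x / (c0 * lam)))) := by gcongr
    have h3 : lam * (3 * (d * (x / (c0 * lam)))) = x / κ := by
      rw [hc0]
      field_simp
    linarith
  have hpowK : (Q : ℝ) ^ K ≤ y := by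
    calc (Q : ℝ) ^ K ≤ x ^ K := by gcongr
      _ = Real.exp (lam * (K : ℝ)) := by
          rw [← hexp, ← Real.exp_nat_mul]; congr 1; ring
      _ ≤ y := by
          rw [hy]
          apply Real.exp_le_exp.2
          have h2 : lam * (K : ℝ) ≤ lam * (x / (κ * lam)) := by gcongr
          have h3 : lam * (x / (κ * lam)) = x / κ := by field_simp
          linarith
  have hcardbad : ∀ q : ℕ, q ≤ Q → 1 ≤ q → (badG f d b (Pol b U N) q N).card ≤ e := by
    intro q hqQ hq1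
    rw [he]
    apply Nat.le_floor
    calc ((badG f d b (Pol b U N) q N).card : ℝ) ≤ (C * (1 + (V b U N : ℝ))) ^ (d * q) :=
          (hC N q hq1).1
      _ ≤ (x ^ 3) ^ (d * q) := pow_le_pow_left₀ hVnn hbase _
      _ ≤ (x ^ 3) ^ (d * Q) := pow_le_pow_right₀ hx31 (Nat.mul_le_mul_left _ hqQ)
      _ ≤ y := hpowQ
  have hcardbad2 : ((range (N + 1)).filter (fun R => S b (f.comp (Pol b U N)) R ≠ 0)).card ≤ e := by
    rw [he]
    apply Nat.le_floor
    calc _ ≤ (C * (1 + (V b U N : ℝ))) ^ (d * 1) := (hC N 1 le_rfl).2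
      _ ≤ (x ^ 3) ^ (d * 1) := pow_le_pow_left₀ hVnn hbase _
      _ ≤ (x ^ 3) ^ (d * Q) := pow_le_pow_right₀ hx31 (Nat.mul_le_mul_left _ (by omega))
      _ ≤ y := hpowQ
  -- size of N
  have hNy : (N : ℝ) = y ^ (40 * (d + 1)) := by
    rw [hy, ← Real.exp_nat_mul]
    have : ((40 * (d + 1) : ℕ) : ℝ) * (x / κ) = x := by
      push_cast
      rw [← hκ]
      field_simp
    rw [this, hx, Real.exp_log (by exact_mod_cast hNpos)]
  have hZle : (Z : ℝ) ≤ y ^ 10 := Nat.floor_le (by positivity)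
  have hZgt : y ^ 10 < Z + 1 := Nat.lt_floor_add_one _
  obtain ⟨hcond1, hcond2⟩ := sizes d y e5 N K Q Z e hey hpowK hNy hZle hZgt
  -- choose the primes
  obtain ⟨QQ, hQQsub, hQQcard⟩ := Finset.exists_subset_card_eq
    (min_le_left (NR f b Q).card L)
  have hfin := finite_bound f hf d hd hd2 b U N K Q Z e L QQ (by
      intro q hq
      have := hQQsub hq
      unfold NR at this
      rw [Finset.mem_filter, Finset.mem_range] at this
      exact ⟨this.2.1, by omega, this.2.2.1, this.2.2.2⟩)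
    (by
      intro q hq
      have := hQQsub hq
      unfold NR at this
      rw [Finset.mem_filter, Finset.mem_range] at this
      exact hcardbad q (by omega) this.2.1.one_lt.le)
    hcardbad2 (Nat.div_mul_le_self _ _) hcond1 hcond2 (by rw [hQQcard]; exact min_le_right _ _)
  rw [hQQcard] at hfin
  have hfinR : (min (NR f b Q).card L : ℕ) * (L : ℝ) ≤ 2 * (m : ℝ) := by
    exact_mod_cast hfin
  -- lower bound for the number of primes
  have hIP := hQ0 Q (by omega)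
  have hlogQ : Real.log Q ≤ lam := Real.log_le_log (by linarith) hQx
  have hlogQ0 : 0 < Real.log Q := Real.log_pos (by exact_mod_cast (by omega : 1 < Q))
  have hQbig : x / (2 * c0 * lam) ≤ Q := by
    have h1 : x / (2 * c0 * lam) = (x / (c0 * lam)) / 2 := by field_simp
    rw [h1]
    linarith
  have hLbig : x / (2 * d * κ * lam) ≤ L := by
    have h1 : K + 1 < d * (L + 1) := by
      rw [hL]; exact Nat.lt_mul_div_succ _ (by omega)
    have h2 : ((K : ℝ) + 1) ≤ d * ((L : ℝ) + 1) := by exact_mod_cast h1.le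
    have h3 : x / (κ * lam) ≤ d * ((L : ℝ) + 1) := hKgt.le.trans h2
    have h4 : (2 : ℝ) ≤ x / (d * κ * lam) := by
      have h5 : x / (d * κ * lam) = 3 * (x / (c0 * lam)) := by
        rw [hc0]; field_simp
      rw [h5]
      have : (0 : ℝ) ≤ Q0 := Nat.cast_nonneg _
      linarith
    have h6 : x / (d * κ * lam) ≤ (L : ℝ) + 1 := by
      have h7 : x / (d * κ * lam) = x / (κ * lam) / d := by field_simp
      rw [h7, div_le_iff₀ (by linarith)]
      linarith
    have h8 : x / (2 * d * κ * lam) = x / (d * κ * lam) / 2 := by field_simp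
    rw [h8]
    linarith
  have hr : c2 * x / lam ^ 2 ≤ ((min (NR f b Q).card L : ℕ) : ℝ) := by
    rw [Nat.cast_min]
    apply le_min
    · calc c2 * x / lam ^ 2 ≤ c1 / (2 * c0) * x / lam ^ 2 := by
            gcongr
            exact min_le_left _ _
        _ = c1 * (x / (2 * c0 * lam)) / lam := by field_simp
        _ ≤ c1 * Q / lam := by gcongr
        _ ≤ c1 * Q / Real.log Q := by gcongr
        _ ≤ _ := hIP
    · calc c2 * x / lam ^ 2 ≤ 1 / (2 * d * κ) * x / lam ^ 2 := by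
            gcongr
            exact min_le_right _ _
        _ ≤ 1 / (2 * d * κ) * x / lam := by
            apply div_le_div_of_nonneg_left (by positivity) hlam0
            nlinarith
        _ = x / (2 * d * κ * lam) := by field_simp
        _ ≤ (L : ℝ) := hLbig
  have hfinal : c2 * x / lam ^ 2 * (x / (2 * d * κ * lam)) ≤ 2 * (m : ℝ) := by
    refine le_trans ?_ hfinR
    apply mul_le_mul hr hLbig (by positivity) (Nat.cast_nonneg _)
  have e7 : c2 * x / lam ^ 2 * (x / (2 * d * κ * lam)) = 2 * ((c2 / (4 * d * κ)) * x ^ 2 / lam ^ 3) := by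
    field_simp; norm_num
  rw [e7] at hfinal
  calc min 1 (c2 / (4 * d * κ)) * x ^ 2 / lam ^ 3 ≤ (c2 / (4 * d * κ)) * x ^ 2 / lam ^ 3 := by
        gcongr
        exact min_le_right _ _
    _ ≤ (m : ℝ) := by linarith

end Pool.Agent.H323R2.Gen
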