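import Pool.Agent.H323R2.NT1
import Pool.Agent.H323R2.Gen8

/-!
A positive proportion of the primes has no root of an irreducible polynomial of degree at least 2.
-/

set_option autoImplicit false

namespace Pool.Agent.H323R2.NT

open Polynomial NumberField Module Filter Topology

lemma card_primes (N : ℕ) : ((Finset.range (N + 1)).filter Nat.Prime).card =
    Nat.primeCounting N := by
  rw [Nat.primeCounting, Nat.primeCounting', Nat.count_eq_card_filter_range]

lemma dens (nK nL : ℕ → ℕ) (D : ℕ) (hD1 : 1 ≤ D) (hD : ∀ p, p.Prime → nL p ≤ D)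
    (hK : Tendsto (fun N : ℕ => (∑ p ∈ (Finset.range (N + 1)).filter Nat.Prime, (nK p : ℝ)) /
      (Nat.primeCounting N : ℝ)) atTop (𝓝 1))
    (hL : Tendsto (fun N : ℕ => (∑ p ∈ (Finset.range (N + 1)).filter Nat.Prime, (nL p : ℝ)) /
      (Nat.primeCounting N : ℝ)) atTop (𝓝 1)) (m : ℕ) (hm : m ≠ 0)
    (h2 : ∀ p, p.Prime → ¬ p ∣ m → 1 ≤ nL p → 2 ≤ nK p) :
    ∀ᶠ N : ℕ in atTop, (Nat.primeCounting N : ℝ) / (2 * D) ≤
      ((((Finset.range (N + 1)).filter Nat.Prime).filter (fun p => nK p = 0)).card : ℝ) := by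
  have hDR : (1 : ℝ) ≤ D := by exact_mod_cast hD1
  have e1 := hK.eventually_le_const (show (1 : ℝ) < 1 + 1 / (8 * D) by
    have : (0 : ℝ) < 1 / (8 * D) := by positivity
    linarith)
  have e2 := hL.eventually_const_le (show (1 : ℝ) - 1 / 8 < 1 by norm_num)
  have e3 := (Pool.Agent.H484R2.primeCounting_tendsto_real).eventually_ge_atTop (8 * D * (m + 1))
  filter_upwards [e1, e2, e3] with N h1 h3 h4
  have hm0 : (0 : ℝ) ≤ m := Nat.cast_nonneg _
  have hpi : (0 : ℝ) < (Nat.primeCounting N : ℝ) := by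
    have : (0 : ℝ) < 8 * D * (m + 1) := by positivity
    linarith
  rw [div_le_iff₀ hpi] at h1
  rw [le_div_iff₀ hpi] at h3
  set T := (Finset.range (N + 1)).filter Nat.Prime with hT
  have hTc : (T.card : ℝ) = (Nat.primeCounting N : ℝ) := by rw [hT, card_primes]
  have key : ∀ p ∈ T, (1 : ℝ) - (if nK p = 0 then 1 else 0) + (nL p : ℝ) / D -
      (if p ∣ m then 1 else 0) ≤ (nK p : ℝ) := by
    intro p hp
    have hpp : p.Prime := (Finset.mem_filter.1 hp).2
    have hLD : (nL p : ℝ) / D ≤ 1 := by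
      rw [div_le_one (by linarith)]
      exact_mod_cast hD p hpp
    by_cases hpm : p ∣ m
    · simp only [hpm, if_true]
      by_cases h0 : nK p = 0
      · simp only [h0, if_true]; push_cast; linarith
      · simp only [h0, if_false]
        have : (1 : ℝ) ≤ nK p := by exact_mod_cast Nat.one_le_iff_ne_zero.2 h0
        linarith
    · simp only [hpm, if_false]
      by_cases hL0 : nL p = 0
      · rw [hL0]
        by_cases h0 : nK p = 0
        · simp only [h0, if_true]; push_cast; simp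
        · simp only [h0, if_false]
          have h9 : (1 : ℝ) ≤ nK p := by exact_mod_cast Nat.one_le_iff_ne_zero.2 h0
          rw [Nat.cast_zero, zero_div]; linarith
      · have h5 := h2 p hpp hpm (Nat.one_le_iff_ne_zero.2 hL0)
        have h0 : nK p ≠ 0 := by omega
        simp only [h0, if_false]
        have : (2 : ℝ) ≤ nK p := by exact_mod_cast h5
        linarith
  have hsum := Finset.sum_le_sum key
  rw [Finset.sum_sub_distrib, Finset.sum_add_distrib, Finset.sum_sub_distrib, Finset.sum_const,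
    nsmul_eq_mul, mul_one, hTc, ← Finset.sum_div] at hsum
  have hA : ∑ p ∈ T, (if nK p = 0 then (1 : ℝ) else 0) = ((T.filter (fun p => nK p = 0)).card : ℝ) := by
    rw [Finset.sum_boole]
  have hM : ∑ p ∈ T, (if p ∣ m then (1 : ℝ) else 0) ≤ (m : ℝ) := by
    rw [Finset.sum_boole]
    have : T.filter (fun p => p ∣ m) ⊆ Finset.Icc 1 m := by
      intro p hp
      rw [Finset.mem_filter, hT, Finset.mem_filter] at hp
      rw [Finset.mem_Icc]
      exact ⟨hp.1.2.one_lt.le, Nat.le_of_dvd (Nat.pos_of_ne_zero hm) hp.2⟩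
    have h6 := Finset.card_le_card this
    rw [Nat.card_Icc] at h6
    have h7 : (T.filter (fun p => p ∣ m)).card ≤ m := by omega
    exact_mod_cast h7
  rw [hA] at hsum
  have h8 : (1 - 1 / 8) * (Nat.primeCounting N : ℝ) / D ≤ (∑ p ∈ T, (nL p : ℝ)) / D :=
    div_le_div_of_nonneg_right h3 (by linarith)
  have h9 : (m : ℝ) ≤ (Nat.primeCounting N : ℝ) / (8 * D) := by
    rw [le_div_iff₀ (by positivity)]
    nlinarith
  have e4 : (1 + 1 / (8 * (D : ℝ))) * (Nat.primeCounting N : ℝ) =
      (Nat.primeCounting N : ℝ) + (Nat.primeCounting N : ℝ) / (8 * D) := by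
    field_simp
  have e5 : (1 - 1 / 8) * (Nat.primeCounting N : ℝ) / D = 7 * ((Nat.primeCounting N : ℝ) / (8 * D)) := by
    field_simp; ring
  have e6 : (Nat.primeCounting N : ℝ) / (2 * D) = 4 * ((Nat.primeCounting N : ℝ) / (8 * D)) := by
    field_simp; ring
  rw [e4] at h1
  rw [e5] at h8
  rw [e6]
  have h10 : 0 ≤ (Nat.primeCounting N : ℝ) / (8 * D) := by positivity
  linarith

open Pool.Agent.H323R2.Gen (NR)

theorem supply (f : ℤ[X]) (hf : f.Monic) (hirr : Irreducible f) (hd2 : 2 ≤ f.natDegree)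
    (b : ℕ) (hb : 1 ≤ b) :
    ∃ c : ℝ, 0 < c ∧ ∃ Q0 : ℕ, ∀ Q : ℕ, Q0 ≤ Q →
      c * Q / Real.log Q ≤ ((NR f b Q).card : ℝ) := by
  classical
  set fQ : ℚ[X] := f.map (algebraMap ℤ ℚ) with hfQ
  have hirrQ : Irreducible fQ := (hf.irreducible_iff_irreducible_map_fraction_map (K := ℚ)).1 hirr
  have hfQm : fQ.Monic := hf.map _
  have : Fact (Irreducible fQ) := ⟨hirrQ⟩
  -- the field `K`
  let K : Type := AdjoinRoot fQ
  have hKfin : FiniteDimensional ℚ K := (AdjoinRoot.powerBasis hirrQ.ne_zero).finite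
  have hKchar : CharZero K := charZero_of_injective_algebraMap (algebraMap ℚ K).injective
  have hKnf : NumberField K := ⟨⟩
  let θ : K := AdjoinRoot.root fQ
  have hθ : aeval θ f = 0 := by
    have h1 : aeval (AdjoinRoot.root fQ) fQ = 0 :=
      (AdjoinRoot.aeval_eq fQ).trans AdjoinRoot.mk_self
    have h2 : aeval θ (f.map (algebraMap ℤ ℚ)) = 0 := h1
    rw [aeval_map_algebraMap] at h2
    exact h2
  have hgen : ∀ x : K, ∃ g : ℚ[X], x = aeval θ g := by
    intro x
    obtain ⟨g, hg⟩ := AdjoinRoot.mk_surjective x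
    exact ⟨g, by rw [← hg]; exact (AdjoinRoot.aeval_eq g).symm⟩
  have hθint : IsIntegral ℤ θ := ⟨f, hf, by rwa [aeval_def] at hθ⟩
  let θ' : 𝓞 K := ⟨θ, hθint⟩
  -- the field `L`
  let L : Type := SplittingField fQ
  have hLfin : FiniteDimensional ℚ L := inferInstance
  have hLchar : CharZero L := charZero_of_injective_algebraMap (algebraMap ℚ L).injective
  have hLnf : NumberField L := ⟨⟩
  have hcardroots : Fintype.card (fQ.rootSet L) = fQ.natDegree :=
    Polynomial.card_rootSet_eq_natDegree hirrQ.separable (SplittingField.splits fQ)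
  have h1lt : 1 < Fintype.card (fQ.rootSet L) := by
    rw [hcardroots, hfQ, hf.natDegree_map]; omega
  obtain ⟨⟨α, hα⟩, ⟨β, hβ⟩, hαβ⟩ := Fintype.one_lt_card_iff.1 h1lt
  rw [Polynomial.mem_rootSet] at hα hβ
  have hne : α ≠ β := fun h => hαβ (Subtype.ext h)
  let i1 : K →+* L := AdjoinRoot.lift (algebraMap ℚ L) α (by rw [← aeval_def]; exact hα.2)
  let i2 : K →+* L := AdjoinRoot.lift (algebraMap ℚ L) β (by rw [← aeval_def]; exact hβ.2)
  have hi1 : i1 θ = α := AdjoinRoot.lift_root _
  have hi2 : i2 θ = β := AdjoinRoot.lift_root _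
  obtain ⟨m1, hm1, hroot⟩ := hom_of_root f hf hirr K θ hθ hgen
  obtain ⟨m2, hm2, htwo⟩ := two_homs K L i1 i2 θ' (by
    change i1 θ ≠ i2 θ
    rw [hi1, hi2]; exact hne)
  have hpitK := Pool.Agent.H484R2.pit K
  have hpitL := Pool.Agent.H484R2.pit L
  have hd := dens (fun p => Nat.card (𝓞 K →+* ZMod p)) (fun p => Nat.card (𝓞 L →+* ZMod p))
    (Module.finrank ℚ L) Module.finrank_pos (by
      intro p hp
      have := H332.PIT.hc_cast_le (K := L) hp
      exact_mod_cast this) hpitK hpitL m2 hm2 (by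
      intro p hp hpm h1
      apply htwo p hp hpm
      have : Fact p.Prime := ⟨hp⟩
      have hfin := Pool.Agent.H484R2.hom_finite L p
      rw [← Finite.card_pos_iff]
      omega)
  obtain ⟨N1, hN1⟩ := eventually_atTop.1 hd
  obtain ⟨c, hc, N2, hN2⟩ := Pool.Agent.H393R2.DC.primes_lower 1 0 (by
    exact isUnit_of_subsingleton _)
  set D : ℝ := (Module.finrank ℚ L : ℝ) with hD
  have hDpos : 0 < D := by
    rw [hD]; exact_mod_cast Module.finrank_pos (R := ℚ) (M := L)
  -- growth
  have hgrow : Tendsto (fun N : ℕ => (N : ℝ) / Real.log N) atTop atTop := by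
    have h1 : Tendsto (fun x : ℝ => Real.log x / x) atTop (𝓝 0) :=
      Real.isLittleO_log_id_atTop.tendsto_div_nhds_zero
    have h2 : Tendsto (fun x : ℝ => (Real.log x / x)⁻¹) atTop atTop := by
      apply Tendsto.inv_tendsto_nhdsGT_zero
      rw [tendsto_nhdsWithin_iff]
      refine ⟨h1, ?_⟩
      filter_upwards [eventually_gt_atTop 1] with x hx
      exact div_pos (Real.log_pos hx) (by linarith)
    have h3 := h2.comp (tendsto_natCast_atTop_atTop (R := ℝ))
    refine h3.congr fun N => ?_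
    simp [Function.comp, inv_div]
  set B : ℝ := (m1.natAbs : ℝ) + b with hB
  obtain ⟨N3, hN3⟩ := eventually_atTop.1 (hgrow.eventually_ge_atTop (B / (c / (4 * D))))
  refine ⟨c / (4 * D), by positivity, max N1 (max N2 N3), fun Q hQ => ?_⟩
  have h1 := hN1 Q (le_trans (le_max_left _ _) hQ)
  have h2 := hN2 Q (le_trans (le_trans (le_max_left _ _) (le_max_right _ _)) hQ)
  have h3 := hN3 Q (le_trans (le_trans (le_max_right _ _) (le_max_right _ _)) hQ)
  have hpc : c * Q / Real.log Q ≤ (Nat.primeCounting Q : ℝ) := by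
    refine h2.trans ?_
    rw [← card_primes]
    have : ((Finset.range (Q + 1)).filter (fun q : ℕ => q.Prime ∧ (q : ZMod 1) = 0)).card ≤
        ((Finset.range (Q + 1)).filter Nat.Prime).card := by
      apply Finset.card_le_card
      intro q hq
      rw [Finset.mem_filter] at hq ⊢
      exact ⟨hq.1, hq.2.1⟩
    exact_mod_cast this
  have hsub : ((Finset.range (Q + 1)).filter Nat.Prime).filter
      (fun p => Nat.card (𝓞 K →+* ZMod p) = 0) ⊆
      NR f b Q ∪ (Finset.Icc 1 m1.natAbs ∪ Finset.Icc 1 b) := by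
    intro p hp
    rw [Finset.mem_filter, Finset.mem_filter] at hp
    obtain ⟨⟨hpr, hpp⟩, hp0⟩ := hp
    have : Fact p.Prime := ⟨hpp⟩
    rw [Finset.mem_union, Finset.mem_union]
    by_cases hpb : (b : ZMod p) = 0
    · right; right
      rw [ZMod.natCast_eq_zero_iff] at hpb
      rw [Finset.mem_Icc]
      exact ⟨hpp.one_lt.le, Nat.le_of_dvd hb hpb⟩
    by_cases hpm : (p : ℤ) ∣ m1
    · right; left
      rw [Finset.mem_Icc]
      have h4 : p ∣ m1.natAbs := Int.natCast_dvd.1 hpm
      exact ⟨hpp.one_lt.le, Nat.le_of_dvd (Int.natAbs_pos.2 hm1) h4⟩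
    left
    unfold NR
    rw [Finset.mem_filter]
    refine ⟨hpr, hpp, hpb, fun a ha => ?_⟩
    have h5 := hroot p hpp hpm a ha
    have hfin := Pool.Agent.H484R2.hom_finite K p
    have h6 : 0 < Nat.card (𝓞 K →+* ZMod p) := Finite.card_pos_iff.2 h5
    omega
  have h4 : (((Finset.range (Q + 1)).filter Nat.Prime).filter
      (fun p => Nat.card (𝓞 K →+* ZMod p) = 0)).card ≤ (NR f b Q).card + (m1.natAbs + b) := by
    refine (Finset.card_le_card hsub).trans ((Finset.card_union_le _ _).trans ?_)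
    apply Nat.add_le_add_left
    refine (Finset.card_union_le _ _).trans ?_
    rw [Nat.card_Icc, Nat.card_Icc]
    omega
  have h5 : (((((Finset.range (Q + 1)).filter Nat.Prime).filter
      (fun p => Nat.card (𝓞 K →+* ZMod p) = 0)).card : ℕ) : ℝ) ≤ ((NR f b Q).card : ℝ) + B := by
    rw [hB]; exact_mod_cast h4
  have h6 : (Nat.primeCounting Q : ℝ) / (2 * D) ≤ ((NR f b Q).card : ℝ) + B := h1.trans h5
  rw [div_le_iff₀ (by positivity)] at h3
  have h7 : c * Q / Real.log Q / (2 * D) ≤ (Nat.primeCounting Q : ℝ) / (2 * D) :=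
    div_le_div_of_nonneg_right hpc (by positivity)
  have e1 : c * Q / Real.log Q / (2 * D) = 2 * ((Q : ℝ) / Real.log Q * (c / (4 * D))) := by
    field_simp; ring
  have e2 : c / (4 * D) * Q / Real.log Q = (Q : ℝ) / Real.log Q * (c / (4 * D)) := by
    field_simp
  rw [e1] at h7
  rw [e2]
  linarith

end Pool.Agent.H323R2.NT
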