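import Pool.Agent.H323R2.Good

/-!
Digit changes of real numbers having a polynomial image which is nilpotent modulo `p`.
-/

set_option autoImplicit false

namespace Pool.Agent.H323R2

open Polynomial Finset

lemma nilp_monic (p n : ℕ) (hn : 1 ≤ n) (t a : ℝ) (ha : IsIntegral ℤ a)
    (h : t ^ n = p * a) :
    ∃ G : ℤ[X], G.Monic ∧ 1 ≤ G.natDegree ∧ (∀ i < G.natDegree, (p : ℤ) ∣ G.coeff i) ∧
      (G.map (Int.castRingHom ℝ)).eval t = 0 := by
  obtain ⟨h0, hmon, hroot⟩ := ha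
  -- make sure that the degree is positive
  obtain ⟨h1, hmon1, hdeg1, hroot1⟩ : ∃ h1 : ℤ[X], h1.Monic ∧ 1 ≤ h1.natDegree ∧
      eval₂ (algebraMap ℤ ℝ) a h1 = 0 := by
    refine ⟨h0 * X, hmon.mul monic_X, ?_, by rw [Polynomial.eval₂_mul, hroot, zero_mul]⟩
    rw [hmon.natDegree_mul monic_X]; simp
  set G1 := scaleRoots h1 (p : ℤ) with hG1
  have hG1m : G1.Monic := (monic_scaleRoots_iff _).2 hmon1
  have hG1d : G1.natDegree = h1.natDegree := natDegree_scaleRoots _ _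
  have hG1c : ∀ i < G1.natDegree, (p : ℤ) ∣ G1.coeff i := by
    intro i hi
    rw [hG1, coeff_scaleRoots]
    apply Dvd.dvd.mul_left
    apply dvd_pow_self
    rw [hG1d] at hi
    omega
  have hG1r : eval₂ (algebraMap ℤ ℝ) (t ^ n) G1 = 0 := by
    have := scaleRoots_eval₂_mul (p := h1) (algebraMap ℤ ℝ) a (p : ℤ)
    rw [hroot1, mul_zero] at this
    rw [h, hG1]
    simpa using this
  refine ⟨expand ℤ n G1, hG1m.expand hn, ?_, ?_, ?_⟩
  · rw [natDegree_expand, hG1d]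
    exact Nat.mul_pos hdeg1 hn
  · intro i hi
    rw [natDegree_expand] at hi
    rw [coeff_expand hn]
    split_ifs with hd
    · apply hG1c
      obtain ⟨k, rfl⟩ := hd
      rw [Nat.mul_div_cancel_left _ hn]
      rw [mul_comm] at hi
      exact lt_of_mul_lt_mul_right hi (Nat.zero_le _)
    · exact dvd_zero _
  · rw [eval_map, expand_eq_comp_X_pow, eval₂_comp]
    simpa using hG1r

lemma nilp_poly (p n : ℕ) [Fact p.Prime] (hn : 1 ≤ n) (t a : ℝ) (ha : IsIntegral ℤ a)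
    (h : t ^ n = p * a) :
    ∃ (j : ℕ) (F : ℤ[X]), F.map (Int.castRingHom (ZMod p)) = C 1 * X ^ (p ^ j) ∧
      1 ≤ F.natDegree ∧ (F.map (Int.castRingHom ℝ)).eval t = 0 := by
  have hp : p.Prime := Fact.out
  obtain ⟨G, hG, hd, hc, hr⟩ := nilp_monic p n hn t a ha h
  have hle : G.natDegree ≤ p ^ G.natDegree := (Nat.lt_pow_self hp.one_lt).le
  refine ⟨G.natDegree, G * X ^ (p ^ G.natDegree - G.natDegree), ?_, ?_, ?_⟩
  · have h1 : G.map (Int.castRingHom (ZMod p)) = X ^ G.natDegree := by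
      ext i
      rw [coeff_map, coeff_X_pow]
      rcases lt_trichotomy i G.natDegree with hi | hi | hi
      · rw [if_neg hi.ne]
        have := hc i hi
        rw [← ZMod.intCast_zmod_eq_zero_iff_dvd] at this
        exact this
      · rw [if_pos hi, hi, hG.coeff_natDegree]; simp
      · rw [if_neg hi.ne', coeff_eq_zero_of_natDegree_lt hi]; simp
    rw [Polynomial.map_mul, h1, Polynomial.map_pow, Polynomial.map_X, ← pow_add,
      Nat.add_sub_cancel' hle]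
    simp
  · rw [hG.natDegree_mul (monic_X_pow _)]
    omega
  · rw [Polynomial.map_mul, eval_mul, hr, zero_mul]

lemma const_poly (p n : ℕ) [Fact p.Prime] (hn : 1 ≤ n) (t u c : ℝ) (hc : IsIntegral ℤ c)
    (h : u ^ n = p * c) (r : ℤ) (hr : ¬ (p : ℤ) ∣ r) (htu : t * u = r) :
    ∃ (α : ZMod p) (F : ℤ[X]), α ≠ 0 ∧ F.map (Int.castRingHom (ZMod p)) = C α ∧
      (F.map (Int.castRingHom ℝ)).eval t = 0 := by
  have hr0 : r ≠ 0 := fun h0 => hr (h0 ▸ dvd_zero _)
  have hrR : (r : ℝ) ≠ 0 := by exact_mod_cast hr0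
  have ht0 : t ≠ 0 := by rintro rfl; rw [zero_mul] at htu; exact hrR htu.symm
  obtain ⟨G, hG, hd, hco, hroot⟩ := nilp_monic p n hn u c hc h
  set H := G.comp (C r * X) with hH
  have hHd : H.natDegree = G.natDegree := by
    rw [hH, natDegree_comp, natDegree_C_mul_X r hr0, mul_one]
  have hHc : ∀ i, H.coeff i = G.coeff i * r ^ i := by
    intro i
    rw [hH, comp_C_mul_X_coeff]
  have hrp : ((r : ℤ) : ZMod p) ≠ 0 := by
    rw [Ne, ZMod.intCast_zmod_eq_zero_iff_dvd]; exact hr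
  refine ⟨((r : ℤ) : ZMod p) ^ G.natDegree, H.reverse, pow_ne_zero _ hrp, ?_, ?_⟩
  · ext i
    rw [coeff_map, coeff_reverse, hHd, coeff_C]
    by_cases hi0 : i = 0
    · rw [if_pos hi0, hi0, revAt_le (Nat.zero_le _), Nat.sub_zero, hHc, hG.coeff_natDegree]
      simp
    · rw [if_neg hi0]
      by_cases hi : i ≤ G.natDegree
      · rw [revAt_le hi, hHc]
        have h1 : (p : ℤ) ∣ G.coeff (G.natDegree - i) * r ^ (G.natDegree - i) :=
          Dvd.dvd.mul_right (hco _ (by omega)) _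
        rw [← ZMod.intCast_zmod_eq_zero_iff_dvd] at h1
        exact h1
      · rw [revAt_eq_self_of_lt (by omega), hHc, coeff_eq_zero_of_natDegree_lt (by omega)]
        simp
  · have hu : u = r * t⁻¹ := by field_simp; linarith
    rw [eval_map, hH]
    have h1 : eval₂ (Int.castRingHom ℝ) t⁻¹ (G.comp (C r * X)) = 0 := by
      rw [eval₂_comp, eval₂_mul, eval₂_C, eval₂_X]
      rw [eval_map, hu] at hroot
      exact hroot
    let _ : Invertible t⁻¹ := invertibleOfNonzero (inv_ne_zero ht0)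
    have h2 := (eval₂_reverse_eq_zero_iff (Int.castRingHom ℝ) t⁻¹ (G.comp (C r * X))).2 h1
    rwa [invOf_eq_inv, inv_inv] at h2

/-- the number of `k < N` for which the linear relation `q_0 a_{k+1} + … + q_m a_{k+1+m} = e` fails,
where `a_k` is the `k`-th base `b` digit of `x` after the point -/
noncomputable def cnt (b : ℕ) (x : ℝ) (m : ℕ) (q : ℕ → ℤ) (e : ℤ) (N : ℕ) : ℕ :=
  ((range N).filter (fun k : ℕ =>
    ∑ j ∈ range (m + 1), q j * (⌊x * (b : ℝ) ^ (k + 1 + j)⌋ % (b : ℤ)) ≠ e)).card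

lemma cnt_mono (b : ℕ) (x : ℝ) (m : ℕ) (q : ℕ → ℤ) (e : ℤ) {M N : ℕ} (h : M ≤ N) :
    cnt b x m q e M ≤ cnt b x m q e N := by
  unfold cnt
  apply Finset.card_le_card
  apply Finset.filter_subset_filter
  intro i hi
  rw [Finset.mem_range] at *
  omega

lemma digit_eq (b : ℕ) (hb : 2 ≤ b) (x : ℝ) (k : ℕ) :
    ⌊x * (b : ℝ) ^ (k + 1)⌋ % (b : ℤ) = ⌊x * (b : ℝ) ^ (k + 1)⌋ - b * ⌊x * (b : ℝ) ^ k⌋ := by
  have hb0 : (0 : ℝ) < b := by positivity
  have h1 : ⌊x * (b : ℝ) ^ (k + 1)⌋ / (b : ℤ) = ⌊x * (b : ℝ) ^ k⌋ := by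
    rw [← Int.floor_div_natCast (k := ℝ)]
    congr 1
    rw [pow_succ]; field_simp
  have h2 := Int.emod_add_mul_ediv ⌊x * (b : ℝ) ^ (k + 1)⌋ b
  rw [h1] at h2
  linarith

/-- from `Good` to linear relations between consecutive digits -/
theorem cnt_of_good (b : ℕ) (hb : 2 ≤ b) (x : ℝ) (m : ℕ) (q : ℕ → ℤ) (e : ℤ)
    (h : Good b ((((b : ℝ) - 1) * ∑ j ∈ range (m + 1), (q j : ℝ) * (b : ℝ) ^ j) * x)) :
    ∃ c δ : ℝ, 0 < c ∧ 0 < δ ∧ ∀ᶠ N : ℕ in Filter.atTop,
      c * (N : ℝ) ^ δ ≤ (cnt b x m q e N : ℝ) := by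
  have hb1 : (0 : ℝ) ≤ (b : ℝ) - 1 := by
    have : (2 : ℝ) ≤ b := by exact_mod_cast hb
    linarith
  have hb0 : (0 : ℤ) < b := by exact_mod_cast (by omega : 0 < b)
  have hb1' : (0 : ℤ) ≤ (b : ℤ) - 1 := by linarith
  obtain ⟨C1, hC1, m', κ, hm, hκ, h1⟩ := h (((b : ℝ) - 1) * ∑ j ∈ range (m + 1), |(q j : ℝ)| + |(e : ℝ)|)
  set f : ℕ → ℤ := fun K => ⌊x * (b : ℝ) ^ K⌋ with hf
  set U : ℕ → ℤ := fun K => ((b : ℤ) - 1) * ∑ j ∈ range (m + 1), q j * f (K + j) + e with hU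
  have happ : ∀ K, |(U K : ℝ) - (b : ℝ) ^ K * ((((b : ℝ) - 1) * ∑ j ∈ range (m + 1),
      (q j : ℝ) * (b : ℝ) ^ j) * x)| ≤
      ((b : ℝ) - 1) * ∑ j ∈ range (m + 1), |(q j : ℝ)| + |(e : ℝ)| := by
    intro K
    have e1 : (U K : ℝ) - (b : ℝ) ^ K * ((((b : ℝ) - 1) * ∑ j ∈ range (m + 1),
      (q j : ℝ) * (b : ℝ) ^ j) * x) = ((b : ℝ) - 1) * ∑ j ∈ range (m + 1),
        (q j : ℝ) * ((f (K + j) : ℝ) - x * (b : ℝ) ^ (K + j)) + e := by
      simp only [hU]
      push_cast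
      rw [show (b : ℝ) ^ K * ((((b : ℝ) - 1) * ∑ j ∈ range (m + 1), (q j : ℝ) * (b : ℝ) ^ j) * x) =
        ((b : ℝ) - 1) * ((∑ j ∈ range (m + 1), (q j : ℝ) * (b : ℝ) ^ j) * ((b : ℝ) ^ K * x)) by ring,
        Finset.sum_mul]
      rw [show (((b : ℝ) - 1) * ∑ j ∈ range (m + 1), (q j : ℝ) * (f (K + j) : ℝ) + (e : ℝ) -
        ((b : ℝ) - 1) * ∑ j ∈ range (m + 1), (q j : ℝ) * (b : ℝ) ^ j * ((b : ℝ) ^ K * x)) =
        ((b : ℝ) - 1) * (∑ j ∈ range (m + 1), (q j : ℝ) * (f (K + j) : ℝ) -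
        ∑ j ∈ range (m + 1), (q j : ℝ) * (b : ℝ) ^ j * ((b : ℝ) ^ K * x)) + e by ring,
        ← Finset.sum_sub_distrib]
      congr 2
      apply Finset.sum_congr rfl
      intro j _
      rw [pow_add]; ring
    rw [e1]
    refine (abs_add_le _ _).trans ?_
    apply add_le_add _ le_rfl
    rw [abs_mul, abs_of_nonneg hb1]
    apply mul_le_mul_of_nonneg_left _ hb1
    refine (Finset.abs_sum_le_sum_abs _ _).trans ?_
    apply Finset.sum_le_sum
    intro j _
    rw [abs_mul]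
    have a1 := Int.floor_le (x * (b : ℝ) ^ (K + j))
    have a2 := Int.lt_floor_add_one (x * (b : ℝ) ^ (K + j))
    have a3 : |(f (K + j) : ℝ) - x * (b : ℝ) ^ (K + j)| ≤ 1 := by
      simp only [hf]
      rw [abs_le]
      constructor <;> linarith
    calc |(q j : ℝ)| * |(f (K + j) : ℝ) - x * (b : ℝ) ^ (K + j)| ≤ |(q j : ℝ)| * 1 :=
          mul_le_mul_of_nonneg_left a3 (abs_nonneg _)
      _ = _ := mul_one _
  set B : ℤ := ((b : ℤ) - 1) * (∑ j ∈ range (m + 1), |q j| * b + |e|) with hB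
  have hB0 : 0 ≤ B := by
    apply mul_nonneg hb1'
    apply add_nonneg _ (abs_nonneg _)
    exact Finset.sum_nonneg fun j _ => mul_nonneg (abs_nonneg _) hb0.le
  have hV : ∀ N : ℕ, V b U N ≤ |U 0| + B * (cnt b x m q e N : ℤ) := by
    intro N
    unfold V cnt
    rw [Finset.sum_range_succ', add_comm, Finset.card_filter]
    push_cast
    rw [Finset.mul_sum]
    apply add_le_add (le_of_eq rfl)
    apply Finset.sum_le_sum
    intro k _
    have e4 : dlt b U (k + 1) = ((b : ℤ) - 1) *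
        (∑ j ∈ range (m + 1), q j * (⌊x * (b : ℝ) ^ (k + 1 + j)⌋ % (b : ℤ)) - e) := by
      have e5 : ∀ j, q j * (⌊x * (b : ℝ) ^ (k + 1 + j)⌋ % (b : ℤ)) =
          q j * f (k + 1 + j) - b * (q j * f (k + j)) := by
        intro j
        have := digit_eq b hb x (k + j)
        rw [show k + 1 + j = k + j + 1 by ring, this]
        simp only [hf]
        ring
      simp_rw [e5]
      rw [Finset.sum_sub_distrib, ← Finset.mul_sum]
      simp only [dlt, hU]
      ring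
    rw [e4]
    split_ifs with hc
    · rw [mul_one, abs_mul, abs_of_nonneg hb1', hB]
      apply mul_le_mul_of_nonneg_left _ hb1'
      refine (abs_sub _ _).trans ?_
      apply add_le_add _ le_rfl
      refine (Finset.abs_sum_le_sum_abs _ _).trans ?_
      apply Finset.sum_le_sum
      intro j _
      rw [abs_mul]
      apply mul_le_mul_of_nonneg_left _ (abs_nonneg _)
      have r1 := Int.emod_nonneg ⌊x * (b : ℝ) ^ (k + 1 + j)⌋ hb0.ne'
      have r2 := Int.emod_lt_of_pos ⌊x * (b : ℝ) ^ (k + 1 + j)⌋ hb0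
      rw [abs_of_nonneg r1]
      exact r2.le
    · rw [not_not] at hc
      rw [hc]; simp
  set u : ℝ := |(U 0 : ℝ)| with hu
  have hu0 : 0 ≤ u := abs_nonneg _
  have hBR : (0 : ℝ) ≤ B := by exact_mod_cast hB0
  obtain ⟨c, hc, hev⟩ := power_bound (cnt b x m q e) κ hκ (m' * ((C1 + 1) * (1 + u + B) ^ κ))
    (by positivity) (by
      intro N
      have h2 := h1 U happ (N / m')
      have h3 : (V b U (m' * (N / m')) : ℝ) ≤ u + B * (cnt b x m q e (m' * (N / m')) : ℝ) := by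
        have := hV (m' * (N / m'))
        have h4 : ((V b U (m' * (N / m')) : ℤ) : ℝ) ≤
            ((|U 0| + B * (cnt b x m q e (m' * (N / m')) : ℤ) : ℤ) : ℝ) := by exact_mod_cast this
        simpa [hu] using h4
      have h4 : (cnt b x m q e (m' * (N / m')) : ℝ) ≤ (cnt b x m q e N : ℝ) := by
        exact_mod_cast cnt_mono b x m q e (Nat.mul_div_le N m')
      have h5 : (N : ℝ) ≤ m' * (((N / m' : ℕ) : ℝ) + 1) := by
        have : N < m' * (N / m' + 1) := Nat.lt_mul_div_succ N (by omega)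
        exact_mod_cast this.le
      have hV0 : (0 : ℝ) ≤ (V b U (m' * (N / m')) : ℝ) := by exact_mod_cast V_nonneg b U _
      have h6 : 1 + (V b U (m' * (N / m')) : ℝ) ≤ (1 + u + B) * (1 + (cnt b x m q e N : ℝ)) := by
        have hc0 : (0 : ℝ) ≤ (cnt b x m q e N : ℝ) := by positivity
        have := mul_le_mul_of_nonneg_left h4 hBR
        nlinarith
      have h7 : (1 + (V b U (m' * (N / m')) : ℝ)) ^ κ ≤
          ((1 + u + B) * (1 + (cnt b x m q e N : ℝ))) ^ κ :=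
        pow_le_pow_left₀ (by linarith) h6 _
      have h8 : (1 : ℝ) ≤ ((1 + u + B) * (1 + (cnt b x m q e N : ℝ))) ^ κ := by
        apply one_le_pow₀
        linarith
      calc (N : ℝ) ≤ m' * (((N / m' : ℕ) : ℝ) + 1) := h5
        _ ≤ m' * (C1 * (1 + (V b U (m' * (N / m')) : ℝ)) ^ κ + 1) := by
            apply mul_le_mul_of_nonneg_left _ (by positivity)
            linarith
        _ ≤ m' * ((C1 + 1) * ((1 + u + B) * (1 + (cnt b x m q e N : ℝ))) ^ κ) := by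
            apply mul_le_mul_of_nonneg_left _ (by positivity)
            have := mul_le_mul_of_nonneg_left h7 hC1.le
            linarith
        _ = _ := by rw [mul_pow]; ring)
  refine ⟨c, (1 : ℝ) / κ, hc, ?_, hev⟩
  have : (0 : ℝ) < κ := by exact_mod_cast hκ
  positivity

/-- the chain of divisions by `p` -/
theorem good_mul (p n : ℕ) [Fact p.Prime] (hn : 1 ≤ n) (b : ℕ) (hb : 2 ≤ b)
    (hbp : (b : ZMod p) ≠ 0) (y u a c : ℝ) (N : ℤ) (hN : ¬ (p : ℤ) ∣ N)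
    (ha : IsIntegral ℤ a) (hc : IsIntegral ℤ c) (hya : y ^ n = p * a) (huc : u ^ n = p * c)
    (hyu : y * u = N * p) (W : ℤ) (hW : ¬ (p : ℤ) ∣ W) (v : ℕ) :
    Good b ((W : ℝ) * (p : ℝ) ^ v * y) := by
  have hp : p.Prime := Fact.out
  have hp0 : (p : ℝ) ≠ 0 := by exact_mod_cast hp.ne_zero
  have hpr : Prime (p : ℤ) := Nat.prime_iff_prime_int.1 hp
  -- base
  have hbase : Good b ((W : ℝ) * y / p) := by
    have hr : ¬ (p : ℤ) ∣ W * N := fun h => by
      rcases hpr.dvd_or_dvd h with h | h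
      · exact hW h
      · exact hN h
    obtain ⟨α, F, hα, hF, hroot⟩ := const_poly p n hn ((W : ℝ) * y / p) u c hc huc (W * N) hr (by
      push_cast
      field_simp
      linear_combination (W : ℝ) * hyu)
    exact good_of_const p b hb hbp F α hα hF _ hroot
  have hstep : ∀ c' : ℤ, Good b ((c' : ℝ) * y / p) → Good b ((c' : ℝ) * y) := by
    intro c' h
    obtain ⟨j, F, hF, hD, hroot⟩ := nilp_poly p n hn ((c' : ℝ) * y) ((c' : ℝ) ^ n * a)
      (IsIntegral.mul (IsIntegral.pow (isIntegral_algebraMap (R := ℤ) (x := c')) n) ha) (by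
        rw [mul_pow, hya]; ring)
    exact good_step p b hb hbp j F 1 one_ne_zero hF hD _ hroot h
  induction v with
  | zero =>
    have := hstep W hbase
    simpa using this
  | succ v ih =>
    have h1 := hstep (W * (p : ℤ) ^ (v + 1)) (by
      have e : ((W * (p : ℤ) ^ (v + 1) : ℤ) : ℝ) * y / p = (W : ℝ) * (p : ℝ) ^ v * y := by
        push_cast
        rw [pow_succ]
        field_simp
      rw [e]; exact ih)
    have e : ((W * (p : ℤ) ^ (v + 1) : ℤ) : ℝ) * y = (W : ℝ) * (p : ℝ) ^ (v + 1) * y := by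
      push_cast; ring
    rw [e] at h1
    exact h1

/-- nonzero integer multiples of `x` are good -/
theorem good_int_mul (p n : ℕ) [Fact p.Prime] (hn : 1 ≤ n) (b : ℕ) (hb : 2 ≤ b)
    (hbp : ¬ p ∣ b) (y u a c : ℝ) (N : ℤ) (hN : ¬ (p : ℤ) ∣ N)
    (ha : IsIntegral ℤ a) (hc : IsIntegral ℤ c) (hya : y ^ n = p * a) (huc : u ^ n = p * c)
    (hyu : y * u = N * p) (x : ℝ) (w : ℤ) (hw : w ≠ 0) (g : ℤ[X])
    (hg : (w : ℝ) * y = (g.map (Int.castRingHom ℝ)).eval x) (B : ℤ) (hB : B ≠ 0) :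
    Good b ((B : ℝ) * x) := by
  have hp : p.Prime := Fact.out
  have hbp' : (b : ZMod p) ≠ 0 := by rwa [Ne, ZMod.natCast_eq_zero_iff]
  set g' := scaleRoots g B with hg'
  apply good_of_poly b hb g'
  have h1 : (g'.map (Int.castRingHom ℝ)).eval ((B : ℝ) * x) =
      (B : ℝ) ^ g.natDegree * ((w : ℝ) * y) := by
    have := scaleRoots_eval₂_mul (p := g) (Int.castRingHom ℝ) x B
    rw [hg, eval_map, eval_map, hg']
    simpa using this
  rw [h1]
  -- split off the power of `p`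
  have hW0 : B ^ g.natDegree * w ≠ 0 := mul_ne_zero (pow_ne_zero _ hB) hw
  have hfin : FiniteMultiplicity (p : ℤ) (B ^ g.natDegree * w) := by
    rw [Int.finiteMultiplicity_iff]
    refine ⟨?_, hW0⟩
    simpa using hp.ne_one
  obtain ⟨W', hW', hnd⟩ := hfin.exists_eq_pow_mul_and_not_dvd
  have e : (B : ℝ) ^ g.natDegree * ((w : ℝ) * y) =
      (W' : ℝ) * (p : ℝ) ^ (multiplicity (p : ℤ) (B ^ g.natDegree * w)) * y := by
    have : (((B ^ g.natDegree * w : ℤ)) : ℝ) =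
        (((p : ℤ) ^ (multiplicity (p : ℤ) (B ^ g.natDegree * w)) * W' : ℤ) : ℝ) := by
      exact_mod_cast hW'
    push_cast at this
    rw [← mul_assoc, this]; ring
  rw [e]
  exact good_mul p n hn b hb hbp' y u a c N hN ha hc hya huc hyu W' hnd _

/-- **Main theorem.** -/
theorem cnt_main (p n : ℕ) [Fact p.Prime] (hn : 1 ≤ n) (b : ℕ) (hb : 2 ≤ b)
    (hbp : ¬ p ∣ b) (y u a c : ℝ) (N : ℤ) (hN : ¬ (p : ℤ) ∣ N)
    (ha : IsIntegral ℤ a) (hc : IsIntegral ℤ c) (hya : y ^ n = p * a) (huc : u ^ n = p * c)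
    (hyu : y * u = N * p) (x : ℝ) (w : ℤ) (hw : w ≠ 0) (g : ℤ[X])
    (hg : (w : ℝ) * y = (g.map (Int.castRingHom ℝ)).eval x)
    (m : ℕ) (q : ℕ → ℤ) (e : ℤ) (hq : ∑ j ∈ range (m + 1), q j * (b : ℤ) ^ j ≠ 0) :
    ∃ c δ : ℝ, 0 < c ∧ 0 < δ ∧ ∀ᶠ N : ℕ in Filter.atTop,
      c * (N : ℝ) ^ δ ≤ (cnt b x m q e N : ℝ) := by
  apply cnt_of_good b hb
  have hb1 : ((b : ℤ) - 1) ≠ 0 := by
    have : (2 : ℤ) ≤ b := by exact_mod_cast hb
    omega
  have := good_int_mul p n hn b hb hbp y u a c N hN ha hc hya huc hyu x w hw g hg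
    (((b : ℤ) - 1) * ∑ j ∈ range (m + 1), q j * (b : ℤ) ^ j) (mul_ne_zero hb1 hq)
  simpa using this

end Pool.Agent.H323R2
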