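import Mathlib

/-!
Frobenius trick for sparse expansions: the basic inequality.
-/

set_option autoImplicit false

namespace Pool.Agent.H323R2

open Polynomial Finset

/-- the sum of the absolute values of the coefficients of an integer polynomial -/
noncomputable def n1 (P : ℤ[X]) : ℤ := P.sum fun _ a => |a|

lemma n1_nonneg (P : ℤ[X]) : 0 ≤ n1 P := by
  unfold n1
  rw [Polynomial.sum_def]
  exact Finset.sum_nonneg fun _ _ => abs_nonneg _

lemma sum_abs_coeff_le (P : ℤ[X]) (s : Finset ℕ) : ∑ i ∈ s, |P.coeff i| ≤ n1 P := by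
  unfold n1
  rw [Polynomial.sum_def]
  calc ∑ i ∈ s, |P.coeff i| = ∑ i ∈ s ∩ P.support, |P.coeff i| := by
        symm
        apply Finset.sum_subset Finset.inter_subset_left
        intro i hi hi'
        have : i ∉ P.support := fun h => hi' (Finset.mem_inter.2 ⟨hi, h⟩)
        rw [Polynomial.notMem_support_iff.1 this]; simp
    _ ≤ ∑ i ∈ P.support, |P.coeff i| :=
        Finset.sum_le_sum_of_subset_of_nonneg Finset.inter_subset_right
          fun _ _ _ => abs_nonneg _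

lemma n1_eq_of_support_subset (P : ℤ[X]) (s : Finset ℕ) (h : P.support ⊆ s) :
    n1 P = ∑ i ∈ s, |P.coeff i| := by
  unfold n1
  rw [Polynomial.sum_def]
  apply Finset.sum_subset h
  intro i _ hi
  rw [Polynomial.notMem_support_iff.1 hi]; simp

lemma n1_add_le (P Q : ℤ[X]) : n1 (P + Q) ≤ n1 P + n1 Q := by
  have h1 := n1_eq_of_support_subset (P + Q) (P.support ∪ Q.support) Polynomial.support_add
  have h2 := n1_eq_of_support_subset P (P.support ∪ Q.support) Finset.subset_union_left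
  have h3 := n1_eq_of_support_subset Q (P.support ∪ Q.support) Finset.subset_union_right
  rw [h1, h2, h3, ← Finset.sum_add_distrib]
  apply Finset.sum_le_sum
  intro i _
  rw [Polynomial.coeff_add]
  exact abs_add_le _ _

lemma n1_sum_le {ι : Type} (s : Finset ι) (f : ι → ℤ[X]) :
    n1 (∑ i ∈ s, f i) ≤ ∑ i ∈ s, n1 (f i) := by
  classical
  induction s using Finset.induction_on with
  | empty => simp [n1]
  | insert a s ha ih =>
    rw [Finset.sum_insert ha, Finset.sum_insert ha]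
    exact (n1_add_le _ _).trans (by linarith)

lemma n1_monomial (k : ℕ) (a : ℤ) : n1 (monomial k a) = |a| := by
  unfold n1
  rw [Polynomial.sum_monomial_index]
  simp

lemma n1_mul_le (P Q : ℤ[X]) : n1 (P * Q) ≤ n1 P * n1 Q := by
  have h : P * Q = ∑ i ∈ P.support, ∑ j ∈ Q.support,
      monomial (i + j) (P.coeff i * Q.coeff j) := by
    conv_lhs => rw [P.as_sum_support, Q.as_sum_support]
    rw [Finset.sum_mul_sum]
    apply Finset.sum_congr rfl
    intro i _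
    apply Finset.sum_congr rfl
    intro j _
    rw [Polynomial.monomial_mul_monomial]
  rw [h]
  calc n1 (∑ i ∈ P.support, ∑ j ∈ Q.support, monomial (i + j) (P.coeff i * Q.coeff j))
      ≤ ∑ i ∈ P.support, n1 (∑ j ∈ Q.support, monomial (i + j) (P.coeff i * Q.coeff j)) :=
        n1_sum_le _ _
    _ ≤ ∑ i ∈ P.support, ∑ j ∈ Q.support, n1 (monomial (i + j) (P.coeff i * Q.coeff j)) :=
        Finset.sum_le_sum fun i _ => n1_sum_le _ _
    _ = ∑ i ∈ P.support, ∑ j ∈ Q.support, |P.coeff i| * |Q.coeff j| := by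
        apply Finset.sum_congr rfl
        intro i _
        apply Finset.sum_congr rfl
        intro j _
        rw [n1_monomial, abs_mul]
    _ = n1 P * n1 Q := by
        unfold n1
        rw [Polynomial.sum_def, Polynomial.sum_def, Finset.sum_mul_sum]

lemma n1_C (a : ℤ) : n1 (C a) = |a| := by
  rw [← Polynomial.monomial_zero_left, n1_monomial]

lemma n1_one : n1 (1 : ℤ[X]) = 1 := by
  rw [← Polynomial.C_1, n1_C]; simp

lemma n1_pow_le (P : ℤ[X]) (k : ℕ) : n1 (P ^ k) ≤ (1 + n1 P) ^ k := by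
  induction k with
  | zero => simp [n1_one]
  | succ k ih =>
    rw [pow_succ, pow_succ]
    have h0 := n1_nonneg P
    calc n1 (P ^ k * P) ≤ n1 (P ^ k) * n1 P := n1_mul_le _ _
      _ ≤ (1 + n1 P) ^ k * (1 + n1 P) := by
        apply mul_le_mul ih (by linarith) h0 (by positivity)

lemma n1_comp_le (F P : ℤ[X]) : n1 (F.comp P) ≤ n1 F * (1 + n1 P) ^ F.natDegree := by
  have h0 := n1_nonneg P
  have h : F.comp P = ∑ i ∈ F.support, C (F.coeff i) * P ^ i := by
    rw [Polynomial.comp, Polynomial.eval₂_eq_sum, Polynomial.sum_def]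
  rw [h]
  calc n1 (∑ i ∈ F.support, C (F.coeff i) * P ^ i)
      ≤ ∑ i ∈ F.support, n1 (C (F.coeff i) * P ^ i) := n1_sum_le _ _
    _ ≤ ∑ i ∈ F.support, |F.coeff i| * (1 + n1 P) ^ F.natDegree := by
        apply Finset.sum_le_sum
        intro i hi
        calc n1 (C (F.coeff i) * P ^ i) ≤ n1 (C (F.coeff i)) * n1 (P ^ i) := n1_mul_le _ _
          _ ≤ |F.coeff i| * (1 + n1 P) ^ F.natDegree := by
            rw [n1_C]
            apply mul_le_mul_of_nonneg_left _ (abs_nonneg _)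
            exact (n1_pow_le P i).trans
              (pow_le_pow_right₀ (by linarith) (Polynomial.le_natDegree_of_mem_supp _ hi))
    _ = n1 F * (1 + n1 P) ^ F.natDegree := by
        rw [show n1 F = ∑ i ∈ F.support, |F.coeff i| from by
          unfold n1; rw [Polynomial.sum_def], Finset.sum_mul]

/-- the integer `∑_{n ≤ R} G_n b^{R-n}` -/
noncomputable def S (b : ℕ) (G : ℤ[X]) (R : ℕ) : ℤ :=
  ∑ n ∈ range (R + 1), G.coeff n * (b : ℤ) ^ (R - n)

lemma S_succ (b : ℕ) (G : ℤ[X]) (R : ℕ) :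
    S b G (R + 1) = (b : ℤ) * S b G R + G.coeff (R + 1) := by
  unfold S
  rw [Finset.sum_range_succ, Finset.mul_sum]
  congr 1
  · apply Finset.sum_congr rfl
    intro n hn
    have : n ≤ R := Nat.lt_succ_iff.1 (Finset.mem_range.1 hn)
    rw [show R + 1 - n = (R - n) + 1 by omega, pow_succ]
    ring
  · simp

lemma S_zero (b : ℕ) (G : ℤ[X]) : S b G 0 = G.coeff 0 := by
  simp [S]

/-- `|S(M)| ≤ b^M |G(1/b)| + ∑_{n > M} |G_n|` -/
lemma abs_S_le (b : ℕ) (hb : 2 ≤ b) (G : ℤ[X]) (M : ℕ) :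
    (|S b G M| : ℝ) ≤ (b : ℝ) ^ M * |(G.map (Int.castRingHom ℝ)).eval (1 / (b : ℝ))| +
      (n1 G : ℝ) - ∑ n ∈ range (M + 1), |(G.coeff n : ℝ)| := by
  have hb0 : (0 : ℝ) < b := by positivity
  have hb1 : (1 : ℝ) ≤ b := by exact_mod_cast (by omega : 1 ≤ b)
  set n := G.natDegree + M + 2 with hn
  have hev : (G.map (Int.castRingHom ℝ)).eval (1 / (b : ℝ)) =
      ∑ i ∈ range n, (G.coeff i : ℝ) * (1 / (b : ℝ)) ^ i := by
    rw [Polynomial.eval_eq_sum_range' (n := n)]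
    · simp
    · calc (G.map (Int.castRingHom ℝ)).natDegree ≤ G.natDegree := Polynomial.natDegree_map_le
        _ < n := by omega
  have hsplit : (b : ℝ) ^ M * (G.map (Int.castRingHom ℝ)).eval (1 / (b : ℝ)) =
      (S b G M : ℝ) + ∑ i ∈ Ico (M + 1) n, (b : ℝ) ^ M * ((G.coeff i : ℝ) * (1 / (b : ℝ)) ^ i) := by
    rw [hev, Finset.mul_sum, ← Finset.sum_range_add_sum_Ico _ (show M + 1 ≤ n by omega)]
    congr 1
    unfold S
    push_cast
    apply Finset.sum_congr rfl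
    intro i hi
    have hi' : i ≤ M := Nat.lt_succ_iff.1 (Finset.mem_range.1 hi)
    have : (b : ℝ) ^ M = (b : ℝ) ^ (M - i) * (b : ℝ) ^ i := by
      rw [← pow_add]; congr 1; omega
    rw [this, one_div, inv_pow]
    have hbi : (b : ℝ) ^ i ≠ 0 := by positivity
    field_simp
  have hS : (S b G M : ℝ) = (b : ℝ) ^ M * (G.map (Int.castRingHom ℝ)).eval (1 / (b : ℝ)) -
      ∑ i ∈ Ico (M + 1) n, (b : ℝ) ^ M * ((G.coeff i : ℝ) * (1 / (b : ℝ)) ^ i) := by
    linarith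
  have htail : |∑ i ∈ Ico (M + 1) n, (b : ℝ) ^ M * ((G.coeff i : ℝ) * (1 / (b : ℝ)) ^ i)| ≤
      ∑ i ∈ Ico (M + 1) n, |(G.coeff i : ℝ)| := by
    refine (Finset.abs_sum_le_sum_abs _ _).trans ?_
    apply Finset.sum_le_sum
    intro i hi
    rw [Finset.mem_Ico] at hi
    rw [abs_mul, abs_mul, abs_of_pos (pow_pos hb0 M), abs_of_pos (show (0:ℝ) < (1 / (b : ℝ)) ^ i by positivity)]
    have h1 : (b : ℝ) ^ M * (1 / (b : ℝ)) ^ i ≤ 1 := by
      rw [one_div, inv_pow, ← div_eq_mul_inv, div_le_one (by positivity)]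
      exact pow_le_pow_right₀ hb1 (by omega)
    calc (b : ℝ) ^ M * (|(G.coeff i : ℝ)| * (1 / (b : ℝ)) ^ i)
        = |(G.coeff i : ℝ)| * ((b : ℝ) ^ M * (1 / (b : ℝ)) ^ i) := by ring
      _ ≤ |(G.coeff i : ℝ)| * 1 := mul_le_mul_of_nonneg_left h1 (abs_nonneg _)
      _ = _ := mul_one _
  have hn1 : ∑ i ∈ range (M + 1), |(G.coeff i : ℝ)| + ∑ i ∈ Ico (M + 1) n, |(G.coeff i : ℝ)| ≤
      (n1 G : ℝ) := by
    rw [Finset.sum_range_add_sum_Ico _ (show M + 1 ≤ n by omega)]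
    have := sum_abs_coeff_le G (range n)
    exact_mod_cast this
  have h3 : |(S b G M : ℝ)| ≤ (b : ℝ) ^ M * |(G.map (Int.castRingHom ℝ)).eval (1 / (b : ℝ))| +
      ∑ i ∈ Ico (M + 1) n, |(G.coeff i : ℝ)| := by
    rw [hS]
    refine (abs_sub _ _).trans ?_
    rw [abs_mul, abs_of_pos (pow_pos hb0 M)]
    linarith
  linarith

/-- the basic `ℓ¹` inequality -/
lemma sum_abs_S_le (b : ℕ) (hb : 2 ≤ b) (G : ℤ[X]) (N : ℕ) :
    (∑ R ∈ range (N + 1), (|S b G R| : ℝ)) ≤ (n1 G : ℝ) +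
      (b : ℝ) ^ (N + 1) * |(G.map (Int.castRingHom ℝ)).eval (1 / (b : ℝ))| := by
  have hb1 : (2 : ℝ) ≤ b := by exact_mod_cast hb
  have key : ∀ N : ℕ, (∑ R ∈ range (N + 1), (|S b G R| : ℝ)) ≤
      |(S b G (N + 1) : ℝ)| + ∑ n ∈ range (N + 2), |(G.coeff n : ℝ)| := by
    intro N
    have hstep : ∀ R : ℕ, 2 * |(S b G R : ℝ)| ≤ |(S b G (R + 1) : ℝ)| + |(G.coeff (R + 1) : ℝ)| := by
      intro R
      have h1 : (b : ℝ) * (S b G R : ℝ) = (S b G (R + 1) : ℝ) - (G.coeff (R + 1) : ℝ) := by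
        rw [S_succ]; push_cast; ring
      have h2 : |(b : ℝ) * (S b G R : ℝ)| = (b : ℝ) * |(S b G R : ℝ)| := by
        rw [abs_mul, abs_of_pos (by positivity)]
      have h3 : |(S b G (R + 1) : ℝ) - (G.coeff (R + 1) : ℝ)| ≤
          |(S b G (R + 1) : ℝ)| + |(G.coeff (R + 1) : ℝ)| := abs_sub _ _
      rw [← h1, h2] at h3
      have h4 : (2 : ℝ) * |(S b G R : ℝ)| ≤ (b : ℝ) * |(S b G R : ℝ)| :=
        mul_le_mul_of_nonneg_right hb1 (abs_nonneg _)
      linarith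
    have hsum : ∑ R ∈ range (N + 1), 2 * |(S b G R : ℝ)| ≤
        ∑ R ∈ range (N + 1), (|(S b G (R + 1) : ℝ)| + |(G.coeff (R + 1) : ℝ)|) :=
      Finset.sum_le_sum fun R _ => hstep R
    rw [← Finset.mul_sum, Finset.sum_add_distrib] at hsum
    have e1 : ∑ R ∈ range (N + 2), |(S b G R : ℝ)| =
        ∑ R ∈ range (N + 1), |(S b G (R + 1) : ℝ)| + |(S b G 0 : ℝ)| :=
      Finset.sum_range_succ' _ _
    have e2 : ∑ R ∈ range (N + 2), |(S b G R : ℝ)| =
        ∑ R ∈ range (N + 1), |(S b G R : ℝ)| + |(S b G (N + 1) : ℝ)| :=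
      Finset.sum_range_succ _ _
    have e3 : ∑ n ∈ range (N + 2), |(G.coeff n : ℝ)| =
        ∑ n ∈ range (N + 1), |(G.coeff (n + 1) : ℝ)| + |(G.coeff 0 : ℝ)| :=
      Finset.sum_range_succ' _ _
    have := abs_nonneg (S b G 0 : ℝ)
    have := abs_nonneg (G.coeff 0 : ℝ)
    linarith
  have h1 := key N
  have h2 := abs_S_le b hb G (N + 1)
  have e : N + 1 + 1 = N + 2 := rfl
  rw [e] at h2
  linarith

/-- Main inequality: `F` integer polynomial with root `t`, `P(1/b)` close to `t`. -/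
lemma exists_bound (b : ℕ) (hb : 2 ≤ b) (F : ℤ[X]) (t C0 : ℝ)
    (ht : (F.map (Int.castRingHom ℝ)).eval t = 0) :
    ∃ C : ℝ, 0 < C ∧ ∀ (N : ℕ) (P : ℤ[X]),
      |(P.map (Int.castRingHom ℝ)).eval (1 / (b : ℝ)) - t| ≤ C0 / (b : ℝ) ^ N →
      (∑ R ∈ range (N + 1), (|S b (F.comp P) R| : ℝ)) ≤ C * (1 + (n1 P : ℝ)) ^ F.natDegree := by
  have hb0 : (0 : ℝ) < b := by positivity
  have hb1 : (1 : ℝ) ≤ b := by exact_mod_cast (by omega : 1 ≤ b)
  set FR := F.map (Int.castRingHom ℝ) with hFR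
  have hroot : FR.IsRoot t := ht
  have hfac : (X - C t) * (FR /ₘ (X - C t)) = FR := mul_divByMonic_eq_iff_isRoot.2 hroot
  set H := FR /ₘ (X - C t) with hH
  obtain ⟨L, hL⟩ := (isCompact_Icc (a := t - |C0|) (b := t + |C0|)).exists_bound_of_continuousOn
    (f := fun u => H.eval u) H.continuous.continuousOn
  have hL0 : 0 ≤ L := (norm_nonneg _).trans (hL t ⟨by linarith [abs_nonneg C0], by linarith [abs_nonneg C0]⟩)
  refine ⟨(n1 F : ℝ) + b * L * |C0| + 1, ?_, ?_⟩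
  · have : (0 : ℝ) ≤ (n1 F : ℝ) := by exact_mod_cast n1_nonneg F
    positivity
  intro N P hP
  have h1 := sum_abs_S_le b hb (F.comp P) N
  set u := (P.map (Int.castRingHom ℝ)).eval (1 / (b : ℝ)) with hu
  have hevc : ((F.comp P).map (Int.castRingHom ℝ)).eval (1 / (b : ℝ)) = FR.eval u := by
    rw [Polynomial.map_comp, Polynomial.eval_comp]
  have hbN : (1 : ℝ) ≤ (b : ℝ) ^ N := one_le_pow₀ hb1
  have hC0 : C0 / (b : ℝ) ^ N ≤ |C0| / (b : ℝ) ^ N := by
    apply div_le_div_of_nonneg_right (le_abs_self _) (by positivity)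
  have hut : |u - t| ≤ |C0| / (b : ℝ) ^ N := hP.trans hC0
  have hut' : |u - t| ≤ |C0| := hut.trans (div_le_self (abs_nonneg _) hbN)
  have hmem : u ∈ Set.Icc (t - |C0|) (t + |C0|) := by
    rw [abs_le] at hut'
    exact ⟨by linarith [hut'.1], by linarith [hut'.2]⟩
  have hHu : |H.eval u| ≤ L := hL u hmem
  have hFu : |FR.eval u| ≤ (|C0| / (b : ℝ) ^ N) * L := by
    have : FR.eval u = (u - t) * H.eval u := by
      conv_lhs => rw [← hfac]
      simp
    rw [this, abs_mul]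
    exact mul_le_mul hut hHu (abs_nonneg _) (by positivity)
  rw [hevc] at h1
  have h2 : (b : ℝ) ^ (N + 1) * |FR.eval u| ≤ b * L * |C0| := by
    calc (b : ℝ) ^ (N + 1) * |FR.eval u| ≤ (b : ℝ) ^ (N + 1) * ((|C0| / (b : ℝ) ^ N) * L) :=
          mul_le_mul_of_nonneg_left hFu (by positivity)
      _ = b * L * |C0| := by
          rw [pow_succ]; field_simp
  have h3 : (n1 (F.comp P) : ℝ) ≤ (n1 F : ℝ) * (1 + (n1 P : ℝ)) ^ F.natDegree := by
    exact_mod_cast n1_comp_le F P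
  have hP0 : (0 : ℝ) ≤ (n1 P : ℝ) := by exact_mod_cast n1_nonneg P
  have h4 : (1 : ℝ) ≤ (1 + (n1 P : ℝ)) ^ F.natDegree := one_le_pow₀ (by linarith)
  have h5 : (0 : ℝ) ≤ b * L * |C0| := by positivity
  calc (∑ R ∈ range (N + 1), (|S b (F.comp P) R| : ℝ))
      ≤ (n1 F : ℝ) * (1 + (n1 P : ℝ)) ^ F.natDegree + b * L * |C0| := by linarith
    _ ≤ (n1 F : ℝ) * (1 + (n1 P : ℝ)) ^ F.natDegree +
        (b * L * |C0| + 1) * (1 + (n1 P : ℝ)) ^ F.natDegree := by nlinarith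
    _ = _ := by ring

end Pool.Agent.H323R2
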