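import Pool.Agent.H393R2.DC.Main
import Pool.Agent.H323R2.Walk

/-!
Assembly: single prime statement + walk bound give exponent 3.
-/

set_option autoImplicit false

namespace Pool.Agent.H323R2.Cube

open Finset Filter Topology
open Pool.Agent.H393R2.DC

/-- the single prime statement -/
def SPStmt : Prop := ∀ (b G : ℕ) (U : ℕ → ℤ) (q N K P e Zl m : ℕ) [Fact q.Prime],
  3 ≤ q → (b : ZMod q) ≠ 0 → (G : ZMod q) ^ (q / 2) = -1 →
  (bad b G U q N).card ≤ e → (bad2 b G U N).card ≤ e → (Dn b U N).card + 1 ≤ m →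
  10 ^ 4 * m ^ 3 * q ^ 3 ≤ q ^ P →
  10 ^ 6 * (e + 1) ^ 2 * m ^ 6 * q ^ (4 * K + 10 * P) * (Zl + 1) ≤ N →
  ∃ (A : Finset ℕ) (δ : ℕ → ℕ → ℕ), (∀ u ∈ A, Zl ≤ u) ∧
    (∀ u ∈ A, ∀ k ≤ K, δ u k ∈ Dn b U N ∧ u < q ^ k * δ u k ∧
      q ^ k * δ u k ≤ u + (e * q ^ (K + 2 * P) + 1)) ∧
    (∀ u ∈ A, ∀ u' ∈ A, ∀ k ≤ K, ∀ k' ≤ K, δ u k = δ u' k' → u = u' ∧ k = k') ∧
    K ≤ 8 * P * (P * A.card) + 8

/-- eventual conditions -/
lemma ev_conditions3 (A B : ℝ) : ∃ X : ℝ, ∀ x : ℝ, X ≤ x →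
    x ^ 340 ≤ Real.exp (x / 400) ∧ A * (1 + x ^ 3) ≤ x ^ 4 ∧ 1 ≤ Real.log x ∧
      B ≤ x / (3200 * Real.log x) ∧ 10 ^ 8 ≤ Real.exp (x / 400) ∧ 10 ^ 9 ≤ x ∧
      8 * (Real.log x) ^ 2 ≤ x / 400 ∧ x ^ 4 ≤ (x / (3200 * Real.log x)) ^ 5 ∧
      8 * Real.log x ≤ x := by
  have hpow : ∀ k : ℕ, ∀ c : ℝ, 0 < c → ∀ᶠ x : ℝ in atTop, x ^ k ≤ c * Real.exp x := by
    intro k c hc
    have h := Real.tendsto_pow_mul_exp_neg_atTop_nhds_zero k
    have h4 := h.eventually_le_const hc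
    filter_upwards [h4] with x hx
    have he : 0 < Real.exp x := Real.exp_pos _
    rwa [Real.exp_neg, ← div_eq_mul_inv, div_le_iff₀ he] at hx
  have hdiv : Tendsto (fun x : ℝ => x / 400) atTop atTop :=
    tendsto_id.atTop_div_const (by norm_num)
  have h1 : ∀ᶠ x : ℝ in atTop, x ^ 340 ≤ Real.exp (x / 400) := by
    have h := hdiv.eventually (hpow 340 (1 / 400 ^ 340) (by positivity))
    filter_upwards [h] with x hx
    rw [div_pow, one_div, ← div_eq_inv_mul] at hx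
    exact (div_le_div_iff_of_pos_right (by positivity)).1 hx
  have h2 : ∀ᶠ x : ℝ in atTop, A * (1 + x ^ 3) ≤ x ^ 4 := by
    filter_upwards [eventually_ge_atTop (1 : ℝ), eventually_ge_atTop (2 * |A|)] with x hx1 hx2
    have hA := le_abs_self A
    have h3 : A * (1 + x ^ 3) ≤ |A| * (1 + x ^ 3) := mul_le_mul_of_nonneg_right hA (by positivity)
    have h4 : 1 + x ^ 3 ≤ 2 * x ^ 3 := by nlinarith [one_le_pow₀ (n := 3) hx1]
    have h5 : |A| * (1 + x ^ 3) ≤ |A| * (2 * x ^ 3) := mul_le_mul_of_nonneg_left h4 (abs_nonneg _)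
    have h6 : |A| * (2 * x ^ 3) ≤ x * x ^ 3 := by nlinarith [pow_nonneg (by linarith : 0 ≤ x) 3]
    calc A * (1 + x ^ 3) ≤ x * x ^ 3 := by linarith
      _ = x ^ 4 := by ring
  have h3 : ∀ᶠ x : ℝ in atTop, 1 ≤ Real.log x := Real.tendsto_log_atTop.eventually_ge_atTop 1
  have hlogx : ∀ ε : ℝ, 0 < ε → ∀ᶠ x : ℝ in atTop, Real.log x ≤ ε * x := by
    intro ε hε
    have h1 : Tendsto (fun x : ℝ => Real.log x / x) atTop (𝓝 0) :=
      Real.isLittleO_log_id_atTop.tendsto_div_nhds_zero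
    have h5 := h1.eventually_le_const hε
    filter_upwards [h5, eventually_gt_atTop (1 : ℝ)] with x hx hx1
    rwa [div_le_iff₀ (by linarith)] at hx
  have h4 : ∀ᶠ x : ℝ in atTop, B ≤ x / (3200 * Real.log x) := by
    filter_upwards [hlogx (1 / (3200 * (|B| + 1))) (by positivity), eventually_gt_atTop (1 : ℝ),
      h3] with x hx hx1 hx3
    have hx0 : 0 < x := by linarith
    rw [le_div_iff₀ (by linarith)]
    have hB := le_abs_self B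
    have h5 : 3200 * (|B| + 1) * Real.log x ≤ x := by
      calc 3200 * (|B| + 1) * Real.log x
          ≤ 3200 * (|B| + 1) * (1 / (3200 * (|B| + 1)) * x) := by gcongr
        _ = x := by field_simp
    nlinarith
  have h5 : ∀ᶠ x : ℝ in atTop, 10 ^ 8 ≤ Real.exp (x / 400) :=
    (Real.tendsto_exp_atTop.comp hdiv).eventually_ge_atTop _
  have h6 : ∀ᶠ x : ℝ in atTop, (10 : ℝ) ^ 9 ≤ x := eventually_ge_atTop _
  have h7 : ∀ᶠ x : ℝ in atTop, 8 * (Real.log x) ^ 2 ≤ x / 400 := by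
    have h := Real.tendsto_log_atTop.eventually (hpow 2 (1 / 3200) (by positivity))
    filter_upwards [h, eventually_gt_atTop (0 : ℝ)] with x hx hx0
    rw [Real.exp_log hx0] at hx
    linarith
  have h8 : ∀ᶠ x : ℝ in atTop, x ^ 4 ≤ (x / (3200 * Real.log x)) ^ 5 := by
    have h := Real.tendsto_log_atTop.eventually (hpow 5 (1 / 3200 ^ 5) (by positivity))
    filter_upwards [h, eventually_gt_atTop (0 : ℝ), h3] with x hx hx0 hx3
    rw [Real.exp_log hx0] at hx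
    rw [div_pow, mul_pow, le_div_iff₀ (by positivity)]
    calc x ^ 4 * (3200 ^ 5 * Real.log x ^ 5) ≤ x ^ 4 * (3200 ^ 5 * (1 / 3200 ^ 5 * x)) := by gcongr
      _ = x ^ 5 := by ring
  have h9 : ∀ᶠ x : ℝ in atTop, 8 * Real.log x ≤ x := by
    filter_upwards [hlogx (1 / 8) (by norm_num)] with x hx
    linarith
  obtain ⟨X, hX⟩ := eventually_atTop.1
    (h1.and (h2.and (h3.and (h4.and (h5.and (h6.and (h7.and (h8.and h9))))))))
  exact ⟨X, fun x hx => hX x hx⟩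

lemma L1 {y e : ℝ} (hy4 : 4 ≤ y) (he0 : 0 ≤ e) (hey : e ≤ y) : (e + 1) ^ 2 ≤ y ^ 3 := by
  have hy0 : 0 ≤ y := by linarith
  calc (e + 1) ^ 2 ≤ (2 * y) ^ 2 := by gcongr; linarith
    _ = 4 * y ^ 2 := by ring
    _ ≤ y * y ^ 2 := by gcongr
    _ = y ^ 3 := by ring

lemma L2 {y m x : ℝ} (hm0 : 0 ≤ m) (hmx : m + 1 ≤ x ^ 4) (h24 : x ^ 24 ≤ y) :
    (m + 1) ^ 6 ≤ y := by
  calc (m + 1) ^ 6 ≤ (x ^ 4) ^ 6 := by gcongr
    _ = x ^ 24 := by ring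
    _ ≤ y := h24

lemma L3 {y a b c d f g : ℝ} (hy : 0 ≤ y) (ha : 0 ≤ a) (hb : 0 ≤ b) (hc : 0 ≤ c) (hd : 0 ≤ d)
    (hf : 0 ≤ f) (hg : 0 ≤ g) (ha' : a ≤ y) (hb' : b ≤ y ^ 3) (hc' : c ≤ y) (hd' : d ≤ y)
    (hf' : f ≤ y) (hg' : g ≤ y ^ 9) :
    a * b * c * (d * f) * g ≤ y * y ^ 3 * y * (y * y) * y ^ 9 := by
  gcongr

lemma L4 {q m : ℝ} (hm0 : 0 ≤ m) (hq : 10 ^ 4 ≤ q) (hmx : m + 1 ≤ q ^ 10) :
    10 ^ 4 * (m + 1) ^ 3 * q ^ 3 ≤ q * (q ^ 10) ^ 3 * q ^ 3 := by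
  have hq0 : 0 ≤ q := by linarith [show (0 : ℝ) ≤ 10 ^ 4 by norm_num]
  gcongr

lemma L5 {a Q B : ℝ} (ha : 0 ≤ a) (hQ : 16 ≤ Q) (h : a * (Q - 8) * Q ≤ B) :
    a * (Q / 2) * Q ≤ B := by
  refine le_trans ?_ h
  have hQ0 : 0 ≤ Q := by linarith
  gcongr
  linarith

lemma L6 {a b a' : ℝ} {Q : ℝ} (ha : a ≤ a') (ha0 : 0 ≤ a) (hb : b ≤ Q) (hb0 : 0 ≤ b) :
    a * (b / 2) * b ≤ a' * (Q / 2) * Q := by
  have hQ0 : 0 ≤ Q := hb0.trans hb
  have ha0' : 0 ≤ a' := ha0.trans ha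
  gcongr

lemma L7 {l m lam : ℝ} (hm : 0 ≤ m) (hl : l ≤ 4 * lam) :
    8 * 34 * 34 * (5 * l * m) ≤ 8 * 34 * 34 * (5 * (4 * lam) * m) := by
  gcongr

/-- the finite form -/
theorem finite3 (hSP : SPStmt) (b G : ℕ) (U : ℕ → ℤ) (N K Q P e Z ℓ : ℕ) (QQ : Finset ℕ)
    (hQQ : ∀ q ∈ QQ, q.Prime ∧ 3 ≤ q ∧ q ≤ Q ∧ (b : ZMod q) ≠ 0 ∧ (G : ZMod q) ^ (q / 2) = -1)
    (hbad : ∀ q ∈ QQ, (bad b G U q N).card ≤ e) (hbad2 : (bad2 b G U N).card ≤ e)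
    (hP : ∀ q ∈ QQ, 10 ^ 4 * ((Dn b U N).card + 1) ^ 3 * q ^ 3 ≤ q ^ P)
    (hsz : 10 ^ 6 * (e + 1) ^ 2 * ((Dn b U N).card + 1) ^ 6 * Q ^ (4 * K + 10 * P) *
      (Q ^ K * Z + 1) ≤ N)
    (hZ : 2 * ℓ * Q ^ (2 * ℓ) * (e * Q ^ (K + 2 * P) + 1) < Z)
    (hl : (Dn b U N).card < 3 ^ ℓ) (hl1 : 1 ≤ ℓ) :
    QQ.card * (K - 8) * K ≤ 8 * P * P * (5 * ℓ * (Dn b U N).card) := by
  classical
  have hex : ∀ q : ℕ, ∃ (A : Finset ℕ) (δ : ℕ → ℕ → ℕ), q ∈ QQ → ((∀ u ∈ A, Q ^ K * Z ≤ u) ∧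
    (∀ u ∈ A, ∀ k ≤ K, δ u k ∈ Dn b U N ∧ u < q ^ k * δ u k ∧
      q ^ k * δ u k ≤ u + (e * Q ^ (K + 2 * P) + 1)) ∧
    (∀ u ∈ A, ∀ u' ∈ A, ∀ k ≤ K, ∀ k' ≤ K, δ u k = δ u' k' → u = u' ∧ k = k') ∧
    K ≤ 8 * P * (P * A.card) + 8) := by
    intro q
    by_cases hq : q ∈ QQ
    · obtain ⟨hqp, hq3, hqQ, hqb, hqG⟩ := hQQ q hq
      haveI : Fact q.Prime := ⟨hqp⟩
      obtain ⟨A, δ, h1, h2, h3, h4⟩ := hSP b G U q N K P e (Q ^ K * Z) ((Dn b U N).card + 1)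
        hq3 hqb hqG (hbad q hq) hbad2 le_rfl (hP q hq) (by
          refine le_trans ?_ hsz
          gcongr)
      refine ⟨A, δ, fun _ => ⟨h1, ?_, h3, h4⟩⟩
      intro u hu k hk
      obtain ⟨g1, g2, g3⟩ := h2 u hu k hk
      refine ⟨g1, g2, g3.trans ?_⟩
      have : e * q ^ (K + 2 * P) ≤ e * Q ^ (K + 2 * P) := by gcongr
      omega
    · exact ⟨∅, fun _ _ => 0, fun h => absurd h hq⟩
  choose A δ hA using hex
  have hw := Pool.Agent.H323R2.Walk.walk_bound QQ Q K (e * Q ^ (K + 2 * P) + 1) Z ℓ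
    (fun q hq => (hQQ q hq).1) (fun q hq => (hQQ q hq).2.2.1) (Dn b U N) A δ
    (fun q hq u hu k hk => (hA q hq).2.1 u hu k hk)
    (fun q hq u hu u' hu' k hk k' hk' h => (hA q hq).2.2.1 u hu u' hu' k hk k' hk' h)
    (fun q hq u hu => (hA q hq).1 u hu) hZ hl
  calc QQ.card * (K - 8) * K = ∑ q ∈ QQ, (K - 8) * K := by
        rw [Finset.sum_const, smul_eq_mul]; ring
    _ ≤ ∑ q ∈ QQ, (8 * P * (P * (A q).card)) * K := by
        refine Finset.sum_le_sum (fun q hq => Nat.mul_le_mul_right _ ?_)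
        have := (hA q hq).2.2.2
        omega
    _ = 8 * P * P * ∑ q ∈ QQ, (A q).card * K := by
        rw [Finset.mul_sum]
        exact Finset.sum_congr rfl (fun q _ => by ring)
    _ ≤ _ := Nat.mul_le_mul_left _ hw

theorem main_seq3 (hSP : SPStmt) (b : ℕ) (hb : 2 ≤ b) (G : ℕ) (hG : ¬ IsSquare G) (γ C0 : ℝ)
    (hγ : γ ^ 2 = G) (U : ℕ → ℤ) (hU : ∀ K, |(U K : ℝ) - (b : ℝ) ^ K * γ| ≤ C0) :
    ∃ c : ℝ, 0 < c ∧ ∃ N0 : ℕ, ∀ N : ℕ, N0 ≤ N →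
      c * (Real.log N) ^ 3 / (Real.log (Real.log N)) ^ 5 ≤ ((Dn b U N).card : ℝ) := by
  classical
  obtain ⟨C, hC1, hC⟩ := bad_card b hb G γ C0 hγ U hU
  obtain ⟨c1, hc1, Q0, hQ0⟩ := inert_supply b G (by omega) hG
  have hC0 : 0 ≤ C0 := (abs_nonneg _).trans (hU 0)
  have hb0 : (0 : ℝ) ≤ b := Nat.cast_nonneg _
  set C2 : ℝ := 1 + |(U 0 : ℝ)| + (1 + b) * C0 with hC2
  have hC21 : 1 ≤ C2 := by
    have : 0 ≤ (1 + (b : ℝ)) * C0 := by positivity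
    have := abs_nonneg (U 0 : ℝ)
    linarith
  -- eventually, the primes below sqrt Q are few
  have hev : ∃ Q1 : ℕ, ∀ Q : ℕ, Q1 ≤ Q → (Nat.sqrt Q : ℝ) + 1 ≤ c1 / 2 * Q / Real.log Q := by
    have h1 : Tendsto (fun x : ℝ => Real.log x / x ^ (1 / 2 : ℝ)) atTop (𝓝 0) :=
      (isLittleO_log_rpow_atTop (by norm_num)).tendsto_div_nhds_zero
    have h2 := (h1.comp (tendsto_natCast_atTop_atTop (R := ℝ))).eventually_le_const
      (show (0 : ℝ) < c1 / 4 by positivity)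
    obtain ⟨Q1, hQ1⟩ := eventually_atTop.1 h2
    refine ⟨max Q1 2, fun Q hQ => ?_⟩
    have h3 := hQ1 Q (le_trans (le_max_left _ _) hQ)
    have hQ2 : 2 ≤ Q := le_trans (le_max_right _ _) hQ
    have hQ2r : (2 : ℝ) ≤ Q := by exact_mod_cast hQ2
    simp only [Function.comp] at h3
    rw [← Real.sqrt_eq_rpow] at h3
    have hs0 : 0 < Real.sqrt Q := Real.sqrt_pos.2 (by linarith)
    have hs1 : 1 ≤ Real.sqrt Q := Real.one_le_sqrt.2 (by linarith)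
    rw [div_le_iff₀ hs0] at h3
    have hlog : 0 < Real.log Q := Real.log_pos (by linarith)
    rw [le_div_iff₀ hlog]
    have h4 : (Nat.sqrt Q : ℝ) ≤ Real.sqrt Q := Real.nat_sqrt_le_real_sqrt
    have h5 : Real.sqrt Q * Real.sqrt Q = Q := Real.mul_self_sqrt (by linarith)
    calc ((Nat.sqrt Q : ℝ) + 1) * Real.log Q ≤ (2 * Real.sqrt Q) * (c1 / 4 * Real.sqrt Q) := by
          apply mul_le_mul _ h3 hlog.le (by positivity)
          linarith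
      _ = c1 / 2 * (Real.sqrt Q * Real.sqrt Q) := by ring
      _ = c1 / 2 * Q := by rw [h5]
  obtain ⟨Q1, hQ1⟩ := hev
  obtain ⟨P, hP34⟩ : ∃ P : ℕ, P = 34 := ⟨34, rfl⟩
  obtain ⟨R400, hR400⟩ : ∃ R : ℕ, R = 400 := ⟨400, rfl⟩
  obtain ⟨X, hX⟩ : ∃ X : ℝ, ∀ x : ℝ, X ≤ x →
    x ^ (10 * P) ≤ Real.exp (x / 400) ∧ C * C2 * (1 + x ^ 3) ≤ x ^ 4 ∧ 1 ≤ Real.log x ∧
      (Q0 + Q1 + 10 ^ 9 : ℝ) ≤ x / (3200 * Real.log x) ∧ 10 ^ 8 ≤ Real.exp (x / 400) ∧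
      10 ^ 9 ≤ x ∧ 8 * (Real.log x) ^ 2 ≤ x / 400 ∧ x ^ 4 ≤ (x / (3200 * Real.log x)) ^ 5 ∧
      8 * Real.log x ≤ x := by
    rw [hP34]
    exact ev_conditions3 (C * C2) (Q0 + Q1 + 10 ^ 9)
  obtain ⟨N1, hN1⟩ := eventually_atTop.1
    ((Real.tendsto_log_atTop.comp (tendsto_natCast_atTop_atTop (R := ℝ))).eventually_ge_atTop X)
  set c3 : ℝ := c1 / 2 / 3200 / 6400 / 3200 / (8 * 34 * 34 * (5 * 4)) with hc3
  have hc30 : 0 < c3 := by rw [hc3]; positivity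
  refine ⟨min 1 c3, lt_min one_pos hc30, max N1 1, fun N hN => ?_⟩
  have hNX : X ≤ Real.log N := hN1 N (le_trans (le_max_left _ _) hN)
  have hNpos : 1 ≤ N := le_trans (le_max_right _ _) hN
  obtain ⟨e1, e2, e3, e4, e5, e6, e7, e8, e9⟩ := hX _ hNX
  set x : ℝ := Real.log N with hx
  set lam : ℝ := Real.log x with hlam
  set y : ℝ := Real.exp (x / 400) with hy
  set m : ℕ := (Dn b U N).card with hm
  have hx1 : 1 ≤ x := by linarith [show (1 : ℝ) ≤ 10 ^ 9 by norm_num]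
  have hx0 : 0 < x := by linarith
  have hlam0 : 0 < lam := by linarith
  have hexp : Real.exp lam = x := Real.exp_log hx0
  have hlam5 : 1 ≤ lam ^ 5 := one_le_pow₀ e3
  by_cases hcase : x ^ 3 ≤ (m : ℝ)
  · rw [div_le_iff₀ (by positivity)]
    calc min 1 c3 * x ^ 3 ≤ 1 * x ^ 3 :=
          mul_le_mul_of_nonneg_right (min_le_left _ _) (by positivity)
      _ ≤ (m : ℝ) := by linarith
      _ ≤ (m : ℝ) * lam ^ 5 := le_mul_of_one_le_right (Nat.cast_nonneg _) hlam5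
  push Not at hcase
  set Q : ℕ := ⌊x / (1600 * lam)⌋₊ with hQ
  set ℓ : ℕ := ⌊3 * lam⌋₊ + 1 with hℓ
  set e : ℕ := ⌊y⌋₊ with he
  have hQle : (Q : ℝ) ≤ x / (1600 * lam) := Nat.floor_le (by positivity)
  have hQgt : x / (1600 * lam) < Q + 1 := Nat.lt_floor_add_one _
  have hQbig : x / (3200 * lam) ≤ Q := by
    have h1 : x / (3200 * lam) = (x / (1600 * lam)) / 2 := by field_simp; norm_num
    have h2 : 1 ≤ x / (3200 * lam) := by
      refine le_trans ?_ e4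
      have : (0 : ℝ) ≤ (Q0 : ℝ) + Q1 := by positivity
      linarith [show (1 : ℝ) ≤ 10 ^ 9 by norm_num]
    linarith
  have hQQ0 : Q0 + Q1 + 10 ^ 9 ≤ Q := by
    have h0 := e4.trans hQbig
    have : ((Q0 + Q1 + 10 ^ 9 : ℕ) : ℝ) ≤ Q := by
      rw [Nat.cast_add, Nat.cast_add, Nat.cast_pow]
      exact_mod_cast h0
    exact_mod_cast this
  have hQx : (Q : ℝ) ≤ x := by
    refine hQle.trans ?_
    apply div_le_self hx0.le
    linarith
  have hQ1' : (1 : ℝ) ≤ Q := by exact_mod_cast (by omega : 1 ≤ Q)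
  have hy1 : 1 ≤ y := by linarith [show (1 : ℝ) ≤ 10 ^ 8 by norm_num]
  have hy0 : 0 ≤ y := by linarith
  have hy4 : 4 ≤ y := by linarith [show (4 : ℝ) ≤ 10 ^ 8 by norm_num]
  have hpowx : ∀ k : ℕ, k ≤ 10 * P → x ^ k ≤ y := fun k hk =>
    (pow_le_pow_right₀ hx1 hk).trans e1
  have hey : (e : ℝ) ≤ y := Nat.floor_le hy0
  -- bound for the exceptional sets
  have hbase : C * (1 + (V b U N : ℝ)) ≤ x ^ 4 := by
    have h1 := V_le_Dn b γ C0 U hU N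
    have h2 : 1 + ((Dn b U N).card : ℝ) ≤ 1 + x ^ 3 := by
      have := hcase.le
      linarith
    calc C * (1 + (V b U N : ℝ)) ≤ C * (C2 * (1 + ((Dn b U N).card : ℝ))) :=
          mul_le_mul_of_nonneg_left h1 (by linarith)
      _ ≤ C * (C2 * (1 + x ^ 3)) := by gcongr
      _ = C * C2 * (1 + x ^ 3) := by ring
      _ ≤ x ^ 4 := e2
  have hVnn : 0 ≤ C * (1 + (V b U N : ℝ)) := by
    have : (0 : ℝ) ≤ (V b U N : ℝ) := by exact_mod_cast V_nonneg b U N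
    have : 0 ≤ C := by linarith
    positivity
  have hx41 : 1 ≤ x ^ 4 := one_le_pow₀ hx1
  have hpowQ : (x ^ 4) ^ Q ≤ y := by
    have h1 : (x ^ 4) ^ Q = Real.exp (lam * ((4 * Q : ℕ) : ℝ)) := by
      rw [← pow_mul, ← hexp, ← Real.exp_nat_mul]
      congr 1
      ring
    rw [h1, hy]
    apply Real.exp_le_exp.2
    push_cast
    have h2 : lam * (4 * (Q : ℝ)) ≤ lam * (4 * (x / (1600 * lam))) := by gcongr
    have h3 : lam * (4 * (x / (1600 * lam))) = x / 400 := by field_simp; norm_num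
    linarith
  have hpow4K : (Q : ℝ) ^ (4 * Q) ≤ y := by
    calc (Q : ℝ) ^ (4 * Q) ≤ x ^ (4 * Q) := by gcongr
      _ = (x ^ 4) ^ Q := by rw [pow_mul]
      _ ≤ y := hpowQ
  have hpowK : (Q : ℝ) ^ Q ≤ y := (pow_le_pow_right₀ hQ1' (by omega)).trans hpow4K
  have hcardbad : ∀ q : ℕ, q ≤ Q → q % 2 = 1 → (bad b G U q N).card ≤ e := by
    intro q hqQ hq2
    rw [he]
    apply Nat.le_floor
    calc ((bad b G U q N).card : ℝ) ≤ (C * (1 + (V b U N : ℝ))) ^ q := (hC N).1 q hq2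
      _ ≤ (x ^ 4) ^ q := pow_le_pow_left₀ hVnn hbase _
      _ ≤ (x ^ 4) ^ Q := pow_le_pow_right₀ hx41 hqQ
      _ ≤ y := hpowQ
  have hcardbad2 : (bad2 b G U N).card ≤ e := by
    rw [he]
    apply Nat.le_floor
    calc ((bad2 b G U N).card : ℝ) ≤ (C * (1 + (V b U N : ℝ))) ^ 2 := (hC N).2
      _ ≤ (x ^ 4) ^ 2 := pow_le_pow_left₀ hVnn hbase _
      _ ≤ (x ^ 4) ^ Q := pow_le_pow_right₀ hx41 (by omega)
      _ ≤ y := hpowQ
  -- size of N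
  have hNy : (N : ℝ) = y ^ R400 := by
    rw [hy, ← Real.exp_nat_mul, hR400]
    have : ((400 : ℕ) : ℝ) * (x / 400) = x := by push_cast; ring
    rw [this, hx, Real.exp_log (by exact_mod_cast hNpos)]
  have hmx : (m : ℝ) + 1 ≤ x ^ 4 := by
    have h1 : x ^ 4 = x * x ^ 3 := by ring
    have h2 : 1 ≤ x ^ 3 := one_le_pow₀ hx1
    have h3 : 2 ≤ x := by linarith [show (2 : ℝ) ≤ 10 ^ 9 by norm_num]
    nlinarith
  -- bounds for ℓ
  have hℓle : (ℓ : ℝ) ≤ 4 * lam := by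
    rw [hℓ]; push_cast
    have := Nat.floor_le (show 0 ≤ 3 * lam by positivity)
    linarith
  have hℓm : m < 3 ^ ℓ := by
    have h1 : x ^ 3 ≤ (3 : ℝ) ^ ℓ := by
      have h2 : x ^ 3 = Real.exp (3 * lam) := by
        rw [← hexp, ← Real.exp_nat_mul]; push_cast; ring_nf
      have h3 : (3 : ℝ) ^ ℓ = Real.exp (ℓ * Real.log 3) := by
        rw [Real.exp_nat_mul, Real.exp_log (by norm_num)]
      rw [h2, h3]
      apply Real.exp_le_exp.2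
      have h4 : 3 * lam < ℓ := by rw [hℓ]; push_cast; exact Nat.lt_floor_add_one _
      have h5 : 1 ≤ Real.log 3 := by
        rw [Real.le_log_iff_exp_le (by norm_num)]
        exact Real.exp_one_lt_three.le
      nlinarith
    have : (m : ℝ) < (3 : ℝ) ^ ℓ := lt_of_lt_of_le hcase h1
    exact_mod_cast this
  -- the scale Z
  set H : ℕ := e * Q ^ (Q + 2 * P) + 1 with hH
  set Z : ℕ := 2 * ℓ * Q ^ (2 * ℓ) * H + 1 with hZ
  have hZgt : 2 * ℓ * Q ^ (2 * ℓ) * (e * Q ^ (Q + 2 * P) + 1) < Z := by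
    rw [hZ, ← hH]; exact Nat.lt_succ_self _
  have hQ68 : (Q : ℝ) ^ (2 * P) ≤ y := (pow_le_pow_left₀ (by linarith) hQx _).trans (hpowx (2 * P) (by omega))
  have hQ340 : (Q : ℝ) ^ (10 * P) ≤ y :=
    (pow_le_pow_left₀ (by linarith) hQx _).trans (hpowx (10 * P) le_rfl)
  have hHle : (H : ℝ) ≤ y ^ 4 := by
    rw [hH]; push_cast
    rw [pow_add]
    have h1 : (e : ℝ) * ((Q : ℝ) ^ Q * (Q : ℝ) ^ (2 * P)) ≤ y * (y * y) := by
      gcongr
    have h2 : y * (y * y) + 1 ≤ y ^ 4 := by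
      have h3 : 1 ≤ y ^ 3 := one_le_pow₀ hy1
      have h4 : y ^ 4 = y * y ^ 3 := by ring
      nlinarith
    linarith
  have hQ2l : (Q : ℝ) ^ (2 * ℓ) ≤ y := by
    calc (Q : ℝ) ^ (2 * ℓ) ≤ x ^ (2 * ℓ) := by gcongr
      _ = Real.exp (lam * ((2 * ℓ : ℕ) : ℝ)) := by
          rw [← hexp, ← Real.exp_nat_mul]; congr 1; ring
      _ ≤ y := by
          rw [hy]
          apply Real.exp_le_exp.2
          push_cast
          have h1 : lam * (2 * (ℓ : ℝ)) ≤ lam * (2 * (4 * lam)) := by gcongr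
          have h2 : lam * (2 * (4 * lam)) = 8 * lam ^ 2 := by ring
          linarith
  have hZle : (Z : ℝ) ≤ y ^ 7 := by
    rw [hZ]; push_cast
    have h0 : 2 * (ℓ : ℝ) ≤ y := by
      calc 2 * (ℓ : ℝ) ≤ 8 * lam := by linarith
        _ ≤ x := e9
        _ = x ^ 1 := (pow_one x).symm
        _ ≤ y := hpowx 1 (by omega)
    have h1 : 2 * (ℓ : ℝ) * (Q : ℝ) ^ (2 * ℓ) * H ≤ y * y * y ^ 4 := by gcongr
    have h2 : y * y * y ^ 4 + 1 ≤ y ^ 7 := by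
      have h3 : 1 ≤ y ^ 6 := one_le_pow₀ hy1
      have h4 : y ^ 7 = y * y ^ 6 := by ring
      have h5 : y * y * y ^ 4 = y ^ 6 := by ring
      nlinarith
    linarith
  have hcond : 10 ^ 6 * (e + 1) ^ 2 * (m + 1) ^ 6 * Q ^ (4 * Q + 10 * P) *
      (Q ^ Q * Z + 1) ≤ N := by
    have : (10 : ℝ) ^ 6 * ((e : ℝ) + 1) ^ 2 * ((m : ℝ) + 1) ^ 6 * (Q : ℝ) ^ (4 * Q + 10 * P) *
      ((Q : ℝ) ^ Q * Z + 1) ≤ N := by
      rw [hNy, pow_add]
      have g1 : (10 : ℝ) ^ 6 ≤ y := by linarith [show (10 : ℝ) ^ 6 ≤ 10 ^ 8 by norm_num]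
      have g2 : ((e : ℝ) + 1) ^ 2 ≤ y ^ 3 := by
        exact L1 hy4 (Nat.cast_nonneg _) hey
      have g3 : ((m : ℝ) + 1) ^ 6 ≤ y := by
        exact L2 (Nat.cast_nonneg _) hmx (hpowx 24 (by omega))
      have g5 : (Q : ℝ) ^ Q * Z + 1 ≤ y ^ 9 := by
        have h1 : (Q : ℝ) ^ Q * Z ≤ y * y ^ 7 := by gcongr
        have h2 : y * y ^ 7 + 1 ≤ y ^ 9 := by
          have h3 : 1 ≤ y ^ 8 := one_le_pow₀ hy1
          have h4 : y ^ 9 = y * y ^ 8 := by ring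
          have h5 : y * y ^ 7 = y ^ 8 := by ring
          nlinarith
        linarith
      calc (10 : ℝ) ^ 6 * ((e : ℝ) + 1) ^ 2 * ((m : ℝ) + 1) ^ 6 *
            ((Q : ℝ) ^ (4 * Q) * (Q : ℝ) ^ (10 * P)) * ((Q : ℝ) ^ Q * Z + 1)
          ≤ y * y ^ 3 * y * (y * y) * y ^ 9 := by
              exact L3 hy0 (by norm_num)
                (pow_nonneg (add_nonneg (Nat.cast_nonneg _) zero_le_one) _)
                (pow_nonneg (add_nonneg (Nat.cast_nonneg _) zero_le_one) _)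
                (pow_nonneg (Nat.cast_nonneg _) _) (pow_nonneg (Nat.cast_nonneg _) _)
                (add_nonneg (mul_nonneg (pow_nonneg (Nat.cast_nonneg _) _)
                  (Nat.cast_nonneg _)) zero_le_one) g1 g2 g3 hpow4K hQ340 g5
        _ = y ^ 16 := by ring
        _ ≤ y ^ R400 := pow_le_pow_right₀ hy1 (by omega)
    exact_mod_cast this
  -- the primes
  set QQ : Finset ℕ := (IP b G Q).filter (fun q => Q ≤ q * q) with hQQ
  have hQQcard : c1 / 2 * Q / Real.log Q ≤ (QQ.card : ℝ) := by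
    have h1 := hQ0 Q (by omega)
    have h2 := hQ1 Q (by omega)
    have h3 : (IP b G Q).card ≤ QQ.card + (Nat.sqrt Q + 1) := by
      have h4 : IP b G Q ⊆ QQ ∪ range (Nat.sqrt Q + 1) := by
        intro q hq
        rw [Finset.mem_union]
        by_cases h : Q ≤ q * q
        · exact Or.inl (Finset.mem_filter.2 ⟨hq, h⟩)
        · right
          rw [Finset.mem_range, Nat.lt_succ_iff, Nat.le_sqrt]
          omega
      refine (Finset.card_le_card h4).trans ((Finset.card_union_le _ _).trans ?_)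
      rw [Finset.card_range]
    have h3' : ((IP b G Q).card : ℝ) ≤ QQ.card + (Nat.sqrt Q + 1) := by exact_mod_cast h3
    have h5 : c1 * Q / Real.log Q = c1 / 2 * Q / Real.log Q + c1 / 2 * Q / Real.log Q := by ring
    linarith
  have hQQmem : ∀ q ∈ QQ, q.Prime ∧ 3 ≤ q ∧ q ≤ Q ∧ (b : ZMod q) ≠ 0 ∧
      (G : ZMod q) ^ (q / 2) = -1 := by
    intro q hq
    have h1 := (Finset.mem_filter.1 hq).1
    unfold IP at h1
    rw [Finset.mem_filter, Finset.mem_range] at h1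
    exact ⟨h1.2.1, h1.2.2.1, by omega, h1.2.2.2.1, h1.2.2.2.2⟩
  have hfin := finite3 hSP b G U N Q Q P e Z ℓ QQ hQQmem
    (by
      intro q hq
      obtain ⟨h1, h2, h3, _⟩ := hQQmem q hq
      refine hcardbad q h3 ?_
      rcases h1.eq_two_or_odd with h | h
      · omega
      · exact h)
    hcardbad2
    (by
      intro q hq
      have hqq := (Finset.mem_filter.1 hq).2
      have hq3 := (hQQmem q hq).2.1
      have hqqr : (Q : ℝ) ≤ (q : ℝ) ^ 2 := by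
        rw [pow_two]; exact_mod_cast hqq
      have hq4 : (10 : ℝ) ^ 4 ≤ q := by
        have h1 : (10 ^ 4) ^ 2 ≤ q ^ 2 := by
          calc (10 ^ 4) ^ 2 ≤ 10 ^ 9 := by norm_num
            _ ≤ Q := by omega
            _ ≤ q * q := hqq
            _ = q ^ 2 := (pow_two q).symm
        have h2 : 10 ^ 4 ≤ q := (Nat.pow_le_pow_iff_left (by norm_num)).1 h1
        exact_mod_cast h2
      have hx4q : x ^ 4 ≤ (q : ℝ) ^ 10 := by
        calc x ^ 4 ≤ (x / (3200 * lam)) ^ 5 := e8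
          _ ≤ (Q : ℝ) ^ 5 := by gcongr
          _ ≤ ((q : ℝ) ^ 2) ^ 5 := by gcongr
          _ = (q : ℝ) ^ 10 := by ring
      have : (10 : ℝ) ^ 4 * ((m : ℝ) + 1) ^ 3 * (q : ℝ) ^ 3 ≤ (q : ℝ) ^ P := by
        rw [hP34]
        calc (10 : ℝ) ^ 4 * ((m : ℝ) + 1) ^ 3 * (q : ℝ) ^ 3
            ≤ q * ((q : ℝ) ^ 10) ^ 3 * (q : ℝ) ^ 3 :=
              L4 (Nat.cast_nonneg _) hq4 (hmx.trans hx4q)
          _ = (q : ℝ) ^ 34 := by ring
      exact_mod_cast this)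
    hcond hZgt hℓm (by rw [hℓ]; omega)
  -- conclusion
  have hfinR : (QQ.card : ℝ) * ((Q : ℝ) / 2) * Q ≤ 8 * 34 * 34 * (5 * ℓ * m) := by
    rw [hP34] at hfin
    have h1 : ((QQ.card * (Q - 8) * Q : ℕ) : ℝ) ≤ ((8 * 34 * 34 * (5 * ℓ * m) : ℕ) : ℝ) := by
      exact_mod_cast hfin
    push_cast [Nat.cast_sub (by omega : 8 ≤ Q)] at h1
    have h1' : (QQ.card : ℝ) * ((Q : ℝ) - 8) * Q ≤ 8 * 34 * 34 * (5 * ℓ * m) := by
      refine h1.trans (le_of_eq ?_)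
      norm_num
    have h2 : (16 : ℝ) ≤ Q := by exact_mod_cast (by omega : 16 ≤ Q)
    exact L5 (Nat.cast_nonneg _) h2 h1'
  have hlogQ : Real.log Q ≤ lam := Real.log_le_log (by linarith) hQx
  have hlogQ0 : 0 < Real.log Q := Real.log_pos (by exact_mod_cast (by omega : 1 < Q))
  have hr : c1 / 2 * (x / (3200 * lam)) / lam ≤ (QQ.card : ℝ) := by
    refine le_trans ?_ hQQcard
    gcongr
  have hfinal : c1 / 2 * (x / (3200 * lam)) / lam * ((x / (3200 * lam)) / 2) * (x / (3200 * lam))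
      ≤ 8 * 34 * 34 * (5 * (4 * lam) * m) := by
    calc c1 / 2 * (x / (3200 * lam)) / lam * ((x / (3200 * lam)) / 2) * (x / (3200 * lam))
        ≤ (QQ.card : ℝ) * ((Q : ℝ) / 2) * Q := L6 hr (by positivity) hQbig (by positivity)
      _ ≤ 8 * 34 * 34 * (5 * ℓ * m) := hfinR
      _ ≤ 8 * 34 * 34 * (5 * (4 * lam) * m) := L7 (Nat.cast_nonneg _) hℓle
  have hfin2 : c3 * x ^ 3 / lam ^ 5 ≤ (m : ℝ) := by
    rw [div_le_iff₀ (by positivity), hc3]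
    have h1 : c1 / 2 * (x / (3200 * lam)) / lam * ((x / (3200 * lam)) / 2) * (x / (3200 * lam))
        = (c1 / 2 / 3200 / 6400 / 3200) * x ^ 3 / lam ^ 4 := by
      field_simp
      norm_num
    rw [h1, div_le_iff₀ (by positivity)] at hfinal
    calc c1 / 2 / 3200 / 6400 / 3200 / (8 * 34 * 34 * (5 * 4)) * x ^ 3
        = ((c1 / 2 / 3200 / 6400 / 3200) * x ^ 3) / (8 * 34 * 34 * (5 * 4)) := by ring
      _ ≤ (8 * 34 * 34 * (5 * (4 * lam) * m) * lam ^ 4) / (8 * 34 * 34 * (5 * 4)) := by gcongr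
      _ = m * lam ^ 5 := by ring
  calc min 1 c3 * x ^ 3 / lam ^ 5 ≤ c3 * x ^ 3 / lam ^ 5 := by
        gcongr
        exact min_le_right _ _
    _ ≤ (m : ℝ) := hfin2

end Pool.Agent.H323R2.Cube
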