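import Pool.Agent.H323R2.Seq

/-!
Division of a sparse sequence by `p`.
-/

set_option autoImplicit false

namespace Pool.Agent.H323R2

open Polynomial Finset

/-- number of `K ≤ N` with `p ∤ U_K` -/
noncomputable def bad (p : ℕ) (U : ℕ → ℤ) (N : ℕ) : ℕ :=
  ((range (N + 1)).filter (fun K => ¬ (p : ℤ) ∣ U K)).card

lemma bad_mono (p : ℕ) (U : ℕ → ℤ) {M N : ℕ} (h : M ≤ N) : bad p U M ≤ bad p U N := by
  unfold bad
  apply Finset.card_le_card
  apply Finset.filter_subset_filter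
  intro i hi
  rw [Finset.mem_range] at *
  omega

lemma bad_le_scaled (p q : ℕ) (hq : 0 < q) (U : ℕ → ℤ) (N : ℕ) :
    bad p U N ≤ ((range (q * N + 1)).filter (fun R => ¬ (p : ℤ) ∣ U (R / q))).card := by
  unfold bad
  apply Finset.card_le_card_of_injOn (fun K => q * K)
  · intro K hK
    simp only [Finset.coe_filter, Finset.mem_range, Set.mem_ofPred_eq] at hK ⊢
    refine ⟨?_, ?_⟩
    · have : q * K ≤ q * N := Nat.mul_le_mul_left _ (by omega)
      omega
    · rw [Nat.mul_div_cancel_left _ hq]; exact hK.2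
  · intro a _ c _ h
    exact Nat.eq_of_mul_eq_mul_left hq h

lemma dlt_div_le (p b : ℕ) (hp : 0 < p) (U : ℕ → ℤ) (k : ℕ) :
    |dlt b (fun K => U K / p) (k + 1)| ≤ |dlt b U (k + 1)| +
      (b + 1) * ((if ¬ (p : ℤ) ∣ U (k + 1) then 1 else 0) + (if ¬ (p : ℤ) ∣ U k then 1 else 0)) := by
  have hp' : (0 : ℤ) < p := by exact_mod_cast hp
  have hb' : (0 : ℤ) ≤ b := by positivity
  simp only [dlt]
  set x := U (k + 1) with hx
  set y := U k with hy
  have ex := Int.mul_ediv_add_emod x p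
  have ey := Int.mul_ediv_add_emod y p
  have rx0 := Int.emod_nonneg x hp'.ne'
  have ry0 := Int.emod_nonneg y hp'.ne'
  have rx1 := Int.emod_lt_of_pos x hp'
  have ry1 := Int.emod_lt_of_pos y hp'
  have key : (p : ℤ) * (x / p - b * (y / p)) = (x - b * y) - x % p + b * (y % p) := by
    linear_combination ex - (b : ℤ) * ey
  by_cases h1 : (p : ℤ) ∣ x
  · by_cases h2 : (p : ℤ) ∣ y
    · have e1 : x % p = 0 := Int.emod_eq_zero_of_dvd h1
      have e2 : y % p = 0 := Int.emod_eq_zero_of_dvd h2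
      rw [e1, e2] at key
      have key' : (p : ℤ) * (x / p - b * (y / p)) = x - b * y := by linarith
      have : |x / (p : ℤ) - b * (y / p)| ≤ |x - b * y| := by
        rw [← key', abs_mul, abs_of_pos hp']
        have := abs_nonneg (x / (p : ℤ) - b * (y / p))
        nlinarith
      simp [h1, h2]
      exact this
    · simp only [h1, h2, not_true_eq_false, not_false_eq_true, if_true, if_false]
      have h3 : (p : ℤ) * |x / (p : ℤ) - b * (y / p)| ≤ |x - b * y| + (b + 1) * p := by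
        rw [← abs_of_pos hp', ← abs_mul, abs_of_pos hp', key]
        rw [abs_le]
        have := neg_abs_le (x - b * y)
        have := le_abs_self (x - b * y)
        constructor <;> nlinarith
      have h4 : |x - b * y| ≤ (p : ℤ) * |x - b * y| := by
        have := abs_nonneg (x - b * y)
        nlinarith
      have h5 : (p : ℤ) * |x / (p : ℤ) - b * (y / p)| ≤ (p : ℤ) * (|x - b * y| + (b + 1)) := by
        linarith
      have := le_of_mul_le_mul_left h5 hp'
      linarith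
  · have h3 : (p : ℤ) * |x / (p : ℤ) - b * (y / p)| ≤ |x - b * y| + (b + 1) * p := by
      rw [← abs_of_pos hp', ← abs_mul, abs_of_pos hp', key]
      rw [abs_le]
      have := neg_abs_le (x - b * y)
      have := le_abs_self (x - b * y)
      constructor <;> nlinarith
    have h4 : |x - b * y| ≤ (p : ℤ) * |x - b * y| := by
      have := abs_nonneg (x - b * y)
      nlinarith
    have h5 : (p : ℤ) * |x / (p : ℤ) - b * (y / p)| ≤ (p : ℤ) * (|x - b * y| + (b + 1)) := by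
      linarith
    have h6 := le_of_mul_le_mul_left h5 hp'
    simp only [h1, not_false_eq_true, if_true]
    split_ifs <;> nlinarith

lemma V_div_le (p b : ℕ) (hp : 0 < p) (U : ℕ → ℤ) (N : ℕ) :
    V b (fun K => U K / p) N ≤ V b U N + 2 * (b + 1) * (bad p U N : ℤ) := by
  have hp' : (0 : ℤ) < p := by exact_mod_cast hp
  unfold V
  rw [Finset.sum_range_succ', Finset.sum_range_succ']
  have h0 : |dlt b (fun K => U K / p) 0| ≤ |dlt b U 0| := by
    simp only [dlt]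
    have e := Int.mul_ediv_add_emod (U 0) p
    have r0 := Int.emod_nonneg (U 0) hp'.ne'
    have r1 := Int.emod_lt_of_pos (U 0) hp'
    rcases le_or_gt 0 (U 0) with h | h
    · rw [abs_of_nonneg h, abs_of_nonneg (Int.ediv_nonneg h hp'.le)]
      exact Int.ediv_le_self _ h
    · have h2 : U 0 / p < 0 := Int.ediv_neg_of_neg_of_pos h hp'
      rw [abs_of_neg h, abs_of_neg h2]
      nlinarith
  have hbad : (bad p U N : ℤ) = ∑ K ∈ range (N + 1), (if ¬ (p : ℤ) ∣ U K then (1 : ℤ) else 0) := by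
    unfold bad
    rw [Finset.card_filter]
    push_cast
    rfl
  have h1 : ∑ k ∈ range N, (if ¬ (p : ℤ) ∣ U (k + 1) then (1 : ℤ) else 0) ≤ (bad p U N : ℤ) := by
    rw [hbad, Finset.sum_range_succ']
    have : (0 : ℤ) ≤ if ¬ (p : ℤ) ∣ U 0 then (1 : ℤ) else 0 := by split_ifs <;> norm_num
    linarith
  have h2 : ∑ k ∈ range N, (if ¬ (p : ℤ) ∣ U k then (1 : ℤ) else 0) ≤ (bad p U N : ℤ) := by
    rw [hbad, Finset.sum_range_succ]
    have : (0 : ℤ) ≤ if ¬ (p : ℤ) ∣ U N then (1 : ℤ) else 0 := by split_ifs <;> norm_num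
    linarith
  have h3 : ∑ k ∈ range N, |dlt b (fun K => U K / p) (k + 1)| ≤
      ∑ k ∈ range N, (|dlt b U (k + 1)| +
      (b + 1) * ((if ¬ (p : ℤ) ∣ U (k + 1) then 1 else 0) + (if ¬ (p : ℤ) ∣ U k then 1 else 0))) :=
    Finset.sum_le_sum fun k _ => dlt_div_le p b hp U k
  rw [Finset.sum_add_distrib, ← Finset.mul_sum, Finset.sum_add_distrib] at h3
  have hb1 : (0 : ℤ) ≤ (b : ℤ) + 1 := by positivity
  nlinarith [mul_le_mul_of_nonneg_left h1 hb1, mul_le_mul_of_nonneg_left h2 hb1]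

lemma approx_div (p b : ℕ) (hp : 0 < p) (U : ℕ → ℤ) (t C0 : ℝ)
    (hU : ∀ K, |(U K : ℝ) - (b : ℝ) ^ K * t| ≤ C0) (K : ℕ) :
    |(((U K / p : ℤ)) : ℝ) - (b : ℝ) ^ K * (t / p)| ≤ C0 + 1 := by
  have hp' : (0 : ℤ) < p := by exact_mod_cast hp
  have hp1 : (1 : ℝ) ≤ p := by exact_mod_cast hp
  have e := Int.mul_ediv_add_emod (U K) p
  have r0 := Int.emod_nonneg (U K) hp'.ne'
  have r1 := Int.emod_lt_of_pos (U K) hp'
  have e' : (p : ℝ) * ((U K / p : ℤ) : ℝ) + ((U K % p : ℤ) : ℝ) = (U K : ℝ) := by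
    exact_mod_cast e
  have r0' : (0 : ℝ) ≤ ((U K % p : ℤ) : ℝ) := by exact_mod_cast r0
  have r1' : ((U K % p : ℤ) : ℝ) ≤ (p : ℝ) := by exact_mod_cast r1.le
  have hC0 : 0 ≤ C0 := (abs_nonneg _).trans (hU K)
  have h1 : (p : ℝ) * |((U K / p : ℤ) : ℝ) - (b : ℝ) ^ K * (t / p)| ≤ C0 + p := by
    rw [← abs_of_pos (show (0 : ℝ) < p by linarith), ← abs_mul, abs_of_pos (show (0 : ℝ) < p by linarith)]
    have : (p : ℝ) * (((U K / p : ℤ) : ℝ) - (b : ℝ) ^ K * (t / p)) =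
        ((U K : ℝ) - (b : ℝ) ^ K * t) - ((U K % p : ℤ) : ℝ) := by
      have hp0 : (p : ℝ) ≠ 0 := by positivity
      field_simp
      linarith
    rw [this]
    refine (abs_sub _ _).trans ?_
    rw [abs_of_nonneg r0']
    linarith [hU K]
  have h2 := abs_nonneg (((U K / p : ℤ) : ℝ) - (b : ℝ) ^ K * (t / p))
  have h3 : C0 + p ≤ p * (C0 + 1) := by nlinarith
  exact le_of_mul_le_mul_left (h1.trans h3) (by linarith)

/-- One division step. -/
theorem step (p : ℕ) [Fact p.Prime] (b : ℕ) (hb : 2 ≤ b) (hbp : (b : ZMod p) ≠ 0)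
    (j : ℕ) (F : ℤ[X]) (α : ZMod p) (hα : α ≠ 0)
    (hF : F.map (Int.castRingHom (ZMod p)) = C α * X ^ (p ^ j)) (hD : 1 ≤ F.natDegree)
    (t C0 : ℝ) (ht : (F.map (Int.castRingHom ℝ)).eval t = 0) :
    ∃ C : ℝ, 0 < C ∧ ∀ U : ℕ → ℤ, (∀ K, |(U K : ℝ) - (b : ℝ) ^ K * t| ≤ C0) → ∀ N : ℕ,
      (bad p U N : ℝ) ≤ C * (1 + (V b U (p ^ j * N) : ℝ)) ^ F.natDegree ∧
      (V b (fun K => U K / p) N : ℝ) ≤ C * (1 + (V b U (p ^ j * N) : ℝ)) ^ F.natDegree := by
  have hp : p.Prime := Fact.out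
  obtain ⟨C1, hC1, h1⟩ := count_bound p b hb hbp j F α hα hF t C0 ht
  refine ⟨1 + 2 * (b + 1) * C1 + C1, by positivity, ?_⟩
  intro U hU N
  have hq : 0 < p ^ j := pow_pos hp.pos _
  have h2 := h1 U hU (p ^ j * N)
  have h3 : (bad p U N : ℝ) ≤ C1 * (1 + (V b U (p ^ j * N) : ℝ)) ^ F.natDegree := by
    refine le_trans ?_ h2
    exact_mod_cast bad_le_scaled p (p ^ j) hq U N
  have hV0 : (0 : ℝ) ≤ (V b U (p ^ j * N) : ℝ) := by exact_mod_cast V_nonneg b U _
  have h4 : (1 : ℝ) ≤ (1 + (V b U (p ^ j * N) : ℝ)) ^ F.natDegree := one_le_pow₀ (by linarith)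
  have h5 : (V b U N : ℝ) ≤ (V b U (p ^ j * N) : ℝ) := by
    exact_mod_cast V_mono b U (Nat.le_mul_of_pos_left _ hq)
  have h6 : (1 + (V b U (p ^ j * N) : ℝ)) ≤ (1 + (V b U (p ^ j * N) : ℝ)) ^ F.natDegree :=
    le_self_pow₀ (by linarith) (by omega)
  have hb0 : (0 : ℝ) ≤ 2 * ((b : ℝ) + 1) := by positivity
  constructor
  · refine h3.trans ?_
    apply mul_le_mul_of_nonneg_right _ (by positivity)
    nlinarith
  · have h7 : (V b (fun K => U K / p) N : ℝ) ≤ (V b U N : ℝ) + 2 * (b + 1) * (bad p U N : ℝ) := by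
      exact_mod_cast V_div_le p b hp.pos U N
    have h8 : 2 * ((b : ℝ) + 1) * (bad p U N : ℝ) ≤
        2 * (b + 1) * (C1 * (1 + (V b U (p ^ j * N) : ℝ)) ^ F.natDegree) :=
      mul_le_mul_of_nonneg_left h3 hb0
    have h9 : 0 ≤ C1 * (1 + (V b U (p ^ j * N) : ℝ)) ^ F.natDegree := by positivity
    nlinarith

end Pool.Agent.H323R2
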