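import Pool.Agent.H323R2.Div

/-!
From a polynomial inequality to a power lower bound.
-/

set_option autoImplicit false

namespace Pool.Agent.H323R2

open Filter

lemma power_bound (M : ℕ → ℕ) (κ : ℕ) (hκ : 1 ≤ κ) (C : ℝ) (hC : 0 < C)
    (h : ∀ N : ℕ, (N : ℝ) ≤ C * (1 + (M N : ℝ)) ^ κ) :
    ∃ c : ℝ, 0 < c ∧ ∀ᶠ N : ℕ in atTop, c * (N : ℝ) ^ ((1 : ℝ) / (κ : ℝ)) ≤ (M N : ℝ) := by
  have hκ' : (0 : ℝ) < κ := by exact_mod_cast hκ
  set D : ℝ := C ^ ((1 : ℝ) / (κ : ℝ)) with hD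
  have hD0 : 0 < D := Real.rpow_pos_of_pos hC _
  refine ⟨1 / (2 * D), by positivity, ?_⟩
  have hlim : Tendsto (fun N : ℕ => (N : ℝ) ^ ((1 : ℝ) / (κ : ℝ))) atTop atTop :=
    (tendsto_rpow_atTop (by positivity)).comp tendsto_natCast_atTop_atTop
  filter_upwards [hlim.eventually_ge_atTop (2 * D)] with N hN
  have h1 : (N : ℝ) ^ ((1 : ℝ) / (κ : ℝ)) ≤ D * (1 + (M N : ℝ)) := by
    have h2 := Real.rpow_le_rpow (by positivity) (h N) (show (0 : ℝ) ≤ 1 / (κ : ℝ) by positivity)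
    rw [Real.mul_rpow hC.le (by positivity), ← Real.rpow_natCast, ← Real.rpow_mul (by positivity),
      mul_one_div_cancel hκ'.ne', Real.rpow_one] at h2
    exact h2
  rw [div_mul_eq_mul_div, one_mul, div_le_iff₀ (by positivity)]
  nlinarith

end Pool.Agent.H323R2
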