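import Pool.Agent.H393R2.DC.Fin

/-!
General algebraic numbers: reduction of powers modulo a monic polynomial, the vector of partial
sums modulo `q`, the Frobenius relation.
-/

set_option autoImplicit false

namespace Pool.Agent.H323R2.Gen

open Polynomial Finset
open Pool.Agent.H393R2.DC (n1 S Pol dlt V)

/-- the remainder of `X^m` modulo `f` (monic of degree `d`) -/
noncomputable def rho (f : ℤ[X]) (d : ℕ) : ℕ → ℤ[X]
  | 0 => 1
  | m + 1 => X * rho f d m - C ((rho f d m).coeff (d - 1)) * f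

lemma rho_degree (f : ℤ[X]) (hf : f.Monic) (d : ℕ) (hd : f.natDegree = d) (hd1 : 1 ≤ d) (m : ℕ) :
    (rho f d m).natDegree < d := by
  induction m with
  | zero => simp [rho]; omega
  | succ m ih =>
    have h1 : (rho f d (m + 1)).natDegree ≤ d := by
      simp only [rho]
      refine (Polynomial.natDegree_sub_le _ _).trans (max_le ?_ ?_)
      · refine (Polynomial.natDegree_mul_le).trans ?_
        rw [Polynomial.natDegree_X]; omega
      · refine (Polynomial.natDegree_C_mul_le _ _).trans hd.le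
    rcases lt_or_eq_of_le h1 with h | h
    · exact h
    · exfalso
      have h2 : (rho f d (m + 1)).coeff d = 0 := by
        simp only [rho]
        rw [Polynomial.coeff_sub, Polynomial.coeff_C_mul]
        obtain ⟨e, rfl⟩ : ∃ e, d = e + 1 := ⟨d - 1, by omega⟩
        rw [Polynomial.coeff_X_mul]
        have : f.coeff (e + 1) = 1 := by
          rw [← hd]; exact hf
        rw [this]; simp
      have h3 : rho f d (m + 1) = 0 := by
        rw [← Polynomial.leadingCoeff_eq_zero, Polynomial.leadingCoeff, h, h2]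
      rw [h3] at h
      simp at h
      omega

lemma rho_dvd (f : ℤ[X]) (d m : ℕ) : f ∣ X ^ m - rho f d m := by
  induction m with
  | zero => simp [rho]
  | succ m ih =>
    simp only [rho]
    have : (X ^ (m + 1) - (X * rho f d m - C ((rho f d m).coeff (d - 1)) * f) : ℤ[X]) =
        X * (X ^ m - rho f d m) + C ((rho f d m).coeff (d - 1)) * f := by ring
    rw [this]
    exact dvd_add (Dvd.dvd.mul_left ih _) (Dvd.intro_left _ rfl)

lemma n1_X_mul_le (P : ℤ[X]) : n1 (X * P) ≤ n1 P := by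
  have h := Pool.Agent.H393R2.DC.n1_mul_le (X : ℤ[X]) P
  have h1 : n1 (X : ℤ[X]) = 1 := by
    rw [← Polynomial.monomial_one_one_eq_X, Pool.Agent.H393R2.DC.n1_monomial]; simp
  rw [h1, one_mul] at h
  exact h

lemma abs_coeff_le (P : ℤ[X]) (i : ℕ) : |P.coeff i| ≤ n1 P := by
  have := Pool.Agent.H393R2.DC.sum_abs_coeff_le P {i}
  simpa using this

lemma n1_rho_le (f : ℤ[X]) (d m : ℕ) : n1 (rho f d m) ≤ (1 + n1 f) ^ m := by
  have hf0 := Pool.Agent.H393R2.DC.n1_nonneg f
  induction m with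
  | zero => simp [rho, Pool.Agent.H393R2.DC.n1_one]
  | succ m ih =>
    simp only [rho]
    have h0 := Pool.Agent.H393R2.DC.n1_nonneg (rho f d m)
    calc n1 (X * rho f d m - C ((rho f d m).coeff (d - 1)) * f)
        ≤ n1 (X * rho f d m) + n1 (C ((rho f d m).coeff (d - 1)) * f) :=
          Pool.Agent.H393R2.DC.n1_sub_le _ _
      _ ≤ n1 (rho f d m) + |(rho f d m).coeff (d - 1)| * n1 f := by
          apply add_le_add (n1_X_mul_le _)
          refine (Pool.Agent.H393R2.DC.n1_mul_le _ _).trans ?_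
          rw [Pool.Agent.H393R2.DC.n1_C]
      _ ≤ n1 (rho f d m) + n1 (rho f d m) * n1 f := by
          have := mul_le_mul_of_nonneg_right (abs_coeff_le (rho f d m) (d - 1)) hf0
          linarith
      _ = n1 (rho f d m) * (1 + n1 f) := by ring
      _ ≤ (1 + n1 f) ^ m * (1 + n1 f) := mul_le_mul_of_nonneg_right ih (by linarith)
      _ = _ := by rw [pow_succ]

/-- the relation polynomial -/
noncomputable def Fr (f : ℤ[X]) (d m : ℕ) : ℤ[X] := X ^ m - rho f d m

lemma S_add (b : ℕ) (A B : ℤ[X]) (R : ℕ) : S b (A + B) R = S b A R + S b B R := by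
  unfold S
  rw [← Finset.sum_add_distrib]
  apply Finset.sum_congr rfl
  intro n _
  rw [Polynomial.coeff_add]; ring

lemma S_C_mul (b : ℕ) (B : ℤ[X]) (c : ℤ) (R : ℕ) : S b (C c * B) R = c * S b B R := by
  unfold S
  rw [Finset.mul_sum]
  apply Finset.sum_congr rfl
  intro n _
  rw [Polynomial.coeff_C_mul]
  ring

lemma S_zero' (b : ℕ) (R : ℕ) : S b (0 : ℤ[X]) R = 0 := by
  unfold S; simp

lemma S_sum {ι : Type} (b : ℕ) (s : Finset ι) (A : ι → ℤ[X]) (R : ℕ) :
    S b (∑ i ∈ s, A i) R = ∑ i ∈ s, S b (A i) R := by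
  classical
  induction s using Finset.induction_on with
  | empty => simp [S_zero']
  | insert a s ha ih => rw [Finset.sum_insert ha, Finset.sum_insert ha, S_add, ih]

/-- components of the vector of partial sums of powers mod `q` -/
noncomputable def vv (b : ℕ) (P : ℤ[X]) (q i R : ℕ) : ZMod q :=
  ((S b (P ^ i) R : ℤ) : ZMod q) * ((b : ZMod q)⁻¹) ^ R

/-- Frobenius -/
lemma vv_frob (b : ℕ) (P : ℤ[X]) (q : ℕ) [Fact q.Prime] (hb : (b : ZMod q) ≠ 0) (i R : ℕ) :
    vv b P q i (R / q) = vv b P q (i * q) R := by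
  have hF : ((X ^ q : ℤ[X]).map (Int.castRingHom (ZMod q))) = C (1 : ZMod q) * X ^ (q ^ 1) := by
    simp
  have h1 := Pool.Agent.H393R2.DC.S_comp_mod q b 1 (X ^ q) (P ^ i) 1 hF R
  rw [pow_one, Polynomial.X_pow_comp, ← pow_mul, one_mul] at h1
  unfold vv
  rw [h1]
  have e : R = R % q + q * (R / q) := (Nat.mod_add_div R q).symm
  have hbR : ((b : ZMod q)⁻¹) ^ R = ((b : ZMod q)⁻¹) ^ (R % q) * ((b : ZMod q)⁻¹) ^ (R / q) := by
    conv_lhs => rw [e]
    rw [pow_add, pow_mul, ZMod.pow_card]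
  rw [hbR]
  have hbb : (b : ZMod q) ^ (R % q) * ((b : ZMod q)⁻¹) ^ (R % q) = 1 := by
    rw [← mul_pow, mul_inv_cancel₀ hb, one_pow]
  calc ((S b (P ^ i) (R / q) : ℤ) : ZMod q) * ((b : ZMod q)⁻¹) ^ (R / q)
      = ((b : ZMod q) ^ (R % q) * ((b : ZMod q)⁻¹) ^ (R % q)) *
        (((S b (P ^ i) (R / q) : ℤ) : ZMod q) * ((b : ZMod q)⁻¹) ^ (R / q)) := by
        rw [hbb, one_mul]
    _ = _ := by ring

/-- reduction -/
lemma vv_red (f : ℤ[X]) (hf : f.Monic) (d : ℕ) (hd : f.natDegree = d) (hd1 : 1 ≤ d)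
    (b : ℕ) (P : ℤ[X]) (q m R : ℕ) (h : S b ((Fr f d m).comp P) R = 0) :
    vv b P q m R = ∑ j ∈ range d, (((rho f d m).coeff j : ℤ) : ZMod q) * vv b P q j R := by
  have h1 : (Fr f d m).comp P = P ^ m + C (-1) * ∑ j ∈ range d, C ((rho f d m).coeff j) * P ^ j := by
    unfold Fr
    rw [Polynomial.sub_comp, Polynomial.X_pow_comp]
    conv_lhs => rw [Polynomial.as_sum_range_C_mul_X_pow' (p := rho f d m) (rho_degree f hf d hd hd1 m)]
    rw [Polynomial.sum_comp]
    simp only [Polynomial.mul_comp, Polynomial.C_comp, Polynomial.X_pow_comp]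
    simp [sub_eq_add_neg]
  rw [h1, S_add, S_C_mul, S_sum] at h
  have h2 : S b (P ^ m) R = ∑ j ∈ range d, (rho f d m).coeff j * S b (P ^ j) R := by
    have : ∀ j ∈ range d, S b (C ((rho f d m).coeff j) * P ^ j) R =
        (rho f d m).coeff j * S b (P ^ j) R := fun j _ => S_C_mul _ _ _ _
    rw [Finset.sum_congr rfl this] at h
    linarith
  unfold vv
  rw [h2]
  push_cast
  rw [Finset.sum_mul]
  apply Finset.sum_congr rfl
  intro j _
  ring

/-- exceptional set -/
noncomputable def badG (f : ℤ[X]) (d b : ℕ) (P : ℤ[X]) (q N : ℕ) : Finset ℕ :=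
  (range d).biUnion fun i =>
    (range (N + 1)).filter (fun R => S b ((Fr f d (i * q)).comp P) R ≠ 0)

/-- the Frobenius matrix -/
noncomputable def MM (f : ℤ[X]) (d q : ℕ) : Matrix (Fin d) (Fin d) (ZMod q) :=
  Matrix.of fun i j => (((rho f d (i * q)).coeff j : ℤ) : ZMod q)

/-- the vector -/
noncomputable def ve (d b : ℕ) (P : ℤ[X]) (q R : ℕ) : Fin d → ZMod q := fun i => vv b P q i R

theorem ve_dil (f : ℤ[X]) (hf : f.Monic) (d : ℕ) (hd : f.natDegree = d) (hd1 : 1 ≤ d)
    (b : ℕ) (P : ℤ[X]) (q : ℕ) [Fact q.Prime] (hb : (b : ZMod q) ≠ 0) (N R : ℕ) (hR : R ≤ N)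
    (hbad : R ∉ badG f d b P q N) :
    ve d b P q (R / q) = (MM f d q).mulVec (ve d b P q R) := by
  funext i
  have h0 : S b ((Fr f d (i * q)).comp P) R = 0 := by
    by_contra hne
    apply hbad
    unfold badG
    rw [Finset.mem_biUnion]
    exact ⟨i, Finset.mem_range.2 i.2, Finset.mem_filter.2 ⟨Finset.mem_range.2 (by omega), hne⟩⟩
  have h1 := vv_red f hf d hd hd1 b P q (i * q) R h0
  simp only [ve, Matrix.mulVec, dotProduct, MM, Matrix.of_apply]
  rw [vv_frob b P q hb, h1, Finset.sum_range]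

end Pool.Agent.H323R2.Gen
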