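import Pool.Agent.H323R2.Gen1

/-!
Size of the exceptional sets.
-/

set_option autoImplicit false

namespace Pool.Agent.H323R2.Gen

open Polynomial Finset
open Pool.Agent.H393R2.DC (n1 S Pol dlt V)

lemma eval_sub_le (F : ℤ[X]) (D : ℕ) (hdeg : F.natDegree ≤ D) (u t T : ℝ) (hT1 : 1 ≤ T)
    (hu : |u| ≤ T) (ht : |t| ≤ T) :
    |(F.map (Int.castRingHom ℝ)).eval u - (F.map (Int.castRingHom ℝ)).eval t| ≤
      |u - t| * ((n1 F : ℝ) * (D * T ^ D)) := by
  have hev : ∀ w : ℝ, (F.map (Int.castRingHom ℝ)).eval w =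
      ∑ i ∈ range (D + 1), (F.coeff i : ℝ) * w ^ i := by
    intro w
    rw [Polynomial.eval_eq_sum_range' (n := D + 1)]
    · simp
    · exact lt_of_le_of_lt Polynomial.natDegree_map_le (by omega)
  rw [hev u, hev t, ← Finset.sum_sub_distrib]
  refine (Finset.abs_sum_le_sum_abs _ _).trans ?_
  calc ∑ i ∈ range (D + 1), |(F.coeff i : ℝ) * u ^ i - (F.coeff i : ℝ) * t ^ i|
      ≤ ∑ i ∈ range (D + 1), |(F.coeff i : ℝ)| * (|u - t| * (D * T ^ D)) := by
        apply Finset.sum_le_sum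
        intro i hi
        rw [Finset.mem_range] at hi
        rw [← mul_sub, abs_mul]
        apply mul_le_mul_of_nonneg_left _ (abs_nonneg _)
        refine (Pool.Agent.H393R2.DC.pow_sub_pow_le hu ht i).trans ?_
        apply mul_le_mul_of_nonneg_left _ (abs_nonneg _)
        have h1 : (i : ℝ) ≤ D := by exact_mod_cast (by omega : i ≤ D)
        have h2 : T ^ (i - 1) ≤ T ^ D := pow_le_pow_right₀ hT1 (by omega)
        exact mul_le_mul h1 h2 (by positivity) (by positivity)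
    _ = (∑ i ∈ range (D + 1), |(F.coeff i : ℝ)|) * (|u - t| * (D * T ^ D)) := by
        rw [Finset.sum_mul]
    _ ≤ (n1 F : ℝ) * (|u - t| * (D * T ^ D)) := by
        apply mul_le_mul_of_nonneg_right _ (by positivity)
        have := Pool.Agent.H393R2.DC.sum_abs_coeff_le F (range (D + 1))
        exact_mod_cast this
    _ = _ := by ring

lemma cardF (b : ℕ) (hb : 2 ≤ b) (t C0 T A : ℝ) (hT1 : 1 ≤ T) (hT : |t| + C0 ≤ T) (hA : 1 ≤ A)
    (U : ℕ → ℤ) (hU : ∀ K, |(U K : ℝ) - (b : ℝ) ^ K * t| ≤ C0) (N : ℕ) (F : ℤ[X]) (D : ℕ)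
    (hdeg : F.natDegree ≤ D) (hn : (n1 F : ℝ) ≤ A ^ D)
    (hF : (F.map (Int.castRingHom ℝ)).eval t = 0) (hD : 1 ≤ D) :
    (((range (N + 1)).filter (fun R => S b (F.comp (Pol b U N)) R ≠ 0)).card : ℝ) ≤
      (2 * A * T * (1 + b * C0) * (1 + (V b U N : ℝ))) ^ D := by
  have hC0 : 0 ≤ C0 := (abs_nonneg _).trans (hU 0)
  have hb1 : (2 : ℝ) ≤ b := by exact_mod_cast hb
  set P := Pol b U N with hP
  set u := (P.map (Int.castRingHom ℝ)).eval (1 / (b : ℝ)) with hu
  have hut : |u - t| ≤ C0 / (b : ℝ) ^ N := Pool.Agent.H393R2.DC.approx_Pol b hb U t C0 hU N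
  have hbN : (1 : ℝ) ≤ (b : ℝ) ^ N := one_le_pow₀ (by linarith)
  have hut2 : |u - t| ≤ C0 := hut.trans (div_le_self hC0 hbN)
  have huT : |u| ≤ T := by
    have : |u| ≤ |u - t| + |t| := by
      calc |u| = |(u - t) + t| := by ring_nf
        _ ≤ _ := abs_add_le _ _
    linarith
  have htT : |t| ≤ T := by linarith
  have hn1 : (n1 P : ℝ) ≤ (V b U N : ℝ) := by exact_mod_cast Pool.Agent.H393R2.DC.n1_Pol_le b U N
  have hn0 : (0 : ℝ) ≤ (n1 P : ℝ) := by exact_mod_cast Pool.Agent.H393R2.DC.n1_nonneg P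
  have hF0 : (0 : ℝ) ≤ (n1 F : ℝ) := by exact_mod_cast Pool.Agent.H393R2.DC.n1_nonneg F
  set W : ℝ := 1 + (V b U N : ℝ) with hW
  have hW1 : 1 ≤ W := by linarith
  have h1 := Pool.Agent.H393R2.DC.card_le_of_sum b hb (F.comp P) N
  have hev : ((F.comp P).map (Int.castRingHom ℝ)).eval (1 / (b : ℝ)) =
      (F.map (Int.castRingHom ℝ)).eval u := by
    rw [Polynomial.map_comp, Polynomial.eval_comp]
  have h2 : |(F.map (Int.castRingHom ℝ)).eval u| ≤ |u - t| * ((n1 F : ℝ) * (D * T ^ D)) := by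
    have := eval_sub_le F D hdeg u t T hT1 huT htT
    rw [hF, sub_zero] at this
    exact this
  have hbb : (b : ℝ) ^ (N + 1) * (C0 / (b : ℝ) ^ N) = b * C0 := by
    rw [pow_succ]; field_simp
  have h3 : (b : ℝ) ^ (N + 1) * |((F.comp P).map (Int.castRingHom ℝ)).eval (1 / (b : ℝ))| ≤
      b * C0 * (A ^ D * (2 ^ D * T ^ D)) := by
    rw [hev]
    calc (b : ℝ) ^ (N + 1) * |(F.map (Int.castRingHom ℝ)).eval u|
        ≤ (b : ℝ) ^ (N + 1) * ((C0 / (b : ℝ) ^ N) * ((n1 F : ℝ) * (D * T ^ D))) := by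
          apply mul_le_mul_of_nonneg_left _ (by positivity)
          refine h2.trans ?_
          apply mul_le_mul_of_nonneg_right hut
          positivity
      _ = b * C0 * ((n1 F : ℝ) * (D * T ^ D)) := by rw [← mul_assoc, hbb]
      _ ≤ b * C0 * (A ^ D * (2 ^ D * T ^ D)) := by
          apply mul_le_mul_of_nonneg_left _ (by positivity)
          have hD2 : (D : ℝ) ≤ 2 ^ D := by
            have : D ≤ 2 ^ D := Nat.lt_two_pow_self.le
            exact_mod_cast this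
          gcongr
  have h4 : (n1 (F.comp P) : ℝ) ≤ A ^ D * W ^ D := by
    have e1 : (n1 (F.comp P) : ℝ) ≤ (n1 F : ℝ) * (1 + (n1 P : ℝ)) ^ F.natDegree := by
      exact_mod_cast Pool.Agent.H393R2.DC.n1_comp_le F P
    refine e1.trans ?_
    apply mul_le_mul hn _ (by positivity) (by positivity)
    calc (1 + (n1 P : ℝ)) ^ F.natDegree ≤ W ^ F.natDegree :=
          pow_le_pow_left₀ (by linarith) (by linarith) _
      _ ≤ W ^ D := pow_le_pow_right₀ hW1 hdeg
  have hbC0 : 0 ≤ b * C0 := by positivity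
  have h5 : 1 + b * C0 ≤ (1 + b * C0) ^ D := by
    calc 1 + b * C0 = (1 + b * C0) ^ 1 := (pow_one _).symm
      _ ≤ _ := pow_le_pow_right₀ (by linarith) hD
  have h2T : 1 ≤ (2 : ℝ) ^ D * T ^ D := by
    rw [← mul_pow]; exact one_le_pow₀ (by linarith)
  have hWD : 1 ≤ W ^ D := one_le_pow₀ hW1
  calc (((range (N + 1)).filter (fun R => S b (F.comp P) R ≠ 0)).card : ℝ)
      ≤ A ^ D * W ^ D + b * C0 * (A ^ D * (2 ^ D * T ^ D)) := by linarith
    _ ≤ A ^ D * W ^ D * (2 ^ D * T ^ D) + b * C0 * (A ^ D * (2 ^ D * T ^ D)) * W ^ D := by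
        apply add_le_add
        · exact le_mul_of_one_le_right (by positivity) h2T
        · exact le_mul_of_one_le_right (by positivity) hWD
    _ = (1 + b * C0) * (A ^ D * (2 ^ D * T ^ D) * W ^ D) := by ring
    _ ≤ (1 + b * C0) ^ D * (A ^ D * (2 ^ D * T ^ D) * W ^ D) := by
        apply mul_le_mul_of_nonneg_right h5 (by positivity)
    _ = _ := by simp only [mul_pow]; ring

theorem badG_card (f : ℤ[X]) (hf : f.Monic) (d : ℕ) (hd : f.natDegree = d) (hd1 : 1 ≤ d)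
    (b : ℕ) (hb : 2 ≤ b) (t C0 : ℝ) (ht : (f.map (Int.castRingHom ℝ)).eval t = 0)
    (U : ℕ → ℤ) (hU : ∀ K, |(U K : ℝ) - (b : ℝ) ^ K * t| ≤ C0) :
    ∃ C : ℝ, 1 ≤ C ∧ ∀ N q : ℕ, 1 ≤ q →
      ((badG f d b (Pol b U N) q N).card : ℝ) ≤ (C * (1 + (V b U N : ℝ))) ^ (d * q) ∧
      (((range (N + 1)).filter (fun R => S b (f.comp (Pol b U N)) R ≠ 0)).card : ℝ) ≤
        (C * (1 + (V b U N : ℝ))) ^ (d * q) := by
  have hC0 : 0 ≤ C0 := (abs_nonneg _).trans (hU 0)
  have hf0 : (0 : ℝ) ≤ (n1 f : ℝ) := by exact_mod_cast Pool.Agent.H393R2.DC.n1_nonneg f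
  set A : ℝ := 2 * (1 + (n1 f : ℝ)) with hA
  set T : ℝ := 1 + |t| + C0 with hT
  have hA1 : 1 ≤ A := by linarith
  have hT1 : 1 ≤ T := by have := abs_nonneg t; linarith
  have hTt : |t| + C0 ≤ T := by linarith
  have hbC0 : 0 ≤ b * C0 := by positivity
  set C1 : ℝ := 2 * A * T * (1 + b * C0) with hC1
  have hC11 : 1 ≤ C1 := by
    have h1 : 1 ≤ 2 * A := by linarith
    have h2 : 1 ≤ 1 + b * C0 := by linarith
    calc (1 : ℝ) = 1 * 1 * 1 := by norm_num
      _ ≤ 2 * A * T * (1 + b * C0) := by gcongr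
  have hd1R : (1 : ℝ) ≤ d := by exact_mod_cast hd1
  refine ⟨d * C1, by nlinarith, fun N q hq => ?_⟩
  have hV0 : (0 : ℝ) ≤ (V b U N : ℝ) := by exact_mod_cast Pool.Agent.H393R2.DC.V_nonneg b U N
  set W : ℝ := 1 + (V b U N : ℝ) with hW
  have hW1 : 1 ≤ W := by linarith
  have hdq : 1 ≤ d * q := Nat.mul_pos hd1 hq
  have hddq : d ≤ d * q := Nat.le_mul_of_pos_right _ hq
  have hAD : A ^ (d * q) = 2 ^ (d * q) * (1 + (n1 f : ℝ)) ^ (d * q) := by
    rw [hA, mul_pow]
  have h2D : (2 : ℝ) ≤ 2 ^ (d * q) := by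
    calc (2 : ℝ) = 2 ^ 1 := (pow_one _).symm
      _ ≤ 2 ^ (d * q) := pow_le_pow_right₀ (by norm_num) hdq
  have hB1 : 1 ≤ (1 + (n1 f : ℝ)) ^ (d * q) := one_le_pow₀ (by linarith)
  have hCW : C1 * W ≤ d * C1 * W := by
    have : 0 ≤ C1 * W := by positivity
    nlinarith
  have hCW0 : 0 ≤ C1 * W := by positivity
  constructor
  · unfold badG
    have hcard : ∀ i ∈ range d, (((range (N + 1)).filter
        (fun R => S b ((Fr f d (i * q)).comp (Pol b U N)) R ≠ 0)).card : ℝ) ≤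
        (C1 * W) ^ (d * q) := by
      intro i hi
      rw [Finset.mem_range] at hi
      have hiq : i * q ≤ d * q := Nat.mul_le_mul_right _ hi.le
      refine cardF b hb t C0 T A hT1 hTt hA1 U hU N _ (d * q) ?_ ?_ ?_ hdq
      · unfold Fr
        refine (Polynomial.natDegree_sub_le _ _).trans (max_le ?_ ?_)
        · rw [Polynomial.natDegree_X_pow]; exact hiq
        · exact (rho_degree f hf d hd hd1 _).le.trans hddq
      · have e1 : n1 (Fr f d (i * q)) ≤ 1 + (1 + n1 f) ^ (i * q) := by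
          unfold Fr
          refine (Pool.Agent.H393R2.DC.n1_sub_le _ _).trans ?_
          apply add_le_add _ (n1_rho_le _ _ _)
          rw [← Polynomial.monomial_one_right_eq_X_pow, Pool.Agent.H393R2.DC.n1_monomial]
          simp
        have e2 : (n1 (Fr f d (i * q)) : ℝ) ≤ 1 + (1 + (n1 f : ℝ)) ^ (i * q) := by
          exact_mod_cast e1
        have e3 : (1 + (n1 f : ℝ)) ^ (i * q) ≤ (1 + (n1 f : ℝ)) ^ (d * q) :=
          pow_le_pow_right₀ (by linarith) hiq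
        rw [hAD]
        nlinarith
      · obtain ⟨h, hh⟩ := rho_dvd f d (i * q)
        unfold Fr
        rw [hh, Polynomial.map_mul, Polynomial.eval_mul, ht, zero_mul]
    calc (((range d).biUnion fun i => (range (N + 1)).filter
        (fun R => S b ((Fr f d (i * q)).comp (Pol b U N)) R ≠ 0)).card : ℝ)
        ≤ ((∑ i ∈ range d, ((range (N + 1)).filter
        (fun R => S b ((Fr f d (i * q)).comp (Pol b U N)) R ≠ 0)).card : ℕ) : ℝ) := by
          exact_mod_cast Finset.card_biUnion_le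
      _ ≤ ∑ i ∈ range d, (C1 * W) ^ (d * q) := by
          push_cast
          exact Finset.sum_le_sum hcard
      _ = d * (C1 * W) ^ (d * q) := by simp
      _ ≤ (d : ℝ) ^ (d * q) * (C1 * W) ^ (d * q) := by
          apply mul_le_mul_of_nonneg_right _ (by positivity)
          calc (d : ℝ) = (d : ℝ) ^ 1 := (pow_one _).symm
            _ ≤ _ := pow_le_pow_right₀ hd1R hdq
      _ = (d * C1 * W) ^ (d * q) := by rw [← mul_pow, ← mul_assoc (d : ℝ) C1 W]
  · have h1 := cardF b hb t C0 T A hT1 hTt hA1 U hU N f (d * q) (by rw [hd]; exact hddq) (by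
      rw [hAD]
      have e1 : (1 + (n1 f : ℝ)) ≤ (1 + (n1 f : ℝ)) ^ (d * q) := by
        calc (1 + (n1 f : ℝ)) = (1 + (n1 f : ℝ)) ^ 1 := (pow_one _).symm
          _ ≤ _ := pow_le_pow_right₀ (by linarith) hdq
      nlinarith) ht hdq
    refine h1.trans ?_
    exact pow_le_pow_left₀ hCW0 hCW _

end Pool.Agent.H323R2.Gen
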