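import Pool.Agent.H323R2.NT2
import Pool.Agent.H393R2.DC.Digits

/-!
Sequences `Y_n = b^n B x + O(1)`, `x` a real algebraic irrational number.
-/

set_option autoImplicit false

namespace Pool.Agent.H323R2.Gen

open Finset Filter Topology Polynomial
open Pool.Agent.H393R2.DC (S Pol dlt V Dn)

theorem main_alg (x : ℝ) (halg : IsAlgebraic ℚ x) (hirr : Irrational x) (b : ℕ) (hb : 2 ≤ b)
    (B : ℤ) (hB : B ≠ 0) (C0 : ℝ) (Y : ℕ → ℤ)
    (hY : ∀ K, |(Y K : ℝ) - (b : ℝ) ^ K * (B * x)| ≤ C0) :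
    ∃ c : ℝ, 0 < c ∧ ∃ N0 : ℕ, ∀ N : ℕ, N0 ≤ N →
      c * (Real.log N) ^ 2 / (Real.log (Real.log N)) ^ 3 ≤ ((Dn b Y N).card : ℝ) := by
  have halg2 : IsAlgebraic ℤ ((B : ℝ) * x) := by
    have h1 : IsAlgebraic ℚ ((B : ℝ) * x) := by
      have h2 : IsAlgebraic ℚ ((B : ℚ) • x) := halg.smul _
      have h3 : ((B : ℚ) • x) = (B : ℝ) * x := by
        rw [Algebra.smul_def]; simp
      rwa [h3] at h2
    exact (IsFractionRing.isAlgebraic_iff ℤ ℚ ℝ).2 h1
  obtain ⟨a, ha, hint⟩ := halg2.exists_integral_multiple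
  have hsm : (a • ((B : ℝ) * x)) = (a : ℝ) * ((B : ℝ) * x) := by simp
  rw [hsm] at hint
  set t : ℝ := (a : ℝ) * ((B : ℝ) * x) with ht
  have htirr : Irrational t := by
    rw [ht, ← mul_assoc]
    have h1 : (a : ℝ) * (B : ℝ) = ((a * B : ℤ) : ℝ) := by push_cast; rfl
    rw [h1]
    exact hirr.intCast_mul (mul_ne_zero ha hB)
  set f : ℤ[X] := minpoly ℤ t with hf
  have hmonic : f.Monic := minpoly.monic hint
  have hfirr : Irreducible f := minpoly.irreducible hint
  have hroot : (f.map (Int.castRingHom ℝ)).eval t = 0 := by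
    have := minpoly.aeval ℤ t
    rw [aeval_def, ← eval_map] at this
    exact this
  have hd2 : 2 ≤ f.natDegree := by
    have h1 : 0 < f.natDegree := minpoly.natDegree_pos hint
    have h2 : f.natDegree ≠ 1 := by
      intro h
      rw [hf, minpoly.natDegree_eq_one_iff] at h
      obtain ⟨k, hk⟩ := h
      apply htirr
      exact ⟨(k : ℚ), by rw [← hk]; simp⟩
    omega
  obtain ⟨c, hc, N0, hN0⟩ := main_gen f hmonic f.natDegree rfl hd2 b hb t (|(a : ℝ)| * C0) hroot
    (fun n => a * Y n) (by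
      intro K
      have e : (((a * Y K : ℤ)) : ℝ) - (b : ℝ) ^ K * t =
          (a : ℝ) * ((Y K : ℝ) - (b : ℝ) ^ K * (B * x)) := by
        rw [ht]; push_cast; ring
      rw [e, abs_mul]
      exact mul_le_mul_of_nonneg_left (hY K) (abs_nonneg _))
    (Pool.Agent.H323R2.NT.supply f hmonic hfirr hd2 b (by omega))
  refine ⟨c, hc, N0, fun N hN => (hN0 N hN).trans ?_⟩
  have hsub : Dn b (fun n => a * Y n) N ⊆ Dn b Y N := by
    intro k hk
    unfold Dn at hk ⊢
    rw [Finset.mem_filter] at hk ⊢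
    refine ⟨hk.1, fun h => hk.2 ?_⟩
    cases k with
    | zero =>
      simp only [dlt] at h ⊢
      rw [h, mul_zero]
    | succ k =>
      simp only [dlt] at h ⊢
      linear_combination a * h
  exact_mod_cast Finset.card_le_card hsub

end Pool.Agent.H323R2.Gen
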