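import Pool.Agent.H323R2.Fin

/-!
Numbers all of whose sparse approximating sequences have variation at least a power of `N`.
-/

set_option autoImplicit false

namespace Pool.Agent.H323R2

open Polynomial Finset

/-- every integer sequence `U_K = b^K t + O(1)` has base `b` variation at least a power of `N` -/
def Good (b : ℕ) (t : ℝ) : Prop :=
  ∀ C0 : ℝ, ∃ C : ℝ, 0 < C ∧ ∃ m κ : ℕ, 1 ≤ m ∧ 1 ≤ κ ∧ ∀ U : ℕ → ℤ,
    (∀ K, |(U K : ℝ) - (b : ℝ) ^ K * t| ≤ C0) →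
    ∀ N : ℕ, (N : ℝ) ≤ C * (1 + (V b U (m * N) : ℝ)) ^ κ

theorem good_of_const (p : ℕ) [Fact p.Prime] (b : ℕ) (hb : 2 ≤ b) (hbp : (b : ZMod p) ≠ 0)
    (F : ℤ[X]) (α : ZMod p) (hα : α ≠ 0)
    (hF : F.map (Int.castRingHom (ZMod p)) = C α) (t : ℝ)
    (ht : (F.map (Int.castRingHom ℝ)).eval t = 0) : Good b t := by
  intro C0
  obtain ⟨C1, hC1, h1⟩ := count_bound_const p b hb hbp F α hα hF t C0 ht
  refine ⟨C1, hC1, 1, F.natDegree + 1, le_rfl, Nat.le_add_left 1 _, ?_⟩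
  intro U hU N
  have h2 := h1 U hU N
  have hV0 : (0 : ℝ) ≤ (V b U N : ℝ) := by exact_mod_cast V_nonneg b U _
  rw [one_mul]
  have h3 : (1 + (V b U N : ℝ)) ^ F.natDegree ≤ (1 + (V b U N : ℝ)) ^ (F.natDegree + 1) :=
    pow_le_pow_right₀ (by linarith) (Nat.le_succ _)
  have h4 := mul_le_mul_of_nonneg_left h3 hC1.le
  linarith

theorem good_step (p : ℕ) [Fact p.Prime] (b : ℕ) (hb : 2 ≤ b) (hbp : (b : ZMod p) ≠ 0)
    (j : ℕ) (F : ℤ[X]) (α : ZMod p) (hα : α ≠ 0)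
    (hF : F.map (Int.castRingHom (ZMod p)) = C α * X ^ (p ^ j)) (hD : 1 ≤ F.natDegree)
    (t : ℝ) (ht : (F.map (Int.castRingHom ℝ)).eval t = 0) (h : Good b (t / p)) : Good b t := by
  have hp : p.Prime := Fact.out
  intro C0
  obtain ⟨C1, hC1, h1⟩ := step p b hb hbp j F α hα hF hD t C0 ht
  obtain ⟨C2, hC2, m, κ, hm, hκ, h2⟩ := h (C0 + 1)
  have hq : 0 < p ^ j := pow_pos hp.pos _
  refine ⟨C2 * (1 + C1) ^ κ, by positivity, p ^ j * m, F.natDegree * κ,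
    Nat.mul_pos hq hm, Nat.mul_pos hD hκ, ?_⟩
  intro U hU N
  have h3 := (h1 U hU (m * N)).2
  have h4 := h2 (fun K => U K / p) (approx_div p b hp.pos U t C0 hU) N
  rw [← mul_assoc] at h3
  set W : ℝ := 1 + (V b U (p ^ j * m * N) : ℝ) with hW
  have hV0 : (0 : ℝ) ≤ (V b U (p ^ j * m * N) : ℝ) := by exact_mod_cast V_nonneg b U _
  have hV1 : (0 : ℝ) ≤ (V b (fun K => U K / p) (m * N) : ℝ) := by
    exact_mod_cast V_nonneg b _ _
  have hW1 : 1 ≤ W := by linarith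
  have h5 : (1 : ℝ) ≤ W ^ F.natDegree := one_le_pow₀ hW1
  have h6 : 1 + (V b (fun K => U K / p) (m * N) : ℝ) ≤ (1 + C1) * W ^ F.natDegree := by
    nlinarith
  calc (N : ℝ) ≤ C2 * (1 + (V b (fun K => U K / p) (m * N) : ℝ)) ^ κ := h4
    _ ≤ C2 * ((1 + C1) * W ^ F.natDegree) ^ κ := by
        apply mul_le_mul_of_nonneg_left _ hC2.le
        exact pow_le_pow_left₀ (by linarith) h6 _
    _ = C2 * (1 + C1) ^ κ * W ^ (F.natDegree * κ) := by
        rw [mul_pow, ← pow_mul]; ring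

/-- truncation error -/
lemma abs_S_sub_le (b : ℕ) (hb : 2 ≤ b) (G : ℤ[X]) (M : ℕ) :
    |(S b G M : ℝ) - (b : ℝ) ^ M * (G.map (Int.castRingHom ℝ)).eval (1 / (b : ℝ))| ≤ (n1 G : ℝ) := by
  have hb0 : (0 : ℝ) < b := by positivity
  have hb1 : (1 : ℝ) ≤ b := by exact_mod_cast (by omega : 1 ≤ b)
  set n := G.natDegree + M + 2 with hn
  have hev : (G.map (Int.castRingHom ℝ)).eval (1 / (b : ℝ)) =
      ∑ i ∈ range n, (G.coeff i : ℝ) * (1 / (b : ℝ)) ^ i := by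
    rw [Polynomial.eval_eq_sum_range' (n := n)]
    · simp
    · calc (G.map (Int.castRingHom ℝ)).natDegree ≤ G.natDegree := Polynomial.natDegree_map_le
        _ < n := by omega
  have hsplit : (b : ℝ) ^ M * (G.map (Int.castRingHom ℝ)).eval (1 / (b : ℝ)) =
      (S b G M : ℝ) + ∑ i ∈ Ico (M + 1) n, (b : ℝ) ^ M * ((G.coeff i : ℝ) * (1 / (b : ℝ)) ^ i) := by
    rw [hev, Finset.mul_sum, ← Finset.sum_range_add_sum_Ico _ (show M + 1 ≤ n by omega)]
    congr 1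
    unfold S
    push_cast
    apply Finset.sum_congr rfl
    intro i hi
    have hi' : i ≤ M := Nat.lt_succ_iff.1 (Finset.mem_range.1 hi)
    have : (b : ℝ) ^ M = (b : ℝ) ^ (M - i) * (b : ℝ) ^ i := by
      rw [← pow_add]; congr 1; omega
    rw [this, one_div, inv_pow]
    have hbi : (b : ℝ) ^ i ≠ 0 := by positivity
    field_simp
  have htail : |∑ i ∈ Ico (M + 1) n, (b : ℝ) ^ M * ((G.coeff i : ℝ) * (1 / (b : ℝ)) ^ i)| ≤
      ∑ i ∈ Ico (M + 1) n, |(G.coeff i : ℝ)| := by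
    refine (Finset.abs_sum_le_sum_abs _ _).trans ?_
    apply Finset.sum_le_sum
    intro i hi
    rw [Finset.mem_Ico] at hi
    rw [abs_mul, abs_mul, abs_of_pos (pow_pos hb0 M), abs_of_pos (show (0:ℝ) < (1 / (b : ℝ)) ^ i by positivity)]
    have h1 : (b : ℝ) ^ M * (1 / (b : ℝ)) ^ i ≤ 1 := by
      rw [one_div, inv_pow, ← div_eq_mul_inv, div_le_one (by positivity)]
      exact pow_le_pow_right₀ hb1 (by omega)
    calc (b : ℝ) ^ M * (|(G.coeff i : ℝ)| * (1 / (b : ℝ)) ^ i)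
        = |(G.coeff i : ℝ)| * ((b : ℝ) ^ M * (1 / (b : ℝ)) ^ i) := by ring
      _ ≤ |(G.coeff i : ℝ)| * 1 := mul_le_mul_of_nonneg_left h1 (abs_nonneg _)
      _ = _ := mul_one _
  have hn1 : ∑ i ∈ Ico (M + 1) n, |(G.coeff i : ℝ)| ≤ (n1 G : ℝ) := by
    have := sum_abs_coeff_le G (Ico (M + 1) n)
    exact_mod_cast this
  rw [hsplit]
  rw [show (S b G M : ℝ) - ((S b G M : ℝ) + ∑ i ∈ Ico (M + 1) n, (b : ℝ) ^ M *
    ((G.coeff i : ℝ) * (1 / (b : ℝ)) ^ i)) = -∑ i ∈ Ico (M + 1) n, (b : ℝ) ^ M *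
    ((G.coeff i : ℝ) * (1 / (b : ℝ)) ^ i) by ring, abs_neg]
  exact htail.trans hn1

/-- sum of the errors of `S_K - b^K s` -/
lemma sum_abs_S_sub_le (b : ℕ) (hb : 2 ≤ b) (G : ℤ[X]) (s : ℝ) (N : ℕ) :
    ∑ K ∈ range (N + 1), |(S b G K : ℝ) - (b : ℝ) ^ K * s| ≤
      2 * |(S b G N : ℝ) - (b : ℝ) ^ N * s| + (n1 G : ℝ) := by
  have hb1 : (2 : ℝ) ≤ b := by exact_mod_cast hb
  set e : ℕ → ℝ := fun K => |(S b G K : ℝ) - (b : ℝ) ^ K * s| with he
  have hstep : ∀ R : ℕ, 2 * e R ≤ e (R + 1) + |(G.coeff (R + 1) : ℝ)| := by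
    intro R
    have h1 : (b : ℝ) * ((S b G R : ℝ) - (b : ℝ) ^ R * s) =
        ((S b G (R + 1) : ℝ) - (b : ℝ) ^ (R + 1) * s) - (G.coeff (R + 1) : ℝ) := by
      rw [S_succ]; push_cast; rw [pow_succ]; ring
    have h2 : |(b : ℝ) * ((S b G R : ℝ) - (b : ℝ) ^ R * s)| = (b : ℝ) * e R := by
      rw [abs_mul, abs_of_pos (by positivity)]
    have h3 : |((S b G (R + 1) : ℝ) - (b : ℝ) ^ (R + 1) * s) - (G.coeff (R + 1) : ℝ)| ≤
        e (R + 1) + |(G.coeff (R + 1) : ℝ)| := abs_sub _ _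
    rw [← h1, h2] at h3
    have h4 : (2 : ℝ) * e R ≤ (b : ℝ) * e R := mul_le_mul_of_nonneg_right hb1 (abs_nonneg _)
    linarith
  have hsum : ∑ R ∈ range N, 2 * e R ≤
      ∑ R ∈ range N, (e (R + 1) + |(G.coeff (R + 1) : ℝ)|) :=
    Finset.sum_le_sum fun R _ => hstep R
  rw [← Finset.mul_sum, Finset.sum_add_distrib] at hsum
  have e1 : ∑ R ∈ range (N + 1), e R = ∑ R ∈ range N, e (R + 1) + e 0 :=
    Finset.sum_range_succ' _ _
  have e2 : ∑ R ∈ range (N + 1), e R = ∑ R ∈ range N, e R + e N :=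
    Finset.sum_range_succ _ _
  have e3 : ∑ n ∈ range (N + 1), |(G.coeff n : ℝ)| =
      ∑ n ∈ range N, |(G.coeff (n + 1) : ℝ)| + |(G.coeff 0 : ℝ)| :=
    Finset.sum_range_succ' _ _
  have e4 : ∑ n ∈ range (N + 1), |(G.coeff n : ℝ)| ≤ (n1 G : ℝ) := by
    have := sum_abs_coeff_le G (range (N + 1))
    exact_mod_cast this
  have e5 : 0 ≤ e 0 := abs_nonneg _
  have e6 := abs_nonneg (G.coeff 0 : ℝ)
  linarith

lemma abs_round_sub_le (y : ℝ) (s : ℤ) : |((round y : ℤ) : ℝ) - s| ≤ 2 * |(s : ℝ) - y| := by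
  have h1 := abs_sub_round y
  have h2 : |((round y : ℤ) : ℝ) - s| ≤ |y - round y| + |(s : ℝ) - y| := by
    have := abs_add_le (-(y - round y)) (-((s : ℝ) - y))
    rw [abs_neg, abs_neg] at this
    calc |((round y : ℤ) : ℝ) - s| = |-(y - round y) + -((s : ℝ) - y)| := by congr 1; ring
      _ ≤ _ := this
  by_cases h : round y = s
  · rw [h]; simp
  · have h3 : (1 : ℤ) ≤ |round y - s| := Int.one_le_abs (sub_ne_zero.2 h)
    have h4 : (1 : ℝ) ≤ |((round y : ℤ) : ℝ) - s| := by exact_mod_cast h3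
    linarith

/-- polynomial images -/
theorem good_of_poly (b : ℕ) (hb : 2 ≤ b) (g : ℤ[X]) (t : ℝ)
    (h : Good b ((g.map (Int.castRingHom ℝ)).eval t)) : Good b t := by
  intro C0
  set s : ℝ := (g.map (Int.castRingHom ℝ)).eval t with hs
  obtain ⟨C2, hC2, m, κ, hm, hκ, h2⟩ := h (1 / 2)
  -- Lipschitz constant
  have hroot : ((g.map (Int.castRingHom ℝ)) - C s).IsRoot t := by
    simp [Polynomial.IsRoot, hs]
  have hfac : (X - C t) * (((g.map (Int.castRingHom ℝ)) - C s) /ₘ (X - C t)) =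
      (g.map (Int.castRingHom ℝ)) - C s := mul_divByMonic_eq_iff_isRoot.2 hroot
  set H := ((g.map (Int.castRingHom ℝ)) - C s) /ₘ (X - C t) with hH
  obtain ⟨L, hL⟩ := (isCompact_Icc (a := t - |C0|) (b := t + |C0|)).exists_bound_of_continuousOn
    (f := fun u => H.eval u) H.continuous.continuousOn
  have hL0 : 0 ≤ L := (norm_nonneg _).trans (hL t ⟨by linarith [abs_nonneg C0], by linarith [abs_nonneg C0]⟩)
  have hb0 : (0 : ℝ) < b := by positivity
  have hb1 : (1 : ℝ) ≤ b := by exact_mod_cast (by omega : 1 ≤ b)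
  have hg0 : (0 : ℝ) ≤ (n1 g : ℝ) := by exact_mod_cast n1_nonneg g
  -- the main estimate
  obtain ⟨C1, hC1, key⟩ : ∃ C1 : ℝ, 0 < C1 ∧ ∀ U : ℕ → ℤ,
      (∀ K, |(U K : ℝ) - (b : ℝ) ^ K * t| ≤ C0) → ∀ M : ℕ,
      (V b (fun K => round ((b : ℝ) ^ K * s)) M : ℝ) ≤ C1 * (1 + (V b U M : ℝ)) ^ g.natDegree := by
    refine ⟨(n1 g : ℝ) + (b + 1) * (6 * (n1 g : ℝ) + 4 * (|C0| * L)) + 1, by positivity, ?_⟩
    intro U hU M
    set P := Pol b U M with hP
    set Q := g.comp P with hQ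
    set U' : ℕ → ℤ := fun K => round ((b : ℝ) ^ K * s) with hU'
    have hbM : (1 : ℝ) ≤ (b : ℝ) ^ M := one_le_pow₀ hb1
    set u := (P.map (Int.castRingHom ℝ)).eval (1 / (b : ℝ)) with hu
    have hut0 : |u - t| ≤ C0 / (b : ℝ) ^ M := approx_Pol b hb U t C0 hU M
    have hut : |u - t| ≤ |C0| / (b : ℝ) ^ M :=
      hut0.trans (div_le_div_of_nonneg_right (le_abs_self _) (by positivity))
    have hut' : |u - t| ≤ |C0| := hut.trans (div_le_self (abs_nonneg _) hbM)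
    have hmem : u ∈ Set.Icc (t - |C0|) (t + |C0|) := by
      rw [abs_le] at hut'
      exact ⟨by linarith [hut'.1], by linarith [hut'.2]⟩
    have hHu : |H.eval u| ≤ L := hL u hmem
    have hevc : (Q.map (Int.castRingHom ℝ)).eval (1 / (b : ℝ)) =
        (g.map (Int.castRingHom ℝ)).eval u := by
      rw [hQ, Polynomial.map_comp, Polynomial.eval_comp]
    have hgu : |(g.map (Int.castRingHom ℝ)).eval u - s| ≤ (|C0| / (b : ℝ) ^ M) * L := by
      have : (g.map (Int.castRingHom ℝ)).eval u - s = (u - t) * H.eval u := by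
        have h0 := congrArg (fun f => Polynomial.eval u f) hfac
        simp only [Polynomial.eval_mul, Polynomial.eval_sub, Polynomial.eval_X,
          Polynomial.eval_C] at h0
        exact h0.symm
      rw [this, abs_mul]
      exact mul_le_mul hut hHu (abs_nonneg _) (by positivity)
    have hend : |(S b Q M : ℝ) - (b : ℝ) ^ M * s| ≤ (n1 Q : ℝ) + |C0| * L := by
      have h3 := abs_S_sub_le b hb Q M
      rw [hevc] at h3
      have h4 : |(b : ℝ) ^ M * ((g.map (Int.castRingHom ℝ)).eval u - s)| ≤ |C0| * L := by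
        rw [abs_mul, abs_of_pos (by positivity)]
        calc (b : ℝ) ^ M * |(g.map (Int.castRingHom ℝ)).eval u - s|
            ≤ (b : ℝ) ^ M * ((|C0| / (b : ℝ) ^ M) * L) :=
              mul_le_mul_of_nonneg_left hgu (by positivity)
          _ = |C0| * L := by field_simp
      calc |(S b Q M : ℝ) - (b : ℝ) ^ M * s|
          = |((S b Q M : ℝ) - (b : ℝ) ^ M * (g.map (Int.castRingHom ℝ)).eval u) +
            (b : ℝ) ^ M * ((g.map (Int.castRingHom ℝ)).eval u - s)| := by congr 1; ring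
        _ ≤ _ := (abs_add_le _ _).trans (add_le_add h3 h4)
    have hsum := sum_abs_S_sub_le b hb Q s M
    -- rounding errors
    set E : ℕ → ℝ := fun K => |((U' K : ℤ) : ℝ) - (S b Q K : ℝ)| with hE
    have hEs : ∑ K ∈ range (M + 1), E K ≤ 6 * (n1 Q : ℝ) + 4 * (|C0| * L) := by
      have h3 : ∑ K ∈ range (M + 1), E K ≤
          ∑ K ∈ range (M + 1), 2 * |(S b Q K : ℝ) - (b : ℝ) ^ K * s| :=
        Finset.sum_le_sum fun K _ => abs_round_sub_le _ _
      rw [← Finset.mul_sum] at h3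
      linarith
    have hE0 : ∀ K, 0 ≤ E K := fun K => abs_nonneg _
    have hd0 : (|dlt b U' 0| : ℝ) ≤ |(Q.coeff 0 : ℝ)| + E 0 := by
      simp only [dlt, hE]
      rw [S_zero]
      have := abs_add_le (((U' 0 : ℤ) : ℝ) - (Q.coeff 0 : ℝ)) (Q.coeff 0 : ℝ)
      rw [sub_add_cancel] at this
      linarith
    have hd : ∀ k : ℕ, (|dlt b U' (k + 1)| : ℝ) ≤ |(Q.coeff (k + 1) : ℝ)| + E (k + 1) + b * E k := by
      intro k
      have h3 : ((dlt b U' (k + 1) : ℤ) : ℝ) = (Q.coeff (k + 1) : ℝ) +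
          (((U' (k + 1) : ℤ) : ℝ) - (S b Q (k + 1) : ℝ)) - b * (((U' k : ℤ) : ℝ) - (S b Q k : ℝ)) := by
        rw [S_succ]; simp only [dlt]; push_cast; ring
      rw [h3]
      refine (abs_sub _ _).trans ?_
      rw [abs_mul, abs_of_pos hb0]
      have := abs_add_le (Q.coeff (k + 1) : ℝ) (((U' (k + 1) : ℤ) : ℝ) - (S b Q (k + 1) : ℝ))
      linarith
    have hV : (V b U' M : ℝ) ≤ (n1 Q : ℝ) + (b + 1) * ∑ K ∈ range (M + 1), E K := by
      have e0 : (V b U' M : ℝ) = ∑ k ∈ range M, (|dlt b U' (k + 1)| : ℝ) + (|dlt b U' 0| : ℝ) := by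
        unfold V
        push_cast
        rw [Finset.sum_range_succ']
      have e1 : ∑ n ∈ range (M + 1), |(Q.coeff n : ℝ)| =
          ∑ n ∈ range M, |(Q.coeff (n + 1) : ℝ)| + |(Q.coeff 0 : ℝ)| := Finset.sum_range_succ' _ _
      have e2 : ∑ n ∈ range (M + 1), |(Q.coeff n : ℝ)| ≤ (n1 Q : ℝ) := by
        have := sum_abs_coeff_le Q (range (M + 1))
        exact_mod_cast this
      have e3 : ∑ K ∈ range (M + 1), E K = ∑ k ∈ range M, E (k + 1) + E 0 :=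
        Finset.sum_range_succ' _ _
      have e4 : ∑ K ∈ range (M + 1), E K = ∑ k ∈ range M, E k + E M :=
        Finset.sum_range_succ _ _
      have e5 : ∑ k ∈ range M, (|dlt b U' (k + 1)| : ℝ) ≤
          ∑ k ∈ range M, (|(Q.coeff (k + 1) : ℝ)| + E (k + 1) + b * E k) :=
        Finset.sum_le_sum fun k _ => hd k
      rw [Finset.sum_add_distrib, Finset.sum_add_distrib, ← Finset.mul_sum] at e5
      have e6 : (b : ℝ) * ∑ k ∈ range M, E k ≤ b * ∑ K ∈ range (M + 1), E K := by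
        apply mul_le_mul_of_nonneg_left _ hb0.le
        rw [e4]; linarith [hE0 M]
      rw [e0]
      linarith
    have hQ1 : (n1 Q : ℝ) ≤ (n1 g : ℝ) * (1 + (n1 P : ℝ)) ^ g.natDegree := by
      exact_mod_cast n1_comp_le g P
    have hP1 : (n1 P : ℝ) ≤ (V b U M : ℝ) := by exact_mod_cast n1_Pol_le b U M
    have hP0 : (0 : ℝ) ≤ (n1 P : ℝ) := by exact_mod_cast n1_nonneg P
    have hT : (1 + (n1 P : ℝ)) ^ g.natDegree ≤ (1 + (V b U M : ℝ)) ^ g.natDegree :=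
      pow_le_pow_left₀ (by linarith) (by linarith) _
    set T : ℝ := (1 + (V b U M : ℝ)) ^ g.natDegree with hTdef
    have hT1 : (1 : ℝ) ≤ T := one_le_pow₀ (by linarith)
    have hQT : (n1 Q : ℝ) ≤ (n1 g : ℝ) * T := hQ1.trans (mul_le_mul_of_nonneg_left hT hg0)
    have hCL : 0 ≤ |C0| * L := by positivity
    have h7 : (b + 1 : ℝ) * ∑ K ∈ range (M + 1), E K ≤
        (b + 1) * ((6 * (n1 g : ℝ) + 4 * (|C0| * L)) * T) := by
      apply mul_le_mul_of_nonneg_left _ (by positivity)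
      nlinarith
    nlinarith
  refine ⟨C2 * (1 + C1) ^ κ, by positivity, m, (g.natDegree + 1) * κ, hm,
    Nat.mul_pos (Nat.succ_pos _) hκ, ?_⟩
  intro U hU N
  have h4 := h2 (fun K => round ((b : ℝ) ^ K * s)) (fun K => by
    rw [abs_sub_comm]; exact abs_sub_round _) N
  have h3 := key U hU (m * N)
  set W : ℝ := 1 + (V b U (m * N) : ℝ) with hW
  have hV0 : (0 : ℝ) ≤ (V b U (m * N) : ℝ) := by exact_mod_cast V_nonneg b U _
  have hV1 : (0 : ℝ) ≤ (V b (fun K => round ((b : ℝ) ^ K * s)) (m * N) : ℝ) := by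
    exact_mod_cast V_nonneg b _ _
  have hW1 : 1 ≤ W := by linarith
  have h5 : (1 : ℝ) ≤ W ^ (g.natDegree + 1) := one_le_pow₀ hW1
  have h5' : W ^ g.natDegree ≤ W ^ (g.natDegree + 1) := pow_le_pow_right₀ hW1 (Nat.le_succ _)
  have h6 : 1 + (V b (fun K => round ((b : ℝ) ^ K * s)) (m * N) : ℝ) ≤
      (1 + C1) * W ^ (g.natDegree + 1) := by
    nlinarith
  calc (N : ℝ) ≤ C2 * (1 + (V b (fun K => round ((b : ℝ) ^ K * s)) (m * N) : ℝ)) ^ κ := h4
    _ ≤ C2 * ((1 + C1) * W ^ (g.natDegree + 1)) ^ κ := by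
        apply mul_le_mul_of_nonneg_left _ hC2.le
        exact pow_le_pow_left₀ (by linarith) h6 _
    _ = C2 * (1 + C1) ^ κ * W ^ ((g.natDegree + 1) * κ) := by
        rw [mul_pow, ← pow_mul]; ring

end Pool.Agent.H323R2
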