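import Mathlib
import Pool.Agent.H922R2.OPC.Stubs

/-! Project OPC, task JID: the Jacobian identity. -/

set_option autoImplicit false

open MvPolynomial

namespace Pool.Agent.H323R2.OPCJ

open Pool.Agent.H922R2.OPC

variable {k : Type} [Field k]

theorem coeff_single' (i w : ℤ) (p : Polynomial k) :
    (HahnSeries.single i p : L k).coeff w = if w = i then p else 0 := by
  by_cases h : w = i
  · subst h
    rw [if_pos rfl, HahnSeries.coeff_single_same]
  · rw [if_neg h, HahnSeries.coeff_single_of_ne h]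

/-- `Ψ` of a monomial -/
theorem psi_single {a b : ℕ} {Ψ : L k →+* L k} (hb : 0 < b) (hΨ : IsPsi a b Ψ) (i : ℤ) (m : ℕ)
    (c : k) : Ψ (HahnSeries.single i (Polynomial.monomial m c)) =
      HahnSeries.single ((b : ℤ) * i + a * m) (Polynomial.monomial m c) := by
  have hb' : (b : ℤ) ≠ 0 := by exact_mod_cast hb.ne'
  ext w j
  rw [hΨ, coeff_single', coeff_single']
  by_cases hj : m = j
  · subst hj
    by_cases hw : w = (b : ℤ) * i + a * m
    · have h1 : w - a * m = (b : ℤ) * i := by rw [hw]; ring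
      rw [if_pos hw, h1, if_pos (dvd_mul_right _ _), Int.mul_ediv_cancel_left _ hb', if_pos rfl]
    · rw [if_neg hw]
      split_ifs with h1 h2
      · exfalso
        apply hw
        obtain ⟨q, hq⟩ := h1
        rw [hq, Int.mul_ediv_cancel_left _ hb'] at h2
        rw [h2] at hq
        linarith
      · rfl
      · rfl
  · have h0 : (Polynomial.monomial m c : Polynomial k).coeff j = 0 := by
      rw [Polynomial.coeff_monomial, if_neg hj]
    split_ifs <;> simp [h0]

theorem psi_C {a b : ℕ} {Ψ : L k →+* L k} (hb : 0 < b) (hΨ : IsPsi a b Ψ) (i : ℤ) (c : k) :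
    Ψ (HahnSeries.single i (Polynomial.C c)) =
      HahnSeries.single ((b : ℤ) * i) (Polynomial.C c) := by
  have h := psi_single hb hΨ i 0 c
  rw [Polynomial.monomial_zero_left] at h
  rw [h]
  congr 2
  push_cast
  ring

theorem psi_X {a b : ℕ} {Ψ : L k →+* L k} (hb : 0 < b) (hΨ : IsPsi a b Ψ) :
    Ψ lam = HahnSeries.single (a : ℤ) Polynomial.X := by
  have h := psi_single hb hΨ 0 1 (1 : k)
  have hX : (Polynomial.monomial 1 (1 : k)) = Polynomial.X := rfl
  rw [hX] at h
  unfold lam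
  rw [h]
  congr 2
  push_cast
  ring

theorem dX_single {dX : Derivation k (L k) (L k)}
    (hX : ∀ h w, (dX h).coeff w = Polynomial.derivative (h.coeff w)) (i : ℤ) (p : Polynomial k) :
    dX (HahnSeries.single i p) = HahnSeries.single i (Polynomial.derivative p) := by
  ext w : 2
  rw [hX, coeff_single', coeff_single']
  split_ifs <;> simp

theorem dT_single {dT : Derivation k (L k) (L k)}
    (hT : ∀ h w, (dT h).coeff w = ((w + 1 : ℤ) : Polynomial k) * h.coeff (w + 1))
    (i : ℤ) (p : Polynomial k) :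
    dT (HahnSeries.single i p) = HahnSeries.single (i - 1) ((i : Polynomial k) * p) := by
  ext w : 2
  rw [hT, coeff_single', coeff_single']
  by_cases h : w + 1 = i
  · have h' : w = i - 1 := by linarith
    rw [if_pos h, if_pos h', h]
  · have h' : ¬ w = i - 1 := fun h2 => h (by linarith)
    rw [if_neg h, if_neg h', mul_zero]

theorem jid (k : Type) [Field k] [IsAlgClosed k] [CharZero k] : S_JID k := by
  intro _ hCHN hJSB hEVF D a b Ψ hb hΨ dX dT hX hT
  obtain ⟨ε, hε⟩ : ∃ ε : B k →+* L k, ε = Ψ.comp (D.e₁ : B k →+* L k) := ⟨_, rfl⟩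
  have hεa : ∀ h, ε h = Ψ (D.e₁ h) := fun h => by rw [hε]; rfl
  have hεC : ∀ c : k, ε (C c) = HahnSeries.single 0 (Polynomial.C c) := by
    intro c
    rw [hεa]
    have h1 : D.e₁ (C c) = HahnSeries.single 0 (Polynomial.C c) := by
      rw [← MvPolynomial.algebraMap_eq, AlgHom.commutes, HahnSeries.algebraMap_apply',
        PowerSeries.algebraMap_apply, HahnSeries.ofPowerSeries_C, HahnSeries.C_apply]
      rfl
    rw [h1, psi_C hb hΨ, mul_zero]
  have hXC : ∀ c, dX (ε (C c)) = 0 := by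
    intro c
    rw [hεC, dX_single hX, Polynomial.derivative_C, HahnSeries.single_eq_zero]
  have hTC : ∀ c, dT (ε (C c)) = 0 := by
    intro c
    rw [hεC, dT_single hT]
    simp
  have cX := hCHN ε dX hXC
  have cT := hCHN ε dT hTC
  have hn : 0 < D.n₁ := D.h₁.1
  -- the image of x
  have hx : ε (X 0) = HahnSeries.single (-((b * D.n₁ : ℕ) : ℤ)) (Polynomial.C 1) := by
    rw [hεa]
    have h1 : D.e₁ (X 0) = HahnSeries.single (-(D.n₁ : ℤ)) (Polynomial.C 1) := by
      unfold TC.e₁ ev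
      rw [aeval_X]
      simp [tp]
    rw [h1, psi_C hb hΨ]
    congr 2
    push_cast
    ring
  have hdXx : dX (ε (X 0)) = 0 := by
    rw [hx, dX_single hX, Polynomial.derivative_C, HahnSeries.single_eq_zero]
  have hdTx : dT (ε (X 0)) = HahnSeries.single (-((b * D.n₁ : ℕ) : ℤ) - 1)
      (Polynomial.C (-((b * D.n₁ : ℕ) : k))) := by
    rw [hx, dT_single hT]
    congr 1
    rw [map_one, mul_one]
    push_cast
    simp
  -- the image of f₁
  have hf1 : HahnSeries.single (a : ℤ) (Polynomial.C 1) =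
      ε (pderiv 1 D.f₁) * dX (ε (X 1)) := by
    have h1 := cX D.f₁
    rw [hdXx, mul_zero, zero_add] at h1
    rw [← h1, hεa]
    have h2 : D.e₁ D.f₁ = lam := hEVF D.n₁ D.f₁ D.φ₁ D.ζ₁ D.h₁
    rw [h2, psi_X hb hΨ, dX_single hX, Polynomial.derivative_X, map_one]
  -- the Jacobian
  obtain ⟨u, hu, hPQ⟩ : ∃ u : k, u ≠ 0 ∧ jac D.P D.Q = C u := by
    obtain ⟨u, hu, h⟩ := MvPolynomial.isUnit_iff_eq_C_of_isReduced.1 D.hJ
    exact ⟨u, hu.ne_zero, h⟩
  have hFX : D.F (X 0) = D.P := by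
    unfold TC.F sb
    rw [aeval_X]
    rfl
  have hjac : jac (D.F D.f₂) D.P = -(D.F (pderiv 1 D.f₂)) * C u := by
    have h1 := hJSB D.P D.Q D.f₂ (X 0)
    have h2 : jac D.f₂ (X 0 : B k) = -(pderiv 1 D.f₂) := by
      unfold jac
      rw [pderiv_X_self, pderiv_X_of_ne (by decide)]
      ring
    rw [h2, hPQ] at h1
    rw [← hFX]
    unfold TC.F
    rw [h1, map_neg]
  have hbn : ((b * D.n₁ : ℕ) : k) ≠ 0 := by
    exact_mod_cast (Nat.mul_pos hb hn).ne'
  refine ⟨-(u * -((b * D.n₁ : ℕ) : k)) * -1, ?_, ?_⟩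
  · simp [hu, hbn]
    exact ⟨hb.ne', hn.ne'⟩
  · have hg1 := cX (D.F D.f₂)
    have hg2 := cT (D.F D.f₂)
    have hp1 := cX D.P
    have hp2 := cT D.P
    rw [hdXx, mul_zero, zero_add] at hg1 hp1
    simp only [← hεa]
    have hj : ε (pderiv 0 (D.F D.f₂)) * ε (pderiv 1 D.P) -
        ε (pderiv 1 (D.F D.f₂)) * ε (pderiv 0 D.P) =
        -(ε (D.F (pderiv 1 D.f₂))) * ε (C u) := by
      rw [← map_mul, ← map_mul, ← map_sub, ← map_neg, ← map_mul, ← hjac]
      rfl
    have key : (dX (ε (D.F D.f₂)) * dT (ε D.P) - dT (ε (D.F D.f₂)) * dX (ε D.P)) *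
        ε (pderiv 1 D.f₁) =
        -(ε (pderiv 0 (D.F D.f₂)) * ε (pderiv 1 D.P) -
          ε (pderiv 1 (D.F D.f₂)) * ε (pderiv 0 D.P)) *
          dT (ε (X 0)) * (ε (pderiv 1 D.f₁) * dX (ε (X 1))) := by
      rw [hg1, hg2, hp1, hp2]
      ring
    rw [key, hj, ← hf1, hdTx, hεC]
    have hs : HahnSeries.single ((a : ℤ) - ((b * D.n₁ : ℕ) : ℤ) - 1)
        (Polynomial.C (-(u * -((b * D.n₁ : ℕ) : k)) * -1)) =
        (HahnSeries.single 0 (Polynomial.C u) : L k) *
          HahnSeries.single (-((b * D.n₁ : ℕ) : ℤ) - 1)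
            (Polynomial.C (-((b * D.n₁ : ℕ) : k))) *
          HahnSeries.single (a : ℤ) (Polynomial.C 1) := by
      rw [HahnSeries.single_mul_single, HahnSeries.single_mul_single, ← Polynomial.C_mul,
        ← Polynomial.C_mul]
      congr 2
      · ring
      · ring
    rw [hs]
    ring

end Pool.Agent.H323R2.OPCJ
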