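import Mathlib
import Pool.Agent.H925R3.RR.Stubs

/-! Real closeness to the point at infinity is additive. -/

namespace Pool.Agent.H323R2.RRA

open Pool.Agent.H925R3.DC Pool.Agent.H925R3.RR

/-- a point with large coordinate has positive coordinate -/
theorem pos_of_large {a b x : ℝ} (hx : 10 * (1 + |a| + |b|) < |x|)
    (hy : ∃ y : ℝ, y ^ 2 = x ^ 3 + a * x + b) : 0 < x := by
  obtain ⟨y, hy⟩ := hy
  by_contra hneg
  have hx0 : x ≤ 0 := not_lt.1 hneg
  rw [abs_of_nonpos hx0] at hx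
  have ha := abs_nonneg a
  have hb := abs_nonneg b
  set t := -x with ht
  have hxt : x = -t := by rw [ht]; ring
  have ht10 : 10 < t := by linarith
  have hat : |a| ≤ t / 10 := by linarith
  have hbt : |b| ≤ t / 10 := by linarith
  have h1 : 0 ≤ x ^ 3 + a * x + b := by rw [← hy]; positivity
  rw [hxt] at h1
  have h2 : -a * t ≤ |a| * t := mul_le_mul_of_nonneg_right (neg_le_abs a) (by linarith)
  have h3 : |a| * t ≤ t / 10 * t := mul_le_mul_of_nonneg_right hat (by linarith)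
  have h4 : b ≤ |b| := le_abs_self b
  have h5 : (-t) ^ 3 + a * (-t) + b ≤ -t ^ 3 + t / 10 * t + t / 10 := by nlinarith
  have h6 : 10 * t ^ 2 ≤ t ^ 3 := by nlinarith [sq_nonneg t]
  have h7 : 10 * t ≤ t ^ 2 := by nlinarith
  nlinarith

/-- the case of different coordinates -/
theorem main_ne {a b x₁ x₂ X Y : ℝ} (h1 : 10 * (1 + |a| + |b|) < x₁)
    (h2 : 10 * (1 + |a| + |b|) < x₂) (hne : x₁ ≠ x₂)
    (hs : (X + Y) * (x₁ - x₂) ^ 2 = 2 * (x₁ + x₂) * (x₁ * x₂ + a) + 4 * b)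
    (hp : X * Y * (x₁ - x₂) ^ 2 = (x₁ * x₂ - a) ^ 2 - 4 * b * (x₁ + x₂)) :
    min x₁ x₂ ≤ 12 * Y := by
  have ha := abs_nonneg a
  have hb := abs_nonneg b
  have ha1 : a ≤ |a| := le_abs_self a
  have ha2 : -|a| ≤ a := neg_abs_le a
  have hb1 : b ≤ |b| := le_abs_self b
  have hb2 : -|b| ≤ b := neg_abs_le b
  set p := x₁ * x₂ with hpdef
  set s := x₁ + x₂ with hsdef
  have hx1 : 10 < x₁ := by linarith
  have hx2 : 10 < x₂ := by linarith
  have hp1 : 10 * x₁ ≤ p := by rw [hpdef]; nlinarith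
  have hp2 : 10 * x₂ ≤ p := by rw [hpdef]; nlinarith
  have hp0 : 100 < p := by linarith
  have hs0 : 20 < s := by linarith
  have hsp : s ≤ p / 5 := by linarith
  have hap : |a| ≤ p / 100 := by linarith
  have hbp : |b| ≤ p / 100 := by linarith
  have hd : 0 < (x₁ - x₂) ^ 2 := by
    have : x₁ - x₂ ≠ 0 := sub_ne_zero.2 hne
    positivity
  set d := (x₁ - x₂) ^ 2 with hddef
  have e1 : s * a ≤ s * (p / 100) := mul_le_mul_of_nonneg_left (by linarith) (by linarith)
  have e2 : s * (-(p / 100)) ≤ s * a := mul_le_mul_of_nonneg_left (by linarith) (by linarith)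
  have e3 : 20 * p ≤ s * p := mul_le_mul_of_nonneg_right hs0.le (by linarith)
  have hN1u : 2 * s * (p + a) + 4 * b ≤ 3 * (s * p) := by nlinarith
  have hN1l : 0 < 2 * s * (p + a) + 4 * b := by nlinarith
  have e4 : p * a ≤ p * (p / 100) := mul_le_mul_of_nonneg_left (by linarith) (by linarith)
  have e5 : b * s ≤ (p / 100) * (p / 5) := by
    calc b * s ≤ |b| * s := mul_le_mul_of_nonneg_right hb1 (by linarith)
      _ ≤ (p / 100) * (p / 5) := mul_le_mul hbp hsp (by linarith) (by linarith)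
  have hN2 : p ^ 2 / 2 ≤ (p - a) ^ 2 - 4 * b * s := by nlinarith [sq_nonneg a, sq_nonneg p]
  have hXYd : p ^ 2 / 2 ≤ X * Y * d := by rw [hp]; exact hN2
  have hXY : 0 < X * Y := by
    by_contra hc
    have : X * Y * d ≤ 0 := mul_nonpos_of_nonpos_of_nonneg (not_lt.1 hc) hd.le
    nlinarith [sq_nonneg p]
  have hXpY : 0 < X + Y := by
    by_contra hc
    have : (X + Y) * d ≤ 0 := mul_nonpos_of_nonpos_of_nonneg (not_lt.1 hc) hd.le
    linarith
  have hX : 0 < X := by
    by_contra hc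
    have hX' : X ≤ 0 := not_lt.1 hc
    have hY' : 0 < Y := by linarith
    have : X * Y ≤ 0 := mul_nonpos_of_nonpos_of_nonneg hX' hY'.le
    linarith
  have hY : 0 < Y := by
    by_contra hc
    have hY' : Y ≤ 0 := not_lt.1 hc
    have : X * Y ≤ 0 := mul_nonpos_of_nonneg_of_nonpos hX.le hY'
    linarith
  have hXd : X * d ≤ 3 * (s * p) := by
    have h5 : (X + Y) * d ≤ 3 * (s * p) := by rw [hs]; exact hN1u
    have h6 : 0 < Y * d := mul_pos hY hd
    nlinarith
  have h7 : p ^ 2 / 2 ≤ Y * (3 * (s * p)) := by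
    calc p ^ 2 / 2 ≤ X * Y * d := hXYd
      _ = Y * (X * d) := by ring
      _ ≤ Y * (3 * (s * p)) := mul_le_mul_of_nonneg_left hXd hY.le
  have h8 : p ≤ 6 * Y * s := by
    have h9 : p * p ≤ p * (6 * Y * s) := by nlinarith
    exact le_of_mul_le_mul_left h9 (by linarith)
  rcases le_total x₁ x₂ with h | h
  · rw [min_eq_left h]
    have h10 : s ≤ 2 * x₂ := by linarith
    have h11 : x₁ * x₂ ≤ 12 * Y * x₂ := by
      calc x₁ * x₂ = p := hpdef.symm
        _ ≤ 6 * Y * s := h8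
        _ ≤ 6 * Y * (2 * x₂) := mul_le_mul_of_nonneg_left h10 (by linarith)
        _ = 12 * Y * x₂ := by ring
    exact le_of_mul_le_mul_right h11 (by linarith)
  · rw [min_eq_right h]
    have h10 : s ≤ 2 * x₁ := by linarith
    have h11 : x₂ * x₁ ≤ 12 * Y * x₁ := by
      calc x₂ * x₁ = p := by rw [hpdef]; ring
        _ ≤ 6 * Y * s := h8
        _ ≤ 6 * Y * (2 * x₁) := mul_le_mul_of_nonneg_left h10 (by linarith)
        _ = 12 * Y * x₁ := by ring
    exact le_of_mul_le_mul_right h11 (by linarith)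

/-- the case of equal coordinates -/
theorem main_eq {a b x Y : ℝ} (h1 : 10 * (1 + |a| + |b|) < x)
    (hd : Y * (4 * (x ^ 3 + a * x + b)) = x ^ 4 - 2 * a * x ^ 2 - 8 * b * x + a ^ 2) :
    x ≤ 12 * Y := by
  have ha := abs_nonneg a
  have hb := abs_nonneg b
  have ha1 : a ≤ |a| := le_abs_self a
  have ha2 : -|a| ≤ a := neg_abs_le a
  have hb1 : b ≤ |b| := le_abs_self b
  have hb2 : -|b| ≤ b := neg_abs_le b
  have hx : 10 < x := by linarith
  have hax : |a| ≤ x / 10 := by linarith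
  have hbx : |b| ≤ x / 10 := by linarith
  have hx2 : 10 * x ≤ x ^ 2 := by nlinarith
  have hx3 : 10 * x ^ 2 ≤ x ^ 3 := by nlinarith [sq_nonneg x]
  have hx4 : 10 * x ^ 3 ≤ x ^ 4 := by nlinarith [sq_nonneg x, pow_pos (show (0:ℝ) < x by linarith) 3]
  have e1 : a * x ≤ x / 10 * x := mul_le_mul_of_nonneg_right (by linarith) (by linarith)
  have e2 : -(x / 10) * x ≤ a * x := mul_le_mul_of_nonneg_right (by linarith) (by linarith)
  have e3 : a * x ^ 2 ≤ x / 10 * x ^ 2 := mul_le_mul_of_nonneg_right (by linarith) (sq_nonneg x)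
  have e4 : b * x ≤ x / 10 * x := mul_le_mul_of_nonneg_right (by linarith) (by linarith)
  have hDu : 4 * (x ^ 3 + a * x + b) ≤ 6 * x ^ 3 := by nlinarith
  have hDl : 0 < 4 * (x ^ 3 + a * x + b) := by nlinarith
  have hN : x ^ 4 / 2 ≤ x ^ 4 - 2 * a * x ^ 2 - 8 * b * x + a ^ 2 := by
    nlinarith [sq_nonneg a]
  have hY : 0 < Y := by
    by_contra hc
    have : Y * (4 * (x ^ 3 + a * x + b)) ≤ 0 :=
      mul_nonpos_of_nonpos_of_nonneg (not_lt.1 hc) hDl.le
    have h4 : 0 < x ^ 4 := by positivity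
    linarith
  have h5 : x ^ 4 / 2 ≤ Y * (6 * x ^ 3) := by
    calc x ^ 4 / 2 ≤ _ := hN
      _ = Y * (4 * (x ^ 3 + a * x + b)) := hd.symm
      _ ≤ Y * (6 * x ^ 3) := mul_le_mul_of_nonneg_left hDu hY.le
  have hx30 : 0 < x ^ 3 := by positivity
  have h6 : x * x ^ 3 ≤ 12 * Y * x ^ 3 := by nlinarith
  exact le_of_mul_le_mul_right h6 hx30

theorem asub : Pool.Agent.H925R3.RR.ASUB := by
  intro hFSP hFDB hFEQ a b
  set M : ℝ := 10 * (1 + |(a : ℝ)| + |(b : ℝ)|) with hM
  have hM0 : 10 ≤ M := by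
    have := abs_nonneg (a : ℝ)
    have := abs_nonneg (b : ℝ)
    rw [hM]; linarith
  refine ⟨M + 12, by linarith, ?_⟩
  intro P Q hP hQ hPQ
  set x₁ : ℝ := ((xc P : ℚ) : ℝ) with hx1
  set x₂ : ℝ := ((xc Q : ℚ) : ℝ) with hx2
  have hmax : (1 : ℝ) ≤ max 1 |((xc (P - Q) : ℚ) : ℝ)| := le_max_left _ _
  rcases le_or_gt (min |x₁| |x₂|) M with hle | hgt
  · calc min |x₁| |x₂| ≤ M := hle
      _ ≤ (M + 12) * 1 := by linarith
      _ ≤ (M + 12) * max 1 |((xc (P - Q) : ℚ) : ℝ)| :=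
        mul_le_mul_of_nonneg_left hmax (by linarith)
  · have hg1 : M < |x₁| := lt_of_lt_of_le hgt (min_le_left _ _)
    have hg2 : M < |x₂| := lt_of_lt_of_le hgt (min_le_right _ _)
    have hp1 : 0 < x₁ := by
      refine pos_of_large hg1 ?_
      obtain ⟨y, hy⟩ := (hFEQ ℚ (a : ℚ) (b : ℚ) P P).2.2 hP
      refine ⟨(y : ℝ), ?_⟩
      have := congrArg (fun q : ℚ => (q : ℝ)) hy
      push_cast at this
      rw [hx1]
      linarith
    have hp2 : 0 < x₂ := by
      refine pos_of_large hg2 ?_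
      obtain ⟨y, hy⟩ := (hFEQ ℚ (a : ℚ) (b : ℚ) Q Q).2.2 hQ
      refine ⟨(y : ℝ), ?_⟩
      have := congrArg (fun q : ℚ => (q : ℝ)) hy
      push_cast at this
      rw [hx2]
      linarith
    have hkey : min x₁ x₂ ≤ 12 * ((xc (P - Q) : ℚ) : ℝ) := by
      by_cases hx : xc P = xc Q
      · have hPnQ : P = -Q := by
          rcases (hFEQ ℚ (a : ℚ) (b : ℚ) P Q).2.1 hP hQ hx with h | h
          · exact absurd h hPQ
          · exact h
        have hQP : Q = -P := by rw [hPnQ, neg_neg]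
        have hsub : P - Q = P + P := by rw [hQP, sub_neg_eq_add]
        have hne : P + P ≠ 0 := by
          intro h
          apply hPQ
          rw [hQP]
          exact eq_neg_of_add_eq_zero_left h
        have hdb := (hFDB ℚ (a : ℚ) (b : ℚ) P hP hne).2
        rw [hsub]
        have hx12 : x₂ = x₁ := by rw [hx1, hx2, hx]
        rw [hx12, min_self]
        refine main_eq (a := (a : ℝ)) (b := (b : ℝ)) (by rw [abs_of_pos hp1] at hg1; exact hg1) ?_
        have := congrArg (fun q : ℚ => (q : ℝ)) hdb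
        push_cast at this
        rw [hx1]
        exact this
      · obtain ⟨-, -, hs, hp⟩ := hFSP ℚ (a : ℚ) (b : ℚ) P Q hP hQ hx
        refine main_ne (a := (a : ℝ)) (b := (b : ℝ)) (X := ((xc (P + Q) : ℚ) : ℝ))
          (by rw [abs_of_pos hp1] at hg1; exact hg1)
          (by rw [abs_of_pos hp2] at hg2; exact hg2) ?_ ?_ ?_
        · rw [hx1, hx2]
          exact_mod_cast hx
        · have := congrArg (fun q : ℚ => (q : ℝ)) hs
          push_cast at this
          rw [hx1, hx2]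
          exact this
        · have := congrArg (fun q : ℚ => (q : ℝ)) hp
          push_cast at this
          rw [hx1, hx2]
          exact this
    rw [abs_of_pos hp1, abs_of_pos hp2]
    have hYle : ((xc (P - Q) : ℚ) : ℝ) ≤ max 1 |((xc (P - Q) : ℚ) : ℝ)| :=
      (le_abs_self _).trans (le_max_right _ _)
    calc min x₁ x₂ ≤ 12 * ((xc (P - Q) : ℚ) : ℝ) := hkey
      _ ≤ 12 * max 1 |((xc (P - Q) : ℚ) : ℝ)| := by linarith
      _ ≤ (M + 12) * max 1 |((xc (P - Q) : ℚ) : ℝ)| :=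
        mul_le_mul_of_nonneg_right (by linarith) (by linarith)

end Pool.Agent.H323R2.RRA
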