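import Pool.Agent.H323R2.Chg

/-!
Linear relations between consecutive binary digits of `√2`.
-/

set_option autoImplicit false

namespace Pool.Agent.H323R2

open Polynomial Finset

/-- product formula for `S` -/
lemma S_mul (b : ℕ) (G H : ℤ[X]) (R : ℕ) :
    S b (G * H) R = ∑ x ∈ range (R + 1), G.coeff x * S b H (R - x) := by
  induction R with
  | zero => simp [S_zero, mul_coeff_zero]
  | succ R ih =>
    rw [S_succ, ih, Finset.sum_range_succ _ (R + 1), Nat.sub_self, S_zero]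
    have h1 : (G * H).coeff (R + 1) = ∑ x ∈ range (R + 1), G.coeff x * H.coeff (R + 1 - x) +
        G.coeff (R + 1) * H.coeff 0 := by
      rw [coeff_mul, Finset.Nat.sum_antidiagonal_eq_sum_range_succ_mk, Finset.sum_range_succ]
      simp
    have h2 : ∑ x ∈ range (R + 1), G.coeff x * S b H (R + 1 - x) =
        (b : ℤ) * ∑ x ∈ range (R + 1), G.coeff x * S b H (R - x) +
        ∑ x ∈ range (R + 1), G.coeff x * H.coeff (R + 1 - x) := by
      rw [Finset.mul_sum, ← Finset.sum_add_distrib]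
      apply Finset.sum_congr rfl
      intro x hx
      have hx' : x ≤ R := Nat.lt_succ_iff.1 (Finset.mem_range.1 hx)
      have e : R + 1 - x = (R - x) + 1 := by omega
      rw [e, S_succ]
      ring
    rw [h1, h2]
    ring

lemma S_nonneg (b : ℕ) (G : ℤ[X]) (hG : ∀ n, 0 ≤ G.coeff n) (R : ℕ) : 0 ≤ S b G R :=
  Finset.sum_nonneg fun n _ => mul_nonneg (hG n) (by positivity)

lemma S_shift_le (b : ℕ) (G : ℤ[X]) (hG : ∀ n, 0 ≤ G.coeff n) (R x : ℕ) (hx : x ≤ R) :
    (b : ℤ) ^ x * S b G (R - x) ≤ S b G R := by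
  induction x with
  | zero => simp
  | succ x ih =>
    have h1 := ih (by omega)
    have e : R - x = (R - (x + 1)) + 1 := by omega
    rw [e, S_succ] at h1
    have h2 := hG (R - (x + 1) + 1)
    have h3 : (0 : ℤ) ≤ (b : ℤ) ^ x := by positivity
    rw [pow_succ]
    nlinarith [mul_nonneg h3 h2]

lemma S_sq_le (b : ℕ) (G : ℤ[X]) (hG : ∀ n, 0 ≤ G.coeff n) (R : ℕ) :
    (b : ℤ) ^ R * S b (G * G) R ≤ S b G R ^ 2 := by
  rw [S_mul, Finset.mul_sum]
  calc ∑ x ∈ range (R + 1), (b : ℤ) ^ R * (G.coeff x * S b G (R - x))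
      ≤ ∑ x ∈ range (R + 1), G.coeff x * (b : ℤ) ^ (R - x) * S b G R := by
        apply Finset.sum_le_sum
        intro x hx
        have hx' : x ≤ R := Nat.lt_succ_iff.1 (Finset.mem_range.1 hx)
        have h1 := S_shift_le b G hG R x hx'
        have h2 : (b : ℤ) ^ R = (b : ℤ) ^ (R - x) * (b : ℤ) ^ x := by
          rw [← pow_add]; congr 1; omega
        rw [h2]
        have h3 : (0 : ℤ) ≤ G.coeff x * (b : ℤ) ^ (R - x) := mul_nonneg (hG x) (by positivity)
        nlinarith [mul_le_mul_of_nonneg_left h1 h3]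
    _ = S b G R ^ 2 := by
        rw [← Finset.sum_mul, pow_two]
        congr 1

/-- `⌊√2 2^n⌋` -/
noncomputable def fs (n : ℕ) : ℤ := ⌊Real.sqrt 2 * ((2 : ℕ) : ℝ) ^ n⌋

lemma fs_zero : fs 0 = 1 := by
  unfold fs
  rw [pow_zero, mul_one, Int.floor_eq_iff]
  constructor
  · have : (1 : ℝ) ≤ Real.sqrt 2 := by
      rw [Real.one_le_sqrt]; norm_num
    simpa using this
  · have : Real.sqrt 2 < 2 := by
      rw [Real.sqrt_lt' (by norm_num)]; norm_num
    push_cast
    linarith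

lemma fs_nonneg (n : ℕ) : 0 ≤ fs n := by
  unfold fs
  apply Int.floor_nonneg.2
  positivity

lemma fs_sq_lt (n : ℕ) : fs n ^ 2 < 2 * 4 ^ n := by
  have h1 : (fs n : ℝ) ≤ Real.sqrt 2 * ((2 : ℕ) : ℝ) ^ n := Int.floor_le _
  have h0 : (0 : ℝ) ≤ (fs n : ℝ) := by exact_mod_cast fs_nonneg n
  have h2 : (fs n : ℝ) ^ 2 ≤ 2 * 4 ^ n := by
    calc (fs n : ℝ) ^ 2 ≤ (Real.sqrt 2 * ((2 : ℕ) : ℝ) ^ n) ^ 2 := pow_le_pow_left₀ h0 h1 2
      _ = 2 * 4 ^ n := by
        rw [mul_pow, Real.sq_sqrt (by norm_num), ← pow_mul, mul_comm n 2, pow_mul]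
        norm_num
  have h3 : fs n ^ 2 ≤ 2 * 4 ^ n := by exact_mod_cast h2
  refine lt_of_le_of_ne h3 ?_
  intro h4
  have h5 : Irrational (Real.sqrt 2) := irrational_sqrt_two
  apply h5
  refine ⟨(fs n : ℚ) / 2 ^ n, ?_⟩
  have h6 : (fs n : ℝ) ^ 2 = 2 * 4 ^ n := by exact_mod_cast h4
  have h7 : Real.sqrt 2 = (fs n : ℝ) / 2 ^ n := by
    rw [Real.sqrt_eq_iff_mul_self_eq (by norm_num) (by positivity)]
    have h8 : ((2 : ℝ) ^ n) * (2 : ℝ) ^ n = 4 ^ n := by rw [← mul_pow]; norm_num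
    rw [div_mul_div_comm, h8, ← pow_two, h6]
    field_simp
  rw [h7]; push_cast; ring

/-- the number of ones among the first `N` binary digits of `√2` after the point -/
noncomputable def ones (N : ℕ) : ℕ :=
  ((range N).filter (fun k : ℕ => fs (k + 1) % 2 = 1)).card

lemma fs_succ (n : ℕ) : fs (n + 1) = 2 * fs n + fs (n + 1) % 2 := by
  have h := digit_eq 2 le_rfl (Real.sqrt 2) n
  have e1 : ⌊Real.sqrt 2 * ((2 : ℕ) : ℝ) ^ (n + 1)⌋ = fs (n + 1) := rfl
  have e2 : ⌊Real.sqrt 2 * ((2 : ℕ) : ℝ) ^ n⌋ = fs n := rfl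
  rw [e1, e2] at h
  push_cast at h
  linarith

lemma V_fs (N : ℕ) : V 2 fs N = 1 + (ones N : ℤ) := by
  unfold V
  rw [Finset.sum_range_succ', add_comm]
  congr 1
  · simp [dlt, fs_zero]
  · unfold ones
    rw [Finset.card_filter]
    push_cast
    apply Finset.sum_congr rfl
    intro k _
    have h1 := fs_succ k
    have h2 : dlt 2 fs (k + 1) = fs (k + 1) % 2 := by
      simp only [dlt]; push_cast; linarith
    rw [h2]
    rcases Int.emod_two_eq_zero_or_one (fs (k + 1)) with h | h <;> rw [h] <;> simp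

/-- the number of ones is at least `c √N` -/
theorem ones_bound : ∃ C : ℝ, 0 < C ∧ ∀ N : ℕ, ((N : ℝ) + 1) ≤ C * (1 + (ones N : ℝ)) ^ 2 := by
  set F : ℤ[X] := X * X - C 2 with hF
  have hroot : (F.map (Int.castRingHom ℝ)).eval (Real.sqrt 2) = 0 := by
    simp [hF]
  obtain ⟨C1, hC1, h1⟩ := exists_bound 2 le_rfl F (Real.sqrt 2) 1 hroot
  refine ⟨C1 * 4, by positivity, ?_⟩
  intro N
  have happ : ∀ K, |(fs K : ℝ) - ((2 : ℕ) : ℝ) ^ K * Real.sqrt 2| ≤ 1 := by
    intro K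
    have a1 := Int.floor_le (Real.sqrt 2 * ((2 : ℕ) : ℝ) ^ K)
    have a2 := Int.lt_floor_add_one (Real.sqrt 2 * ((2 : ℕ) : ℝ) ^ K)
    have e1 : ((⌊Real.sqrt 2 * ((2 : ℕ) : ℝ) ^ K⌋ : ℤ) : ℝ) = (fs K : ℝ) := rfl
    rw [e1] at a1 a2
    rw [abs_le]
    constructor <;> linarith
  have h2 := h1 N (Pol 2 fs N) (approx_Pol 2 le_rfl fs _ 1 happ N)
  have hdeg : F.natDegree ≤ 2 := by
    rw [hF]
    refine (natDegree_sub_le _ _).trans ?_
    simp only [natDegree_C]
    refine max_le ?_ (by norm_num)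
    exact (natDegree_mul_le).trans (by simp)
  have hn0 : (0 : ℝ) ≤ (n1 (Pol 2 fs N) : ℝ) := by exact_mod_cast n1_nonneg _
  have hn1 : (n1 (Pol 2 fs N) : ℝ) ≤ 1 + (ones N : ℝ) := by
    have := n1_Pol_le 2 fs N
    rw [V_fs] at this
    exact_mod_cast this
  have h3 : (1 + (n1 (Pol 2 fs N) : ℝ)) ^ F.natDegree ≤ 4 * (1 + (ones N : ℝ)) ^ 2 := by
    calc (1 + (n1 (Pol 2 fs N) : ℝ)) ^ F.natDegree ≤ (1 + (n1 (Pol 2 fs N) : ℝ)) ^ 2 :=
          pow_le_pow_right₀ (by linarith) hdeg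
      _ ≤ (2 * (1 + (ones N : ℝ))) ^ 2 := by
          apply pow_le_pow_left₀ (by linarith)
          have : (0 : ℝ) ≤ (ones N : ℝ) := by positivity
          linarith
      _ = _ := by ring
  have hcoef : ∀ n, 0 ≤ (Pol 2 fs N).coeff n := by
    intro n
    rw [Pol_coeff]
    split_ifs
    · cases n with
      | zero => simp [dlt, fs_zero]
      | succ n =>
        have h1 := fs_succ n
        have h2 : dlt 2 fs (n + 1) = fs (n + 1) % 2 := by
          simp only [dlt]; push_cast; linarith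
        rw [h2]
        exact Int.emod_nonneg _ (by norm_num)
    · exact le_rfl
  have h4 : ((N : ℝ) + 1) ≤ ∑ R ∈ range (N + 1), (|S 2 (F.comp (Pol 2 fs N)) R| : ℝ) := by
    calc ((N : ℝ) + 1) = ∑ R ∈ range (N + 1), (1 : ℝ) := by simp
      _ ≤ _ := by
        apply Finset.sum_le_sum
        intro R hR
        have hR' : R ≤ N := Nat.lt_succ_iff.1 (Finset.mem_range.1 hR)
        have h5 : F.comp (Pol 2 fs N) = Pol 2 fs N * Pol 2 fs N - C 2 := by
          rw [hF]; simp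
        have h6 : S 2 (F.comp (Pol 2 fs N)) R =
            S 2 (Pol 2 fs N * Pol 2 fs N) R - 2 * 2 ^ R := by
          rw [h5]
          unfold S
          simp only [coeff_sub, coeff_C, sub_mul, Finset.sum_sub_distrib]
          congr 1
          rw [Finset.sum_eq_single 0]
          · simp
          · intro n _ hn; simp [hn]
          · intro h; simp at h
        have h7 := S_sq_le 2 (Pol 2 fs N) hcoef R
        rw [S_Pol 2 fs N R hR'] at h7
        have h8 := fs_sq_lt R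
        have h9 : S 2 (Pol 2 fs N * Pol 2 fs N) R < 2 * 2 ^ R := by
          have h10 : ((2 : ℕ) : ℤ) ^ R * S 2 (Pol 2 fs N * Pol 2 fs N) R < 2 * 4 ^ R := by
            linarith
          have h11 : (4 : ℤ) ^ R = 2 ^ R * 2 ^ R := by rw [← mul_pow]; norm_num
          rw [h11] at h10
          push_cast at h10
          have h12 : (0 : ℤ) < 2 ^ R := by positivity
          nlinarith
        have h10 : S 2 (F.comp (Pol 2 fs N)) R ≠ 0 := by
          rw [h6]
          have : (0 : ℤ) < 2 ^ R := by positivity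
          omega
        have h11 : (1 : ℤ) ≤ |S 2 (F.comp (Pol 2 fs N)) R| := Int.one_le_abs h10
        exact_mod_cast h11
  calc ((N : ℝ) + 1) ≤ C1 * (1 + (n1 (Pol 2 fs N) : ℝ)) ^ F.natDegree := h4.trans h2
    _ ≤ C1 * (4 * (1 + (ones N : ℝ)) ^ 2) := mul_le_mul_of_nonneg_left h3 hC1.le
    _ = _ := by ring

end Pool.Agent.H323R2
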