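import Pool.Agent.H323R2.Rel

/-!
Divisibility of sparse approximations to multiples of `√2`.
-/

set_option autoImplicit false

namespace Pool.Agent.H323R2

open Polynomial Finset

/-- the polynomial `X^p - κ X` -/
lemma frob_poly' (p : ℕ) [Fact p.Prime] (hp2 : p ≠ 2) (m : ℤ) :
    ∃ F : ℤ[X], F.map (Int.castRingHom (ZMod p)) = C 1 * X ^ (p ^ 1) ∧ F.natDegree = p ∧
      (F.map (Int.castRingHom ℝ)).eval (((p : ℝ) * m) * Real.sqrt 2) = 0 := by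
  have hp : p.Prime := Fact.out
  have hodd : Odd p := hp.odd_of_ne_two hp2
  obtain ⟨s, hs⟩ := hodd
  have hs1 : 1 ≤ s := by have := hp.two_le; omega
  set κ : ℤ := (2 * ((p : ℤ) * m) ^ 2) ^ s with hκ
  refine ⟨X ^ p - C κ * X, ?_, ?_, ?_⟩
  · have hz : ((κ : ℤ) : ZMod p) = 0 := by
      rw [ZMod.intCast_zmod_eq_zero_iff_dvd, hκ]
      apply dvd_pow _ (by omega)
      exact Dvd.dvd.mul_left (dvd_pow (Dvd.intro _ rfl) (by norm_num)) _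
    rw [Polynomial.map_sub, Polynomial.map_pow, Polynomial.map_mul, Polynomial.map_X,
      Polynomial.map_C]
    have : (Int.castRingHom (ZMod p)) κ = 0 := hz
    rw [this]; simp
  · rw [Polynomial.natDegree_sub_eq_left_of_natDegree_lt, Polynomial.natDegree_X_pow]
    rw [Polynomial.natDegree_X_pow]
    calc (C κ * X : ℤ[X]).natDegree ≤ 1 :=
          (Polynomial.natDegree_C_mul_le _ _).trans Polynomial.natDegree_X_le
      _ < p := hp.one_lt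
  · simp only [Polynomial.map_sub, Polynomial.map_pow, Polynomial.map_mul, Polynomial.map_X,
      Polynomial.map_C, Polynomial.eval_sub, Polynomial.eval_pow, Polynomial.eval_mul,
      Polynomial.eval_X, Polynomial.eval_C, Int.coe_castRingHom]
    have h2 : (((p : ℝ) * m) * Real.sqrt 2) ^ 2 = 2 * ((p : ℝ) * m) ^ 2 := by
      rw [mul_pow, Real.sq_sqrt (by norm_num)]; ring
    have h3 : (((p : ℝ) * m) * Real.sqrt 2) ^ p =
        (2 * ((p : ℝ) * m) ^ 2) ^ s * (((p : ℝ) * m) * Real.sqrt 2) := by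
      have h4 : ∀ y : ℝ, y ^ p = (y ^ 2) ^ s * y := fun y => by
        rw [← pow_mul, ← pow_succ, ← hs]
      rw [h4, h2]
    rw [h3, hκ]
    push_cast
    ring

lemma level' (p : ℕ) [Fact p.Prime] (hp2 : p ≠ 2) (A : ℤ) (U : ℕ → ℤ) (C0 : ℝ)
    (hU : ∀ K, |(U K : ℝ) - ((2 : ℕ) : ℝ) ^ K * ((A : ℝ) * Real.sqrt 2)| ≤ C0) (l : ℕ) :
    ((p : ℤ) ^ l ∣ A → ∃ C : ℝ, 0 < C ∧ ∀ N : ℕ,
      (V 2 (fun K => U K / (p : ℤ) ^ l) N : ℝ) ≤
        C * (1 + (V 2 U (p ^ l * N) : ℝ)) ^ (p ^ l)) ∧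
    ((p : ℤ) ^ (l + 1) ∣ A → ∃ C : ℝ, 0 < C ∧ ∀ N : ℕ,
      (bad p (fun K => U K / (p : ℤ) ^ l) N : ℝ) ≤
        C * (1 + (V 2 U (p ^ (l + 1) * N) : ℝ)) ^ (p ^ (l + 1))) := by
  have hp : p.Prime := Fact.out
  have hp0 : (p : ℝ) ≠ 0 := by exact_mod_cast hp.ne_zero
  have hV0 : ∀ n : ℕ, (0 : ℝ) ≤ (V 2 U n : ℝ) := fun n => by exact_mod_cast V_nonneg 2 _ n
  have happ : ∀ l : ℕ, ∀ K : ℕ, |(((U K / (p : ℤ) ^ l : ℤ)) : ℝ) -
      ((2 : ℕ) : ℝ) ^ K * ((A : ℝ) * Real.sqrt 2 / (p : ℝ) ^ l)| ≤ C0 + l := by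
    intro l
    induction l with
    | zero => intro K; simpa using hU K
    | succ l ih =>
      intro K
      have h1 := approx_div p 2 hp.pos (fun K => U K / (p : ℤ) ^ l) _ _ ih K
      have e1 : U K / (p : ℤ) ^ l / (p : ℤ) = U K / (p : ℤ) ^ (l + 1) := by
        rw [Int.ediv_ediv_of_nonneg (by positivity), pow_succ]
      have e2 : (A : ℝ) * Real.sqrt 2 / (p : ℝ) ^ l / (p : ℝ) =
          (A : ℝ) * Real.sqrt 2 / (p : ℝ) ^ (l + 1) := by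
        rw [div_div, pow_succ]
      simp only [e1, e2] at h1
      push_cast at h1 ⊢
      linarith
  have h2p : ((2 : ℕ) : ZMod p) ≠ 0 := by
    intro h0
    rw [ZMod.natCast_eq_zero_iff] at h0
    exact hp2 ((Nat.prime_dvd_prime_iff_eq hp Nat.prime_two).1 h0)
  have stepl : ∀ l : ℕ, (p : ℤ) ^ (l + 1) ∣ A → (∃ C : ℝ, 0 < C ∧ ∀ N : ℕ,
      (V 2 (fun K => U K / (p : ℤ) ^ l) N : ℝ) ≤
        C * (1 + (V 2 U (p ^ l * N) : ℝ)) ^ (p ^ l)) →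
      ∃ C : ℝ, 0 < C ∧ ∀ N : ℕ,
      (bad p (fun K => U K / (p : ℤ) ^ l) N : ℝ) ≤
        C * (1 + (V 2 U (p ^ (l + 1) * N) : ℝ)) ^ (p ^ (l + 1)) ∧
      (V 2 (fun K => U K / (p : ℤ) ^ (l + 1)) N : ℝ) ≤
        C * (1 + (V 2 U (p ^ (l + 1) * N) : ℝ)) ^ (p ^ (l + 1)) := by
    intro l hd hV
    obtain ⟨C1, hC1, hV⟩ := hV
    obtain ⟨m, hm⟩ := hd
    obtain ⟨F, hF1, hF2, hF3⟩ := frob_poly' p hp2 m
    have ht : (A : ℝ) * Real.sqrt 2 / (p : ℝ) ^ l = ((p : ℝ) * m) * Real.sqrt 2 := by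
      rw [hm, pow_succ]; push_cast; field_simp
    rw [← ht] at hF3
    obtain ⟨C2, hC2, h2⟩ := step p 2 le_rfl h2p 1 F 1 one_ne_zero hF1
      (by rw [hF2]; exact hp.one_lt.le) _ (C0 + (l : ℝ)) hF3
    refine ⟨C2 * (1 + C1) ^ p, by positivity, ?_⟩
    intro N
    have h3 := h2 (fun K => U K / (p : ℤ) ^ l) (happ l) N
    have h4 := hV (p ^ 1 * N)
    have e0 : p ^ l * (p ^ 1 * N) = p ^ (l + 1) * N := by ring
    rw [e0] at h4
    rw [hF2] at h3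
    set W : ℝ := 1 + (V 2 U (p ^ (l + 1) * N) : ℝ) with hW
    have hW1 : 1 ≤ W := by have := hV0 (p ^ (l + 1) * N); linarith
    have h5 : 1 + (V 2 (fun K => U K / (p : ℤ) ^ l) (p ^ 1 * N) : ℝ) ≤ (1 + C1) * W ^ (p ^ l) := by
      have : 1 ≤ W ^ (p ^ l) := one_le_pow₀ hW1
      nlinarith
    have h6 : (0 : ℝ) ≤ (V 2 (fun K => U K / (p : ℤ) ^ l) (p ^ 1 * N) : ℝ) := by
      exact_mod_cast V_nonneg 2 _ _
    have h7 : C2 * (1 + (V 2 (fun K => U K / (p : ℤ) ^ l) (p ^ 1 * N) : ℝ)) ^ p ≤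
        C2 * (1 + C1) ^ p * W ^ (p ^ (l + 1)) := by
      calc C2 * (1 + (V 2 (fun K => U K / (p : ℤ) ^ l) (p ^ 1 * N) : ℝ)) ^ p
          ≤ C2 * ((1 + C1) * W ^ (p ^ l)) ^ p := by
            apply mul_le_mul_of_nonneg_left _ hC2.le
            exact pow_le_pow_left₀ (by linarith) h5 _
        _ = C2 * (1 + C1) ^ p * W ^ (p ^ (l + 1)) := by
            rw [mul_pow, ← pow_mul, pow_succ]; ring
    have e1 : (fun K => U K / (p : ℤ) ^ (l + 1)) = fun K => (U K / (p : ℤ) ^ l) / (p : ℤ) := by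
      funext K
      rw [Int.ediv_ediv_of_nonneg (by positivity), pow_succ]
    rw [e1]
    exact ⟨h3.1.trans h7, h3.2.trans h7⟩
  have main : ∀ l : ℕ, (p : ℤ) ^ l ∣ A → ∃ C : ℝ, 0 < C ∧ ∀ N : ℕ,
      (V 2 (fun K => U K / (p : ℤ) ^ l) N : ℝ) ≤
        C * (1 + (V 2 U (p ^ l * N) : ℝ)) ^ (p ^ l) := by
    intro l
    induction l with
    | zero =>
      intro _
      refine ⟨1, one_pos, ?_⟩
      intro N
      simp
    | succ l ih =>
      intro hd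
      obtain ⟨C, hC, hN⟩ := stepl l hd (ih ((pow_dvd_pow (p : ℤ) (Nat.le_succ l)).trans hd))
      exact ⟨C, hC, fun N => (hN N).2⟩
  refine ⟨main l, fun hd => ?_⟩
  obtain ⟨C, hC, hN⟩ := stepl l hd (main l ((pow_dvd_pow (p : ℤ) (Nat.le_succ l)).trans hd))
  exact ⟨C, hC, fun N => (hN N).1⟩

/-- if every `(p,l)` test succeeds then `q ∣ u` -/
lemma dvd_of_tests (q : ℕ) (u : ℤ)
    (h : ∀ p l : ℕ, p.Prime → p ^ (l + 1) ∣ q → (p : ℤ) ∣ u / (p : ℤ) ^ l) : (q : ℤ) ∣ u := by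
  have key : ∀ p l : ℕ, p.Prime → p ^ l ∣ q → ((p : ℤ) ^ l) ∣ u := by
    intro p l hp
    induction l with
    | zero => intro _; simp
    | succ l ih =>
      intro hd
      have h1 := ih ((pow_dvd_pow p (Nat.le_succ l)).trans hd)
      have h2 := h p l hp hd
      obtain ⟨c, hc⟩ := h1
      have hp0 : (p : ℤ) ^ l ≠ 0 := pow_ne_zero _ (by exact_mod_cast hp.pos.ne')
      rw [hc, Int.mul_ediv_cancel_left _ hp0] at h2
      rw [hc, pow_succ]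
      exact mul_dvd_mul_left _ h2
  have h3 : q ∣ u.natAbs := by
    rw [Nat.dvd_iff_prime_pow_dvd_dvd]
    intro p k hp hd
    have := key p k hp hd
    have h4 := Int.natAbs_dvd_natAbs.2 this
    rwa [Int.natAbs_pow, Int.natAbs_natCast] at h4
  have h5 := Int.natCast_dvd_natCast.2 h3
  rwa [Int.dvd_natAbs] at h5

/-- the number of `K ≤ N` with `q ∤ U_K` is small -/
theorem nondvd_bound (q : ℕ) (hq : Odd q) (A : ℤ) (_hA : A ≠ 0) (hqA : (q : ℤ) ∣ A) (U : ℕ → ℤ)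
    (C0 : ℝ) (hU : ∀ K, |(U K : ℝ) - ((2 : ℕ) : ℝ) ^ K * ((A : ℝ) * Real.sqrt 2)| ≤ C0) :
    ∃ C : ℝ, 0 < C ∧ ∀ N : ℕ,
      (((range (N + 1)).filter (fun K => ¬ (q : ℤ) ∣ U K)).card : ℝ) ≤
        C * (1 + (V 2 U (q * N) : ℝ)) ^ q := by
  have hq0 : q ≠ 0 := by rintro rfl; simp at hq
  have hV0 : ∀ n : ℕ, (0 : ℝ) ≤ (V 2 U n : ℝ) := fun n => by exact_mod_cast V_nonneg 2 _ n
  have hC : ∀ x : ℕ × ℕ, ∃ C : ℝ, 0 < C ∧ (x.1.Prime → x.1 ^ (x.2 + 1) ∣ q → ∀ N : ℕ,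
      (bad x.1 (fun K => U K / (x.1 : ℤ) ^ x.2) N : ℝ) ≤ C * (1 + (V 2 U (q * N) : ℝ)) ^ q) := by
    intro x
    by_cases hx : x.1.Prime ∧ x.1 ^ (x.2 + 1) ∣ q
    · have : Fact x.1.Prime := ⟨hx.1⟩
      have hx2 : x.1 ≠ 2 := by
        intro h2
        have h3 : x.1 ∣ q := (dvd_pow_self _ (by omega)).trans hx.2
        rw [h2] at h3
        rw [Nat.odd_iff] at hq
        omega
      have hdA : (x.1 : ℤ) ^ (x.2 + 1) ∣ A := by
        have : ((x.1 ^ (x.2 + 1) : ℕ) : ℤ) ∣ (q : ℤ) := Int.natCast_dvd_natCast.2 hx.2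
        push_cast at this
        exact this.trans hqA
      obtain ⟨C, hC, hN⟩ := (level' x.1 hx2 A U C0 hU x.2).2 hdA
      refine ⟨C, hC, fun _ _ N => (hN N).trans ?_⟩
      have hle : x.1 ^ (x.2 + 1) ≤ q := Nat.le_of_dvd (by omega) hx.2
      have h1 : (V 2 U (x.1 ^ (x.2 + 1) * N) : ℝ) ≤ (V 2 U (q * N) : ℝ) := by
        exact_mod_cast V_mono 2 U (Nat.mul_le_mul_right N hle)
      apply mul_le_mul_of_nonneg_left _ hC.le
      calc (1 + (V 2 U (x.1 ^ (x.2 + 1) * N) : ℝ)) ^ (x.1 ^ (x.2 + 1))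
          ≤ (1 + (V 2 U (q * N) : ℝ)) ^ (x.1 ^ (x.2 + 1)) :=
            pow_le_pow_left₀ (by have := hV0 (x.1 ^ (x.2 + 1) * N); linarith) (by linarith) _
        _ ≤ (1 + (V 2 U (q * N) : ℝ)) ^ q :=
            pow_le_pow_right₀ (by have := hV0 (q * N); linarith) hle
    · refine ⟨1, one_pos, fun h1 h2 => absurd ⟨h1, h2⟩ hx⟩
  choose Cf hCf0 hCf using hC
  set I : Finset (ℕ × ℕ) := ((range (q + 1)) ×ˢ (range (q + 1))).filter
    (fun x => x.1.Prime ∧ x.1 ^ (x.2 + 1) ∣ q) with hI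
  refine ⟨∑ x ∈ I, Cf x + 1, by
    have : 0 ≤ ∑ x ∈ I, Cf x := Finset.sum_nonneg fun x _ => (hCf0 x).le
    linarith, ?_⟩
  intro N
  have hsub : (range (N + 1)).filter (fun K => ¬ (q : ℤ) ∣ U K) ⊆
      I.biUnion (fun x => (range (N + 1)).filter
        (fun K => ¬ (x.1 : ℤ) ∣ U K / (x.1 : ℤ) ^ x.2)) := by
    intro K hK
    rw [Finset.mem_filter] at hK
    by_contra hcon
    apply hK.2
    apply dvd_of_tests
    intro p l hp hd
    by_contra hnd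
    apply hcon
    rw [Finset.mem_biUnion]
    refine ⟨(p, l), ?_, Finset.mem_filter.2 ⟨hK.1, hnd⟩⟩
    rw [hI, Finset.mem_filter, Finset.mem_product, Finset.mem_range, Finset.mem_range]
    have hle : p ^ (l + 1) ≤ q := Nat.le_of_dvd (by omega) hd
    have h1 : l + 1 < p ^ (l + 1) := Nat.lt_pow_self hp.one_lt
    have h2 : p ≤ p ^ (l + 1) := Nat.le_self_pow (by omega) p
    exact ⟨⟨by simp only; omega, by simp only; omega⟩, hp, hd⟩
  have h1 : ((range (N + 1)).filter (fun K => ¬ (q : ℤ) ∣ U K)).card ≤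
      ∑ x ∈ I, bad x.1 (fun K => U K / (x.1 : ℤ) ^ x.2) N := by
    calc _ ≤ _ := Finset.card_le_card hsub
      _ ≤ _ := Finset.card_biUnion_le
      _ = _ := rfl
  have h2 : (((range (N + 1)).filter (fun K => ¬ (q : ℤ) ∣ U K)).card : ℝ) ≤
      ∑ x ∈ I, (bad x.1 (fun K => U K / (x.1 : ℤ) ^ x.2) N : ℝ) := by
    exact_mod_cast h1
  have h3 : ∑ x ∈ I, (bad x.1 (fun K => U K / (x.1 : ℤ) ^ x.2) N : ℝ) ≤
      ∑ x ∈ I, Cf x * (1 + (V 2 U (q * N) : ℝ)) ^ q := by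
    apply Finset.sum_le_sum
    intro x hx
    rw [hI, Finset.mem_filter] at hx
    exact hCf x hx.2.1 hx.2.2 N
  have h4 : (0 : ℝ) ≤ (1 + (V 2 U (q * N) : ℝ)) ^ q := by
    have := hV0 (q * N)
    positivity
  rw [← Finset.sum_mul] at h3
  calc _ ≤ (∑ x ∈ I, Cf x) * (1 + (V 2 U (q * N) : ℝ)) ^ q := h2.trans h3
    _ ≤ _ := by nlinarith

end Pool.Agent.H323R2
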