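import Pool.Agent.H323R2.Rel2

/-!
Local analysis of defect-free stretches.
-/

set_option autoImplicit false

namespace Pool.Agent.H323R2

open Polynomial Finset

/-- dynamics of `w ↦ 2 w - c β` -/
lemma dyn (a L n1 : ℕ) (B0 : ℤ) (hB0 : B0 < 2 ^ n1) (w β : ℕ → ℤ)
    (hβ : ∀ i, β i = 0 ∨ β i = 1)
    (hrec : ∀ i < L, w (i + 1) = 2 * w i - 2 ^ a * β i) (hbd : ∀ i ≤ L, |w i| ≤ B0)
    (haL : a + n1 ≤ L) :
    (∀ i, a ≤ i → i + n1 < L → β i = 0) ∨ (∀ i, a ≤ i → i + n1 < L → β i = 1) := by
  have hc : (1 : ℤ) ≤ 2 ^ a := one_le_pow₀ (by norm_num)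
  -- range
  have hrange : ∀ i, i + n1 ≤ L → 0 ≤ w i ∧ w i ≤ 2 ^ a := by
    intro i hi
    constructor
    · by_contra hneg
      push Not at hneg
      have key : ∀ n, i + n ≤ L → w (i + n) ≤ -2 ^ n := by
        intro n
        induction n with
        | zero => intro _; simp; omega
        | succ n ih =>
          intro hn
          have h1 := ih (by omega)
          have h2 := hrec (i + n) (by omega)
          have e : i + (n + 1) = i + n + 1 := by ring
          rw [e, h2, pow_succ]
          rcases hβ (i + n) with h | h <;> rw [h] <;> linarith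
      have h1 := key n1 hi
      have h2 := hbd (i + n1) hi
      rw [abs_le] at h2
      linarith [h2.1]
    · by_contra hbig
      push Not at hbig
      have key : ∀ n, i + n ≤ L → 2 ^ a + 2 ^ n ≤ w (i + n) := by
        intro n
        induction n with
        | zero => intro _; simp; omega
        | succ n ih =>
          intro hn
          have h1 := ih (by omega)
          have h2 := hrec (i + n) (by omega)
          have e : i + (n + 1) = i + n + 1 := by ring
          rw [e, h2, pow_succ]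
          rcases hβ (i + n) with h | h <;> rw [h] <;> linarith
      have h1 := key n1 hi
      have h2 := hbd (i + n1) hi
      rw [abs_le] at h2
      linarith [h2.2]
  -- divisibility
  have hdiv : ∀ n, n ≤ L → ∃ s : ℤ, w n = 2 ^ n * w 0 - 2 ^ a * s := by
    intro n
    induction n with
    | zero => intro _; exact ⟨0, by simp⟩
    | succ n ih =>
      intro hn
      obtain ⟨s, hs⟩ := ih (by omega)
      refine ⟨2 * s + β n, ?_⟩
      rw [hrec n (by omega), hs, pow_succ]; ring
  obtain ⟨s, hs⟩ := hdiv a (by omega)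
  have hw : w a = 2 ^ a * (w 0 - s) := by rw [hs]; ring
  have hra := hrange a haL
  have hcase : w a = 0 ∨ w a = 2 ^ a := by
    have h1 : 0 ≤ w 0 - s := by
      by_contra h
      push Not at h
      have : w a < 0 := by rw [hw]; nlinarith
      linarith [hra.1]
    have h2 : w 0 - s ≤ 1 := by
      by_contra h
      push Not at h
      have : 2 ^ a < w a := by rw [hw]; nlinarith
      linarith [hra.2]
    have h3 : w 0 - s = 0 ∨ w 0 - s = 1 := by omega
    rcases h3 with h | h
    · left; rw [hw, h]; simp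
    · right; rw [hw, h]; simp
  rcases hcase with h0 | h1
  · left
    have hall : ∀ n, a + n + n1 ≤ L → w (a + n) = 0 := by
      intro n
      induction n with
      | zero => intro _; exact h0
      | succ n ih =>
        intro hn
        have h1 := ih (by omega)
        have h2 := hrec (a + n) (by omega)
        have h3 := hrange (a + n + 1) (by omega)
        rw [h1] at h2
        have e : a + (n + 1) = a + n + 1 := by ring
        rw [e]
        rcases hβ (a + n) with h | h
        · rw [h2, h]; simp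
        · rw [h] at h2; exfalso; linarith [h3.1]
    intro i hi hiL
    obtain ⟨n, rfl⟩ := Nat.exists_eq_add_of_le hi
    have h1 := hall n (by omega)
    have h2 := hrec (a + n) (by omega)
    have h3 := hrange (a + n + 1) (by omega)
    rw [h1] at h2
    rcases hβ (a + n) with h | h
    · exact h
    · rw [h] at h2; exfalso; linarith [h3.1]
  · right
    have hall : ∀ n, a + n + n1 ≤ L → w (a + n) = 2 ^ a := by
      intro n
      induction n with
      | zero => intro _; exact h1
      | succ n ih =>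
        intro hn
        have h1 := ih (by omega)
        have h2 := hrec (a + n) (by omega)
        have h3 := hrange (a + n + 1) (by omega)
        rw [h1] at h2
        have e : a + (n + 1) = a + n + 1 := by ring
        rw [e]
        rcases hβ (a + n) with h | h
        · rw [h] at h2; exfalso; linarith [h3.2]
        · rw [h2, h]; ring
    intro i hi hiL
    obtain ⟨n, rfl⟩ := Nat.exists_eq_add_of_le hi
    have h1 := hall n (by omega)
    have h2 := hrec (a + n) (by omega)
    have h3 := hrange (a + n + 1) (by omega)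
    rw [h1] at h2
    rcases hβ (a + n) with h | h
    · rw [h] at h2; exfalso; linarith [h3.2]
    · exact h

lemma fs_add (n j : ℕ) : 0 ≤ fs (n + j) - 2 ^ j * fs n ∧ fs (n + j) - 2 ^ j * fs n < 2 ^ j := by
  induction j with
  | zero => simp
  | succ j ih =>
    have h1 := fs_succ (n + j)
    have h2 : 0 ≤ fs (n + j + 1) % 2 := Int.emod_nonneg _ (by norm_num)
    have h3 : fs (n + j + 1) % 2 < 2 := Int.emod_lt_of_pos _ (by norm_num)
    have e : n + (j + 1) = n + j + 1 := by ring
    rw [e, h1, pow_succ]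
    constructor
    · linarith [ih.1]
    · have := ih.2
      have h4 : fs (n + j) - 2 ^ j * fs n + 1 ≤ 2 ^ j := this
      linarith

variable (m : ℕ) (q : ℕ → ℤ) (e : ℤ)

/-- the sparse sequence of the relation -/
noncomputable def UU (K : ℕ) : ℤ := ∑ j ∈ range (m + 1), q j * fs (K + j) + e

lemma UU_succ (K : ℕ) : UU m q e (K + 1) = 2 * UU m q e K +
    (∑ j ∈ range (m + 1), q j * (fs (K + 1 + j) % 2) - e) := by
  unfold UU
  have h : ∀ j, q j * fs (K + 1 + j) = 2 * (q j * fs (K + j)) + q j * (fs (K + 1 + j) % 2) := by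
    intro j
    have e1 : K + 1 + j = K + j + 1 := by ring
    have := fs_succ (K + j)
    rw [e1]
    linear_combination q j * this
  simp_rw [h]
  rw [Finset.sum_add_distrib, ← Finset.mul_sum]
  ring

lemma UU_approx (K : ℕ) : |(UU m q e K : ℝ) - ((2 : ℕ) : ℝ) ^ K *
    (((∑ j ∈ range (m + 1), q j * 2 ^ j : ℤ) : ℝ) * Real.sqrt 2)| ≤
    ((∑ j ∈ range (m + 1), |q j| + |e| : ℤ) : ℝ) := by
  have e1 : (UU m q e K : ℝ) - ((2 : ℕ) : ℝ) ^ K *
      (((∑ j ∈ range (m + 1), q j * 2 ^ j : ℤ) : ℝ) * Real.sqrt 2) =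
      ∑ j ∈ range (m + 1), (q j : ℝ) * ((fs (K + j) : ℝ) -
        Real.sqrt 2 * ((2 : ℕ) : ℝ) ^ (K + j)) + (e : ℝ) := by
    unfold UU
    push_cast
    have h : ∀ j, (q j : ℝ) * ((fs (K + j) : ℝ) - Real.sqrt 2 * (2 : ℝ) ^ (K + j)) =
        (q j : ℝ) * (fs (K + j) : ℝ) - (q j : ℝ) * 2 ^ j * (2 ^ K * Real.sqrt 2) := by
      intro j; rw [pow_add]; ring
    simp_rw [h]
    rw [Finset.sum_sub_distrib, ← Finset.sum_mul]
    ring
  rw [e1]
  push_cast
  refine (abs_add_le _ _).trans (add_le_add ?_ le_rfl)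
  refine (Finset.abs_sum_le_sum_abs _ _).trans ?_
  apply Finset.sum_le_sum
  intro j _
  rw [abs_mul]
  have a1 := Int.floor_le (Real.sqrt 2 * ((2 : ℕ) : ℝ) ^ (K + j))
  have a2 := Int.lt_floor_add_one (Real.sqrt 2 * ((2 : ℕ) : ℝ) ^ (K + j))
  have e1 : ((⌊Real.sqrt 2 * ((2 : ℕ) : ℝ) ^ (K + j)⌋ : ℤ) : ℝ) = (fs (K + j) : ℝ) := rfl
  rw [e1] at a1 a2
  push_cast at a1 a2
  have a3 : |(fs (K + j) : ℝ) - Real.sqrt 2 * (2 : ℝ) ^ (K + j)| ≤ 1 := by
    rw [abs_le]
    constructor <;> linarith
  calc |(q j : ℝ)| * |(fs (K + j) : ℝ) - Real.sqrt 2 * (2 : ℝ) ^ (K + j)| ≤ |(q j : ℝ)| * 1 :=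
        mul_le_mul_of_nonneg_left a3 (abs_nonneg _)
    _ = _ := mul_one _

/-- number of defects of the relation -/
noncomputable def dfc (N : ℕ) : ℕ :=
  ((range N).filter (fun k : ℕ =>
    ∑ j ∈ range (m + 1), q j * (fs (k + 1 + j) % 2) ≠ e)).card

lemma dfc_mono {M N : ℕ} (h : M ≤ N) : dfc m q e M ≤ dfc m q e N := by
  unfold dfc
  apply Finset.card_le_card
  apply Finset.filter_subset_filter
  intro i hi
  rw [Finset.mem_range] at *
  omega

lemma V_UU (N : ℕ) : V 2 (UU m q e) N ≤ |UU m q e 0| +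
    (∑ j ∈ range (m + 1), |q j| + |e|) * (dfc m q e N : ℤ) := by
  unfold V dfc
  rw [Finset.sum_range_succ', add_comm, Finset.card_filter]
  push_cast
  rw [Finset.mul_sum]
  apply add_le_add (le_of_eq rfl)
  apply Finset.sum_le_sum
  intro k _
  have h1 := UU_succ m q e k
  have h2 : dlt 2 (UU m q e) (k + 1) =
      ∑ j ∈ range (m + 1), q j * (fs (k + 1 + j) % 2) - e := by
    simp only [dlt]; push_cast; linarith
  rw [h2]
  split_ifs with hc
  · rw [mul_one]
    refine (abs_sub _ _).trans (add_le_add ?_ le_rfl)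
    refine (Finset.abs_sum_le_sum_abs _ _).trans ?_
    apply Finset.sum_le_sum
    intro j _
    rw [abs_mul]
    have h3 : |fs (k + 1 + j) % 2| ≤ 1 := by
      rcases Int.emod_two_eq_zero_or_one (fs (k + 1 + j)) with h | h <;> rw [h] <;> simp
    calc |q j| * |fs (k + 1 + j) % 2| ≤ |q j| * 1 := mul_le_mul_of_nonneg_left h3 (abs_nonneg _)
      _ = _ := mul_one _
  · rw [not_not] at hc
    rw [hc]; simp

/-- local analysis -/
theorem local_const (A' : ℤ) (a : ℕ)
    (hA : ∑ j ∈ range (m + 1), q j * 2 ^ j = 2 ^ a * A') (hA' : A' ≠ 0)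
    (h1 : ∑ j ∈ range (m + 1), q j ≠ e) :
    ∃ L : ℕ, ∀ K : ℕ, A' ∣ UU m q e K →
      (∀ i < L, ∑ j ∈ range (m + 1), q j * (fs (K + i + 1 + j) % 2) = e) →
      e = 0 ∧ fs (K + a + 1) % 2 = 0 := by
  set A : ℤ := ∑ j ∈ range (m + 1), q j * 2 ^ j with hAdef
  set B0 : ℤ := ∑ j ∈ range (m + 1), |q j| * 2 ^ j + |e| with hB0
  have hB00 : 0 ≤ B0 := add_nonneg
    (Finset.sum_nonneg fun j _ => mul_nonneg (abs_nonneg _) (by positivity)) (abs_nonneg _)
  obtain ⟨n1, hn1⟩ : ∃ n1 : ℕ, B0 < 2 ^ n1 := by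
    refine ⟨B0.toNat, ?_⟩
    have : B0.toNat < 2 ^ B0.toNat := Nat.lt_two_pow_self
    have h2 : (B0.toNat : ℤ) = B0 := Int.toNat_of_nonneg hB00
    calc B0 = (B0.toNat : ℤ) := h2.symm
      _ < ((2 ^ B0.toNat : ℕ) : ℤ) := by exact_mod_cast this
      _ = 2 ^ B0.toNat := by push_cast; rfl
  refine ⟨a + n1 + m + 2, ?_⟩
  intro K hdvd hfree
  set L := a + n1 + m + 2 with hL
  set W : ℕ → ℤ := fun i => UU m q e (K + i) - A * fs (K + i) with hW
  set β : ℕ → ℤ := fun i => fs (K + i + 1) % 2 with hβ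
  have hβ01 : ∀ i, β i = 0 ∨ β i = 1 := fun i => Int.emod_two_eq_zero_or_one _
  have hAA' : A' ∣ A := by rw [hA]; exact Dvd.intro_left _ rfl
  have hWrec : ∀ i < L, W (i + 1) = 2 * W i - A * β i := by
    intro i hi
    have h2 := UU_succ m q e (K + i)
    have h3 := hfree i hi
    have h4 := fs_succ (K + i)
    have e1 : K + (i + 1) = K + i + 1 := by ring
    simp only [hW, hβ, e1]
    rw [h2, h3]
    linear_combination -A * h4
  have hWdvd : ∀ i ≤ L, A' ∣ W i := by
    intro i
    induction i with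
    | zero =>
      intro _
      simp only [hW, add_zero]
      exact dvd_sub hdvd (hAA'.mul_right _)
    | succ i ih =>
      intro hi
      rw [hWrec i (by omega)]
      exact dvd_sub ((ih (by omega)).mul_left _) (hAA'.mul_right _)
  have hWbd : ∀ i, |W i| ≤ B0 := by
    intro i
    have h2 : W i = ∑ j ∈ range (m + 1), q j * (fs (K + i + j) - 2 ^ j * fs (K + i)) + e := by
      simp only [hW, UU]
      rw [hAdef, Finset.sum_mul]
      have : ∀ j, q j * (fs (K + i + j) - 2 ^ j * fs (K + i)) =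
          q j * fs (K + i + j) - q j * 2 ^ j * fs (K + i) := by intro j; ring
      simp_rw [this]
      rw [Finset.sum_sub_distrib]
      ring
    rw [h2]
    refine (abs_add_le _ _).trans (add_le_add ?_ le_rfl)
    refine (Finset.abs_sum_le_sum_abs _ _).trans ?_
    apply Finset.sum_le_sum
    intro j _
    rw [abs_mul]
    apply mul_le_mul_of_nonneg_left _ (abs_nonneg _)
    have h3 := fs_add (K + i) j
    rw [abs_of_nonneg h3.1]
    exact h3.2.le
  set w : ℕ → ℤ := fun i => W i / A' with hw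
  have hwW : ∀ i ≤ L, A' * w i = W i := fun i hi => Int.mul_ediv_cancel' (hWdvd i hi)
  have hrec : ∀ i < L, w (i + 1) = 2 * w i - 2 ^ a * β i := by
    intro i hi
    have h2 := hwW (i + 1) (by omega)
    have h3 := hwW i (by omega)
    rw [hWrec i hi, ← h3, hA] at h2
    apply mul_left_cancel₀ hA'
    rw [h2]; ring
  have hbd : ∀ i ≤ L, |w i| ≤ B0 := by
    intro i hi
    have h2 := hWbd i
    rw [← hwW i hi, abs_mul] at h2
    have h3 : 1 ≤ |A'| := Int.one_le_abs hA'
    have h4 := abs_nonneg (w i)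
    nlinarith
  have hdyn := dyn a L n1 B0 hn1 w β hβ01 hrec hbd (by omega)
  have hrel := hfree a (by omega)
  have hterm : ∀ j ∈ range (m + 1), fs (K + a + 1 + j) % 2 = β (a + j) := by
    intro j _
    simp only [hβ]
    congr 2
    ring
  rw [Finset.sum_congr rfl (fun j hj => by rw [hterm j hj])] at hrel
  rcases hdyn with h0 | h0
  · have h2 : ∑ j ∈ range (m + 1), q j * β (a + j) = 0 := by
      apply Finset.sum_eq_zero
      intro j hj
      rw [Finset.mem_range] at hj
      rw [h0 (a + j) (by omega) (by omega), mul_zero]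
    rw [h2] at hrel
    exact ⟨hrel.symm, h0 a le_rfl (by omega)⟩
  · exfalso
    apply h1
    rw [← hrel]
    apply Finset.sum_congr rfl
    intro j hj
    rw [Finset.mem_range] at hj
    rw [h0 (a + j) (by omega) (by omega), mul_one]

end Pool.Agent.H323R2
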