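import Pool.Agent.H323R2.Core

/-!
Integer sequences `U` with `U_K = b^K t + O(1)`; the Frobenius trick modulo `p`.
-/

set_option autoImplicit false

namespace Pool.Agent.H323R2

open Polynomial Finset

lemma pow_q_expand (p : ℕ) [Fact p.Prime] (j : ℕ) (f : (ZMod p)[X]) :
    f ^ (p ^ j) = expand (ZMod p) (p ^ j) f := by
  induction j with
  | zero => simp
  | succ j ih =>
    rw [pow_succ, pow_mul, ih, ← ZMod.expand_card, Polynomial.expand_expand, mul_comm p]

lemma S_comp_mod (p : ℕ) [Fact p.Prime] (b j : ℕ) (F P : ℤ[X]) (α : ZMod p)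
    (hF : F.map (Int.castRingHom (ZMod p)) = C α * X ^ (p ^ j)) (R : ℕ) :
    ((S b (F.comp P) R : ℤ) : ZMod p) =
      α * (b : ZMod p) ^ (R % p ^ j) * ((S b P (R / p ^ j) : ℤ) : ZMod p) := by
  have hp : p.Prime := Fact.out
  set q := p ^ j with hq
  have hq0 : 0 < q := pow_pos hp.pos _
  have hcoef : ∀ n : ℕ, (((F.comp P).coeff n : ℤ) : ZMod p) =
      if q ∣ n then α * ((P.coeff (n / q) : ℤ) : ZMod p) else 0 := by
    intro n
    have h1 : (F.comp P).map (Int.castRingHom (ZMod p)) =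
        C α * expand (ZMod p) q (P.map (Int.castRingHom (ZMod p))) := by
      rw [Polynomial.map_comp, hF, ← pow_q_expand]
      simp [hq]
    have h2 : (((F.comp P).coeff n : ℤ) : ZMod p) =
        ((F.comp P).map (Int.castRingHom (ZMod p))).coeff n := by
      rw [Polynomial.coeff_map]; rfl
    rw [h2, h1, Polynomial.coeff_C_mul, Polynomial.coeff_expand hq0]
    split_ifs with h
    · rw [Polynomial.coeff_map]; rfl
    · simp
  have hbq : ∀ x : ZMod p, x ^ q = x := fun x => by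
    rw [hq]; exact ZMod.pow_card_pow x
  induction R with
  | zero =>
    rw [S_zero, hcoef 0]
    simp [S_zero]
  | succ R ih =>
    rw [S_succ]
    push_cast
    rw [ih, hcoef (R + 1)]
    by_cases h : q ∣ R + 1
    · rw [if_pos h]
      obtain ⟨k, hk⟩ := h
      have hk0 : 0 < k := by
        rcases Nat.eq_zero_or_pos k with h0 | h0
        · rw [h0] at hk; simp at hk
        · exact h0
      obtain ⟨k', rfl⟩ : ∃ k', k = k' + 1 := ⟨k - 1, by omega⟩
      have hR : R = (q - 1) + q * k' := by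
        have : q * (k' + 1) = q * k' + q := by ring
        omega
      have e1 : R / q = k' := by
        rw [hR, Nat.add_mul_div_left _ _ hq0, Nat.div_eq_of_lt (by omega)]; simp
      have e2 : R % q = q - 1 := by
        rw [hR, Nat.add_mul_mod_self_left, Nat.mod_eq_of_lt (by omega)]
      have e3 : (R + 1) / q = k' + 1 := by
        rw [hk, Nat.mul_div_cancel_left _ hq0]
      have e4 : (R + 1) % q = 0 := by rw [hk]; exact Nat.mul_mod_right _ _
      rw [e1, e2, e3, e4, S_succ]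
      push_cast
      have e5 : (b : ZMod p) * (b : ZMod p) ^ (q - 1) = (b : ZMod p) := by
        rw [← pow_succ', Nat.sub_add_cancel hq0, hbq]
      calc (b : ZMod p) * (α * (b : ZMod p) ^ (q - 1) * ((S b P k' : ℤ) : ZMod p)) +
            α * ((P.coeff (k' + 1) : ℤ) : ZMod p)
          = α * ((b : ZMod p) * (b : ZMod p) ^ (q - 1)) * ((S b P k' : ℤ) : ZMod p) +
            α * ((P.coeff (k' + 1) : ℤ) : ZMod p) := by ring
        _ = _ := by rw [e5]; ring
    · rw [if_neg h]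
      have e1 : (R + 1) / q = R / q := by
        rw [Nat.succ_div, if_neg h]; simp
      have e2 : (R + 1) % q = R % q + 1 := by
        have h1 := Nat.div_add_mod (R + 1) q
        have h2 := Nat.div_add_mod R q
        rw [e1] at h1
        omega
      rw [e1, e2, pow_succ]
      ring

lemma S_comp_mod_const (p : ℕ) [Fact p.Prime] (b : ℕ) (F P : ℤ[X]) (α : ZMod p)
    (hF : F.map (Int.castRingHom (ZMod p)) = C α) (R : ℕ) :
    ((S b (F.comp P) R : ℤ) : ZMod p) = α * (b : ZMod p) ^ R := by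
  have hcoef : ∀ n : ℕ, (((F.comp P).coeff n : ℤ) : ZMod p) = if n = 0 then α else 0 := by
    intro n
    have h1 : (F.comp P).map (Int.castRingHom (ZMod p)) = C α := by
      rw [Polynomial.map_comp, hF, Polynomial.C_comp]
    have h2 : (((F.comp P).coeff n : ℤ) : ZMod p) =
        ((F.comp P).map (Int.castRingHom (ZMod p))).coeff n := by
      rw [Polynomial.coeff_map]; rfl
    rw [h2, h1, Polynomial.coeff_C]
  induction R with
  | zero => rw [S_zero, hcoef 0]; simp
  | succ R ih =>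
    rw [S_succ]
    push_cast
    rw [ih, hcoef (R + 1), if_neg (by omega)]
    rw [pow_succ]; ring

/-- increments of a sequence in base `b` -/
def dlt (b : ℕ) (U : ℕ → ℤ) : ℕ → ℤ
  | 0 => U 0
  | k + 1 => U (k + 1) - b * U k

/-- base `b` variation of the sequence up to `N` -/
def V (b : ℕ) (U : ℕ → ℤ) (N : ℕ) : ℤ := ∑ k ∈ range (N + 1), |dlt b U k|

lemma V_nonneg (b : ℕ) (U : ℕ → ℤ) (N : ℕ) : 0 ≤ V b U N :=
  Finset.sum_nonneg fun _ _ => abs_nonneg _

lemma V_mono (b : ℕ) (U : ℕ → ℤ) {M N : ℕ} (h : M ≤ N) : V b U M ≤ V b U N := by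
  unfold V
  apply Finset.sum_le_sum_of_subset_of_nonneg
  · intro i hi
    rw [Finset.mem_range] at *
    omega
  · intro _ _ _; exact abs_nonneg _

/-- the polynomial with the increments as coefficients -/
noncomputable def Pol (b : ℕ) (U : ℕ → ℤ) (N : ℕ) : ℤ[X] :=
  ∑ k ∈ range (N + 1), monomial k (dlt b U k)

lemma Pol_coeff (b : ℕ) (U : ℕ → ℤ) (N k : ℕ) :
    (Pol b U N).coeff k = if k ≤ N then dlt b U k else 0 := by
  unfold Pol
  rw [Polynomial.finsetSum_coeff]
  simp only [Polynomial.coeff_monomial]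
  rw [Finset.sum_ite_eq' (range (N + 1)) k]
  simp

lemma n1_Pol_le (b : ℕ) (U : ℕ → ℤ) (N : ℕ) : n1 (Pol b U N) ≤ V b U N := by
  unfold Pol V
  refine (n1_sum_le _ _).trans ?_
  apply Finset.sum_le_sum
  intro k _
  rw [n1_monomial]

lemma S_Pol (b : ℕ) (U : ℕ → ℤ) (N K : ℕ) (h : K ≤ N) : S b (Pol b U N) K = U K := by
  induction K with
  | zero => rw [S_zero, Pol_coeff, if_pos h]; rfl
  | succ K ih =>
    rw [S_succ, ih (by omega), Pol_coeff, if_pos h]
    simp [dlt]

lemma eval_Pol (b : ℕ) (hb : 2 ≤ b) (U : ℕ → ℤ) (N : ℕ) :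
    ((Pol b U N).map (Int.castRingHom ℝ)).eval (1 / (b : ℝ)) = (U N : ℝ) / (b : ℝ) ^ N := by
  have hb0 : (b : ℝ) ≠ 0 := by positivity
  induction N with
  | zero => simp [Pol, dlt]
  | succ N ih =>
    have : Pol b U (N + 1) = Pol b U N + monomial (N + 1) (dlt b U (N + 1)) := by
      unfold Pol; rw [Finset.sum_range_succ]
    rw [this, Polynomial.map_add, Polynomial.eval_add, ih, Polynomial.map_monomial,
      Polynomial.eval_monomial]
    simp only [dlt, eq_intCast]
    push_cast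
    rw [one_div, inv_pow, pow_succ]
    field_simp
    ring

lemma approx_Pol (b : ℕ) (hb : 2 ≤ b) (U : ℕ → ℤ) (t C0 : ℝ)
    (hU : ∀ K, |(U K : ℝ) - (b : ℝ) ^ K * t| ≤ C0) (N : ℕ) :
    |((Pol b U N).map (Int.castRingHom ℝ)).eval (1 / (b : ℝ)) - t| ≤ C0 / (b : ℝ) ^ N := by
  rw [eval_Pol b hb]
  have hb0 : (0 : ℝ) < (b : ℝ) ^ N := by positivity
  have : (U N : ℝ) / (b : ℝ) ^ N - t = ((U N : ℝ) - (b : ℝ) ^ N * t) / (b : ℝ) ^ N := by
    field_simp
  rw [this, abs_div, abs_of_pos hb0]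
  exact div_le_div_of_nonneg_right (hU N) hb0.le

/-- Frobenius trick. -/
theorem count_bound (p : ℕ) [Fact p.Prime] (b : ℕ) (hb : 2 ≤ b) (hbp : (b : ZMod p) ≠ 0)
    (j : ℕ) (F : ℤ[X]) (α : ZMod p) (hα : α ≠ 0)
    (hF : F.map (Int.castRingHom (ZMod p)) = C α * X ^ (p ^ j)) (t C0 : ℝ)
    (ht : (F.map (Int.castRingHom ℝ)).eval t = 0) :
    ∃ C : ℝ, 0 < C ∧ ∀ U : ℕ → ℤ, (∀ K, |(U K : ℝ) - (b : ℝ) ^ K * t| ≤ C0) → ∀ N : ℕ,
      (((range (N + 1)).filter (fun R => ¬ (p : ℤ) ∣ U (R / p ^ j))).card : ℝ) ≤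
        C * (1 + (V b U N : ℝ)) ^ F.natDegree := by
  obtain ⟨C1, hC1, h1⟩ := exists_bound b hb F t C0 ht
  refine ⟨C1, hC1, ?_⟩
  intro U hU N
  have h2 := h1 N (Pol b U N) (approx_Pol b hb U t C0 hU N)
  have h3 : (n1 (Pol b U N) : ℝ) ≤ (V b U N : ℝ) := by exact_mod_cast n1_Pol_le b U N
  have h4 : (0 : ℝ) ≤ (n1 (Pol b U N) : ℝ) := by exact_mod_cast n1_nonneg _
  have h5 : C1 * (1 + (n1 (Pol b U N) : ℝ)) ^ F.natDegree ≤
      C1 * (1 + (V b U N : ℝ)) ^ F.natDegree := by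
    apply mul_le_mul_of_nonneg_left _ hC1.le
    exact pow_le_pow_left₀ (by linarith) (by linarith) _
  refine le_trans ?_ (h2.trans h5)
  calc (((range (N + 1)).filter (fun R => ¬ (p : ℤ) ∣ U (R / p ^ j))).card : ℝ)
      = ∑ R ∈ (range (N + 1)).filter (fun R => ¬ (p : ℤ) ∣ U (R / p ^ j)), (1 : ℝ) := by simp
    _ ≤ ∑ R ∈ (range (N + 1)).filter (fun R => ¬ (p : ℤ) ∣ U (R / p ^ j)),
          (|S b (F.comp (Pol b U N)) R| : ℝ) := by
        apply Finset.sum_le_sum
        intro R hR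
        rw [Finset.mem_filter, Finset.mem_range] at hR
        have h6 := S_comp_mod p b j F (Pol b U N) α hF R
        rw [S_Pol b U N _ ((Nat.div_le_self _ _).trans (by omega))] at h6
        have h7 : ((U (R / p ^ j) : ℤ) : ZMod p) ≠ 0 := by
          rw [Ne, ZMod.intCast_zmod_eq_zero_iff_dvd]
          exact hR.2
        have h8 : S b (F.comp (Pol b U N)) R ≠ 0 := by
          intro h0
          rw [h0] at h6
          simp only [Int.cast_zero] at h6
          exact (mul_ne_zero (mul_ne_zero hα (pow_ne_zero _ hbp)) h7) h6.symm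
        have h9 : (1 : ℤ) ≤ |S b (F.comp (Pol b U N)) R| := Int.one_le_abs h8
        exact_mod_cast h9
    _ ≤ ∑ R ∈ range (N + 1), (|S b (F.comp (Pol b U N)) R| : ℝ) := by
        apply Finset.sum_le_sum_of_subset_of_nonneg (Finset.filter_subset _ _)
        intro _ _ _; exact abs_nonneg _

/-- base case -/
theorem count_bound_const (p : ℕ) [Fact p.Prime] (b : ℕ) (hb : 2 ≤ b) (hbp : (b : ZMod p) ≠ 0)
    (F : ℤ[X]) (α : ZMod p) (hα : α ≠ 0)
    (hF : F.map (Int.castRingHom (ZMod p)) = C α) (t C0 : ℝ)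
    (ht : (F.map (Int.castRingHom ℝ)).eval t = 0) :
    ∃ C : ℝ, 0 < C ∧ ∀ U : ℕ → ℤ, (∀ K, |(U K : ℝ) - (b : ℝ) ^ K * t| ≤ C0) → ∀ N : ℕ,
      ((N : ℝ) + 1) ≤ C * (1 + (V b U N : ℝ)) ^ F.natDegree := by
  obtain ⟨C1, hC1, h1⟩ := exists_bound b hb F t C0 ht
  refine ⟨C1, hC1, ?_⟩
  intro U hU N
  have h2 := h1 N (Pol b U N) (approx_Pol b hb U t C0 hU N)
  have h3 : (n1 (Pol b U N) : ℝ) ≤ (V b U N : ℝ) := by exact_mod_cast n1_Pol_le b U N
  have h4 : (0 : ℝ) ≤ (n1 (Pol b U N) : ℝ) := by exact_mod_cast n1_nonneg _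
  have h5 : C1 * (1 + (n1 (Pol b U N) : ℝ)) ^ F.natDegree ≤
      C1 * (1 + (V b U N : ℝ)) ^ F.natDegree := by
    apply mul_le_mul_of_nonneg_left _ hC1.le
    exact pow_le_pow_left₀ (by linarith) (by linarith) _
  refine le_trans ?_ (h2.trans h5)
  calc ((N : ℝ) + 1) = ∑ R ∈ range (N + 1), (1 : ℝ) := by simp
    _ ≤ ∑ R ∈ range (N + 1), (|S b (F.comp (Pol b U N)) R| : ℝ) := by
        apply Finset.sum_le_sum
        intro R hR
        have h6 := S_comp_mod_const p b F (Pol b U N) α hF R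
        have h8 : S b (F.comp (Pol b U N)) R ≠ 0 := by
          intro h0
          rw [h0] at h6
          simp only [Int.cast_zero] at h6
          exact (mul_ne_zero hα (pow_ne_zero _ hbp)) h6.symm
        have h9 : (1 : ℤ) ≤ |S b (F.comp (Pol b U N)) R| := Int.one_le_abs h8
        exact_mod_cast h9

end Pool.Agent.H323R2
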